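import Mathlib

/-!
# Bidegree
-/

universe u

namespace Pool.Agent.LT

open Polynomial

/-- Both degrees of the polynomial `D` in two variables are at most `b`. -/
def BiDeg {F : Type u} [Field F] (D : F[X][X]) (b : ℕ) : Prop :=
  D.natDegree ≤ b ∧ ∀ i, (D.coeff i).natDegree ≤ b

end Pool.Agent.LT
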