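import Pool.Agent.Helper13.LT.L0b
import Pool.Agent.Helper13.LG.BiDeg

/-!
# Block G6: change of coordinates `t = t' + α u + β`; almost all lines are transversal to a curve

`shear α β` is the substitution `t ↦ t + α u + β`, `u ↦ u` in `F[t][u]` (outer variable `u`).

`ev_shear`: ring homomorphisms which agree on `C (C c)`, `C X`, `X`.

`exists_goodDisc`.  Let `D₁` be a squarefree divisor of `D` with `D ∣ D₁^N` (the radical, `F[X][X]` is a
UFD), of total degree `m`.  Let `D_m` be its homogeneous part of degree `m`.  `S` = the set of the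
`α ∈ F` with `D_m(α, 1) = 0`; this is finite since `D_m(α, 1)` is a nonzero polynomial in `α`.  Let
`α ∉ S`: `D_α = shear α 0 D₁` has leading coefficient `D_m(α, 1)` in `u`, a nonzero constant, and it is
squarefree (`shear α 0` is an automorphism of `F[t][u]`, inverse `shear (-α) 0`).  By the Gauss lemma it is
squarefree in `F(t)[u]` (or: a common factor of `D_α` and `∂D_α/∂u` in `F(t)[u]` would give a monic
square factor in `F[t][u]`), so its discriminant with respect to `u`, a polynomial in `t`, is not zero.  `T` =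
its set of roots.  For `β ∉ T`, `Δ = shear α β D₁ = D_α(t + β, u)` has leading coefficient `D_m(α, 1)` and
`Δ(0, u) = D_α(β, u)` has nonzero discriminant, so it is separable (the degree does not drop; see
`discr_map_of_injective`, `separable_of_discr` in `LT/F5.lean` and Mathlib's `resultant_deriv`,
`resultant_map_map`).  If `D` is a unit take `Δ = 1`.
-/

universe u

namespace Pool.Agent.LT

open Polynomial

/-- The substitution `t ↦ t + α u + β`, `u ↦ u` in `F[t][u]`. -/
noncomputable def shear {F : Type u} [Field F] (α β : F) : F[X][X] →+* F[X][X] :=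
  eval₂RingHom
    (aeval (C X + C (C α) * X + C (C β) : F[X][X]) : F[X] →ₐ[F] F[X][X]).toRingHom X

section h27

variable {F : Type u} [Field F]

theorem shear_C_27 (α β : F) (p : F[X]) :
    shear α β (C p) = aeval (C X + C (C α) * X + C (C β) : F[X][X]) p := eval₂_C _ _

theorem shear_CC_27 (α β : F) (c : F) : shear α β (C (C c)) = C (C c) := by
  rw [shear_C_27, aeval_C]
  rfl

theorem shear_CX_27 (α β : F) : shear α β (C X) = C X + C (C α) * X + C (C β) := by
  rw [shear_C_27, aeval_X]

theorem shear_X_27 (α β : F) : shear α β X = X := eval₂_X _ _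

theorem ringHom_ext_27 {S : Type*} [Semiring S] {f g : F[X][X] →+* S}
    (h1 : ∀ c : F, f (C (C c)) = g (C (C c))) (h2 : f (C X) = g (C X)) (h3 : f X = g X) :
    f = g := by
  refine Polynomial.ringHom_ext (fun p => ?_) h3
  have h4 : f.comp C = g.comp C := Polynomial.ringHom_ext h1 h2
  exact congrArg (fun φ : F[X] →+* S => φ p) h4

end h27

theorem ev_shear {F k : Type u} [Field F] [Field k] [Algebra F k] (t u : k) (α β : F)
    (D : F[X][X]) :
    ev F (t - algebraMap F k α * u - algebraMap F k β) u (shear α β D) = ev F t u D := by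
  have hC : ∀ (s : k) (p : F[X]), ev F s u (C p) = aeval s p := fun s p => eval₂_C _ _
  have hX : ∀ s : k, ev F s u X = u := fun s => eval₂_X _ _
  have h : (ev F (t - algebraMap F k α * u - algebraMap F k β) u).comp (shear α β) = ev F t u := by
    refine ringHom_ext_27 (fun c => ?_) ?_ ?_
    · rw [RingHom.comp_apply, shear_CC_27, hC, hC, aeval_C, aeval_C]
    · rw [RingHom.comp_apply, shear_CX_27, map_add, map_add, map_mul, hC, hC, hC, hC, hX, aeval_X,
        aeval_X, aeval_C, aeval_C]
      ring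
    · rw [RingHom.comp_apply, shear_X_27, hX, hX]
  exact congrArg (fun φ : F[X][X] →+* k => φ D) h

section h27

variable {F : Type u} [Field F]

/-- The substitution of a polynomial of degree one in `u`. -/
theorem aeval_lin_27 (α : F) (p : F[X]) {n : ℕ} (hn : p.natDegree ≤ n) :
    (aeval (C X + C (C α) * X + C (C 0) : F[X][X]) p).natDegree ≤ n ∧
      (aeval (C X + C (C α) * X + C (C 0) : F[X][X]) p).coeff n = C (p.coeff n * α ^ n) := by
  set L : F[X][X] := C X + C (C α) * X + C (C 0) with hL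
  have hL1 : L.natDegree ≤ 1 := by
    rw [hL]
    compute_degree
  have hLc : L.coeff 1 = C α := by
    rw [hL]
    simp [coeff_C]
  have hpow : ∀ i : ℕ, (L ^ i).natDegree ≤ i := fun i => by
    have := natDegree_pow_le_of_le i hL1
    rwa [mul_one] at this
  have hpc : ∀ i : ℕ, (L ^ i).coeff i = C (α ^ i) := fun i => by
    have := coeff_pow_of_natDegree_le (m := i) hL1
    rw [mul_one, hLc] at this
    rw [this, map_pow]
  rw [aeval_eq_sum_range' (Nat.lt_succ_of_le hn)]
  constructor
  · refine natDegree_sum_le_of_forall_le _ _ fun i hi => ?_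
    refine (natDegree_smul_le _ _).trans ((hpow i).trans ?_)
    rw [Finset.mem_range] at hi
    omega
  · rw [finsetSum_coeff, Finset.sum_range_succ]
    rw [Finset.sum_eq_zero]
    · rw [zero_add, coeff_smul, hpc, smul_eq_C_mul, ← C_mul]
    · intro i hi
      rw [Finset.mem_range] at hi
      rw [coeff_smul, coeff_eq_zero_of_natDegree_lt (lt_of_le_of_lt (hpow i) hi), smul_zero]

/-- The degree in `t` of all coefficients is at most `b`. -/
def TDeg27 (P : F[X][X]) (b : ℕ) : Prop := ∀ i, (P.coeff i).natDegree ≤ b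

theorem TDeg27.mono {P : F[X][X]} {b c : ℕ} (h : TDeg27 P b) (hbc : b ≤ c) : TDeg27 P c :=
  fun i => (h i).trans hbc

theorem TDeg27.mul {P Q : F[X][X]} {b c : ℕ} (h : TDeg27 P b) (h' : TDeg27 Q c) :
    TDeg27 (P * Q) (b + c) := by
  intro i
  rw [coeff_mul]
  refine natDegree_sum_le_of_forall_le _ _ fun x _ => ?_
  exact natDegree_mul_le.trans (add_le_add (h _) (h' _))

theorem TDeg27.one : TDeg27 (1 : F[X][X]) 0 := by
  intro i
  rw [coeff_one]
  split_ifs <;> simp

theorem TDeg27.pow {P : F[X][X]} {b : ℕ} (h : TDeg27 P b) (n : ℕ) : TDeg27 (P ^ n) (n * b) := by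
  induction n with
  | zero =>
    rw [pow_zero, zero_mul]
    exact TDeg27.one
  | succ n ih =>
    rw [pow_succ, Nat.succ_mul]
    exact ih.mul h

theorem TDeg27.sum {ι : Type*} (s : Finset ι) {f : ι → F[X][X]} {b : ℕ}
    (h : ∀ i ∈ s, TDeg27 (f i) b) : TDeg27 (∑ i ∈ s, f i) b := by
  intro i
  rw [finsetSum_coeff]
  exact natDegree_sum_le_of_forall_le _ _ fun j hj => h j hj i

theorem TDeg27.lin (α : F) : TDeg27 (C X + C (C α) * X + C (C 0) : F[X][X]) 1 := by
  intro i
  rw [coeff_add, coeff_add, coeff_C, coeff_C_mul, coeff_X, coeff_C]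
  refine (natDegree_add_le_of_degree_le (natDegree_add_le_of_degree_le ?_ ?_) ?_)
  · split_ifs <;> simp
  · split_ifs <;> simp
  · split_ifs <;> simp

theorem TDeg27.aeval_lin (α : F) (p : F[X]) {n : ℕ} (hn : p.natDegree ≤ n) :
    TDeg27 (aeval (C X + C (C α) * X + C (C 0) : F[X][X]) p) n := by
  rw [aeval_eq_sum_range' (Nat.lt_succ_of_le hn)]
  refine TDeg27.sum _ fun i hi => ?_
  rw [Finset.mem_range] at hi
  have h1 := ((TDeg27.lin α).pow i).mono (c := n) (by omega)
  intro j
  rw [coeff_smul]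
  exact (natDegree_smul_le _ _).trans (h1 j)

theorem TDeg27.X_pow (n : ℕ) : TDeg27 (X ^ n : F[X][X]) 0 := by
  intro i
  rw [coeff_X_pow]
  split_ifs <;> simp

/-- The leading coefficient after a generic shear is a nonzero constant. -/
theorem shear_lead_27 {D : F[X][X]} (hD : D ≠ 0) {b : ℕ} (hb : BiDeg D b) :
    ∃ E : F[X], E ≠ 0 ∧ E.natDegree ≤ 2 * b ∧ ∀ α : F, E.eval α ≠ 0 →
      (shear α 0 D).leadingCoeff = C (E.eval α) ∧ (shear α 0 D).natDegree ≤ 2 * b ∧
      TDeg27 (shear α 0 D) b := by
  classical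
  let w : ℕ → ℕ := fun j => (D.coeff j).natDegree + j
  obtain ⟨j0, hj0, hm0⟩ := Finset.exists_mem_eq_sup D.support (support_nonempty.2 hD) w
  set m : ℕ := D.support.sup w with hm
  have hle : ∀ j ∈ D.support, (D.coeff j).natDegree + j ≤ m := fun j hj => Finset.le_sup (f := w) hj
  have hm2 : m ≤ 2 * b := by
    have h1 : m = (D.coeff j0).natDegree + j0 := hm0
    have h2 := hb.2 j0
    have h3 := (le_natDegree_of_mem_supp j0 hj0).trans hb.1
    omega
  let E : F[X] := ∑ j ∈ D.support, C ((D.coeff j).coeff (m - j)) * X ^ (m - j)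
  have hE0 : E.coeff (m - j0) ≠ 0 := by
    have h1 : E.coeff (m - j0) = (D.coeff j0).coeff (m - j0) := by
      rw [finsetSum_coeff, Finset.sum_eq_single j0]
      · rw [coeff_C_mul_X_pow, if_pos rfl]
      · intro j hj hne
        rw [coeff_C_mul_X_pow, if_neg]
        have h1 := hle j hj
        have h2 := hle j0 hj0
        omega
      · intro h
        exact absurd hj0 h
    have h2 : m - j0 = (D.coeff j0).natDegree := by
      have : m = (D.coeff j0).natDegree + j0 := hm0
      omega
    rw [h1, h2]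
    exact leadingCoeff_ne_zero.2 (mem_support_iff.1 hj0)
  have hEdeg : E.natDegree ≤ 2 * b := by
    refine natDegree_sum_le_of_forall_le _ _ fun j _ => ?_
    refine (natDegree_C_mul_X_pow_le _ _).trans ?_
    omega
  refine ⟨E, fun h => hE0 (by rw [h, coeff_zero]), hEdeg, fun α hα => ?_⟩
  have hG : shear α 0 D = ∑ j ∈ D.support,
      aeval (C X + C (C α) * X + C (C 0) : F[X][X]) (D.coeff j) * X ^ j := by
    change eval₂ _ _ D = _
    rw [eval₂_eq_sum]
    rfl
  have hdeg : (shear α 0 D).natDegree ≤ m := by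
    rw [hG]
    refine natDegree_sum_le_of_forall_le _ _ fun j hj => ?_
    have h1 := hle j hj
    have h2 := (aeval_lin_27 α (D.coeff j) (n := (D.coeff j).natDegree) le_rfl).1
    refine natDegree_mul_le.trans ?_
    rw [natDegree_X_pow]
    omega
  have hcoeff : (shear α 0 D).coeff m = C (E.eval α) := by
    rw [hG, finsetSum_coeff, eval_finsetSum, map_sum]
    refine Finset.sum_congr rfl fun j hj => ?_
    have h1 := hle j hj
    rw [coeff_mul_X_pow', if_pos (by omega), (aeval_lin_27 α (D.coeff j) (n := m - j) (by omega)).2,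
      eval_mul, eval_C, eval_pow, eval_X]
  have hm' : (shear α 0 D).natDegree = m := by
    refine le_antisymm hdeg (le_natDegree_of_ne_zero ?_)
    rw [hcoeff, Ne, C_eq_zero]
    exact hα
  refine ⟨by rw [leadingCoeff, hm', hcoeff], hdeg.trans hm2, ?_⟩
  rw [hG]
  refine TDeg27.sum _ fun j _ => ?_
  exact (TDeg27.aeval_lin α (D.coeff j) (hb.2 j)).mul (TDeg27.X_pow j)

/-- The coefficients of the polynomial with exchanged variables. -/
theorem coeff_swap_27 (P : F[X][X]) (i j : ℕ) :
    ((Bivariate.swap P).coeff j).coeff i = (P.coeff i).coeff j := by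
  induction P using Polynomial.induction_on' with
  | add p q hp hq =>
    rw [map_add, coeff_add, coeff_add, hp, hq, coeff_add, coeff_add]
  | monomial n a =>
    induction a using Polynomial.induction_on' with
    | add p q hp hq =>
      rw [map_add, map_add, coeff_add, coeff_add, hp, hq, coeff_add, coeff_add]
    | monomial m r =>
      rw [Bivariate.swap_monomial_monomial, coeff_monomial, coeff_monomial]
      by_cases h1 : m = j <;> by_cases h2 : n = i
      · rw [if_pos h1, if_pos h2, coeff_monomial, coeff_monomial, if_pos h1, if_pos h2]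
      · rw [if_pos h1, if_neg h2, coeff_monomial, if_neg h2, coeff_zero]
      · rw [if_neg h1, if_pos h2, coeff_monomial, if_neg h1, coeff_zero]
      · rw [if_neg h1, if_neg h2, coeff_zero, coeff_zero]

theorem tdeg_iff_27 (P : F[X][X]) (b : ℕ) : TDeg27 P b ↔ (Bivariate.swap P).natDegree ≤ b := by
  rw [natDegree_le_iff_coeff_eq_zero]
  constructor
  · intro h j hj
    ext i
    rw [coeff_swap_27, coeff_zero]
    exact coeff_eq_zero_of_natDegree_lt (lt_of_le_of_lt (h i) hj)
  · intro h i
    rw [natDegree_le_iff_coeff_eq_zero]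
    intro j hj
    rw [← coeff_swap_27, h j hj, coeff_zero]

theorem TDeg27.of_dvd {P Q : F[X][X]} {b : ℕ} (hP : P ≠ 0) (h : TDeg27 P b) (hQ : Q ∣ P) :
    TDeg27 Q b := by
  rw [tdeg_iff_27] at h ⊢
  obtain ⟨Z, rfl⟩ := hQ
  have h0 : Bivariate.swap Q * Bivariate.swap Z ≠ 0 := by
    rw [← map_mul]
    exact fun h1 => hP ((map_eq_zero_iff _ Bivariate.swap.injective).1 h1)
  rw [map_mul, natDegree_mul (left_ne_zero_of_mul h0) (right_ne_zero_of_mul h0)] at h
  omega

/-- Degree of a determinant. -/
theorem natDegree_det_27 {n : ℕ} (M : Matrix (Fin n) (Fin n) F[X]) {b : ℕ}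
    (h : ∀ i j, (M i j).natDegree ≤ b) : M.det.natDegree ≤ n * b := by
  rw [Matrix.det_apply]
  refine natDegree_sum_le_of_forall_le _ _ fun σ _ => ?_
  have h1 : (∏ i, M (σ i) i).natDegree ≤ n * b := by
    refine (natDegree_prod_le _ _).trans ?_
    refine (Finset.sum_le_card_nsmul _ _ b fun i _ => h _ _).trans ?_
    rw [Finset.card_univ, Fintype.card_fin, smul_eq_mul]
  rcases Int.units_eq_one_or (Equiv.Perm.sign σ) with h2 | h2
  · rw [h2, one_smul]
    exact h1
  · rw [h2, Units.neg_smul, one_smul, natDegree_neg]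
    exact h1

theorem natDegree_res_27 {f g : F[X][X]} {b : ℕ} (hf : TDeg27 f b) (hg : TDeg27 g b) (m n : ℕ) :
    (resultant f g m n).natDegree ≤ (m + n) * b := by
  refine natDegree_det_27 _ fun i j => ?_
  rw [sylvester, Matrix.of_apply]
  refine Fin.addCases (fun j₁ => ?_) (fun j₁ => ?_) j
  · rw [Fin.addCases_left]
    split_ifs
    · exact hg _
    · simp
  · rw [Fin.addCases_right]
    split_ifs
    · exact hf _
    · simp

/-- The separable part of a monic polynomial over a polynomial ring, with a Bezout identity. -/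
theorem sep_part_27 [CharZero F] {P : F[X][X]} (hP : P.Monic) {b : ℕ} (hPd : P.natDegree ≤ 2 * b)
    (hPt : TDeg27 P b) :
    ∃ (Q : F[X][X]) (N : ℕ) (A B : F[X][X]) (r : F[X]), Q.Monic ∧ P ∣ Q ^ N ∧ r ≠ 0 ∧
      r.natDegree ≤ 4 * b * b ∧ A * Q + B * derivative Q = C r := by
  let K := FractionRing F[X]
  have hinj : Function.Injective (algebraMap F[X] K) := IsFractionRing.injective F[X] K
  have hK : CharZero K := charZero_of_injective_algebraMap hinj
  obtain ⟨y, n, hy, hyP, hPy⟩ := exists_squarefree_dvd_pow_of_ne_zero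
    (x := P.map (algebraMap F[X] K)) (hP.map _).ne_zero
  have hy0 : y ≠ 0 := hy.ne_zero
  obtain ⟨Q, hQ⟩ := IsIntegrallyClosed.eq_map_mul_C_of_dvd K hP hyP
  have hlc : y.leadingCoeff ≠ 0 := leadingCoeff_ne_zero.2 hy0
  have hQm : Q.Monic := by
    have h1 := congrArg leadingCoeff hQ
    rw [leadingCoeff_mul, leadingCoeff_C] at h1
    have h2 : (Q.map (algebraMap F[X] K)).leadingCoeff = 1 :=
      mul_right_cancel₀ hlc (by rw [h1, one_mul])
    rw [leadingCoeff_map_of_injective hinj] at h2
    exact hinj (by rw [h2, map_one])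
  have hass : Associated (Q.map (algebraMap F[X] K)) y :=
    ⟨(isUnit_C.2 (isUnit_iff_ne_zero.2 hlc)).unit, hQ⟩
  have hsep : (Q.map (algebraMap F[X] K)).Separable := by
    rw [PerfectField.separable_iff_squarefree]
    exact hass.squarefree_iff.2 hy
  have hdvd : P ∣ Q ^ n := by
    refine Monic.dvd_of_fraction_map_dvd_fraction_map (K := K) (hQm.pow n) hP ?_
    rw [Polynomial.map_pow]
    exact hPy.trans ((hass.pow_pow (n := n)).symm.dvd)
  have hQP : Q ∣ P := by
    refine Monic.dvd_of_fraction_map_dvd_fraction_map (K := K) hP hQm ?_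
    exact hass.dvd.trans hyP
  have hQt : TDeg27 Q b := hPt.of_dvd hP.ne_zero hQP
  have hQd : Q.natDegree ≤ 2 * b := (natDegree_le_of_dvd hQP hP.ne_zero).trans hPd
  by_cases hQ0 : Q.natDegree = 0
  · have hQ1 : Q = 1 := eq_one_of_monic_natDegree_zero hQm hQ0
    refine ⟨Q, n, 1, 0, 1, hQm, hdvd, one_ne_zero, by simp, ?_⟩
    rw [hQ1, one_mul, zero_mul, add_zero, C_1]
  · have hQt' : TDeg27 (derivative Q) b := by
      intro i
      rw [coeff_derivative]
      have h1 : ((i : F[X]) + 1) = C ((i : F) + 1) := by simp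
      rw [h1, mul_comm]
      exact (natDegree_C_mul_le _ _).trans (hQt _)
    obtain ⟨p, q, -, -, hpq⟩ := exists_mul_add_mul_eq_C_resultant Q (derivative Q) le_rfl le_rfl
      (Or.inl hQ0)
    refine ⟨Q, n, p, q, resultant Q (derivative Q) Q.natDegree (derivative Q).natDegree, hQm, hdvd,
      ?_, ?_, ?_⟩
    · intro h0
      have h1 := congrArg (algebraMap F[X] K) h0
      rw [map_zero, ← resultant_map_map] at h1
      have h2 : (Q.map (algebraMap F[X] K)).natDegree = Q.natDegree :=
        natDegree_map_eq_of_injective hinj Q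
      have h3 : ((derivative Q).map (algebraMap F[X] K)).natDegree = (derivative Q).natDegree :=
        natDegree_map_eq_of_injective hinj _
      rw [← h2, ← h3] at h1
      refine resultant_ne_zero _ _ ?_ h1
      rw [← derivative_map]
      exact hsep
    · refine (natDegree_res_27 hQt hQt' _ _).trans ?_
      have h1 : (derivative Q).natDegree ≤ 2 * b := (natDegree_derivative_le Q).trans (by omega)
      calc (Q.natDegree + (derivative Q).natDegree) * b ≤ (2 * b + 2 * b) * b :=
            Nat.mul_le_mul_right _ (add_le_add hQd h1)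
        _ = 4 * b * b := by ring
    · rw [← hpq]
      ring

end h27

theorem exists_goodDisc_bdd {F : Type u} [Field F] [CharZero F] (b : ℕ) : ∃ N0 : ℕ,
    ∀ D : F[X][X], D ≠ 0 → BiDeg D b → ∃ S : Finset F, S.card ≤ N0 ∧ ∀ α ∉ S,
      ∃ T : Finset F, T.card ≤ N0 ∧ ∀ c ∉ T, ∃ (Δ : F[X][X]) (N : ℕ), GoodDisc Δ ∧
        shear α c D ∣ Δ ^ N := by
  classical
  refine ⟨2 * b + 4 * b * b, fun D hD hDb => ?_⟩
  obtain ⟨E, hE0, hEd, hE⟩ := shear_lead_27 hD hDb
  refine ⟨E.roots.toFinset, ?_, fun α hα => ?_⟩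
  · have h1 := (Multiset.toFinset_card_le E.roots).trans (E.card_roots')
    omega
  have hEα : E.eval α ≠ 0 := fun h => hα (by
    rw [Multiset.mem_toFinset, mem_roots hE0]
    exact h)
  set c : F := E.eval α with hc
  obtain ⟨hlead, hGd, hGt⟩ := hE α hEα
  obtain ⟨P, hP⟩ : ∃ P : F[X][X], P = C (C c⁻¹) * shear α 0 D := ⟨_, rfl⟩
  have hcc : (C (C c) : F[X][X]) * C (C c⁻¹) = 1 := by
    rw [← C_mul, ← C_mul, mul_inv_cancel₀ hEα, C_1, C_1]
  have hPm : P.Monic := by
    rw [hP, Monic, leadingCoeff_mul, leadingCoeff_C, hlead, ← C_mul, inv_mul_cancel₀ hEα, C_1]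
  have hPd : P.natDegree ≤ 2 * b := by
    rw [hP]
    exact (natDegree_C_mul_le _ _).trans hGd
  have hPt : TDeg27 P b := by
    intro i
    rw [hP, coeff_C_mul]
    exact (natDegree_C_mul_le _ _).trans (hGt i)
  have hDP : shear α 0 D = C (C c) * P := by
    rw [hP, ← mul_assoc, hcc, one_mul]
  obtain ⟨Q, N, A, B, r, hQm, ⟨z, hz⟩, hr, hrd, hAB⟩ := sep_part_27 hPm hPd hPt
  refine ⟨r.roots.toFinset, ?_, fun β hβ => ?_⟩
  · have h1 := (Multiset.toFinset_card_le r.roots).trans (r.card_roots')
    omega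
  have hrβ : r.eval β ≠ 0 := fun h => hβ (by
    rw [Multiset.mem_toFinset, mem_roots hr]
    exact h)
  let sh : F[X] →+* F[X] := (aeval (X + C β : F[X]) : F[X] →ₐ[F] F[X]).toRingHom
  have shC : ∀ x : F, sh (C x) = C x := fun x => aeval_C _ _
  have shX : sh X = X + C β := aeval_X _
  have hcomp : (mapRingHom sh).comp (shear α 0) = shear α β := by
    refine ringHom_ext_27 (fun x => ?_) ?_ ?_
    · rw [RingHom.comp_apply, shear_CC_27, shear_CC_27, coe_mapRingHom, map_C, shC]
    · rw [RingHom.comp_apply, shear_CX_27, shear_CX_27, coe_mapRingHom, Polynomial.map_add,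
        Polynomial.map_add, Polynomial.map_mul, map_C, map_C, map_C, map_X, shC, shC, shX, C_add,
        C_0, C_0, add_zero]
      ring
    · rw [RingHom.comp_apply, shear_X_27, shear_X_27, coe_mapRingHom, map_X]
  have hshear : shear α β D = C (C c) * P.map sh := by
    have h1 : shear α β D = (shear α 0 D).map sh :=
      (congrArg (fun φ : F[X][X] →+* F[X][X] => φ D) hcomp).symm
    rw [h1, hDP, Polynomial.map_mul, map_C, shC]
  have hev : (evalRingHom (0 : F)).comp sh = evalRingHom β := by
    refine Polynomial.ringHom_ext (fun x => ?_) ?_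
    · rw [RingHom.comp_apply, shC, coe_evalRingHom, coe_evalRingHom, eval_C, eval_C]
    · rw [RingHom.comp_apply, shX, coe_evalRingHom, coe_evalRingHom, eval_add, eval_X, eval_C,
        eval_X, zero_add]
  refine ⟨Q.map sh, N, ⟨⟨1, one_ne_zero, ?_⟩, ?_⟩, ?_⟩
  · rw [(hQm.map sh).leadingCoeff, C_1]
  · rw [Polynomial.map_map, hev]
    refine ⟨C (r.eval β)⁻¹ * A.map (evalRingHom β), C (r.eval β)⁻¹ * B.map (evalRingHom β), ?_⟩
    have h1 := congrArg (Polynomial.map (evalRingHom β)) hAB
    rw [Polynomial.map_add, Polynomial.map_mul, Polynomial.map_mul, map_C, coe_evalRingHom] at h1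
    rw [derivative_map, mul_assoc, mul_assoc, ← mul_add, h1, ← C_mul, inv_mul_cancel₀ hrβ, C_1]
  · rw [hshear]
    have h1 := congrArg (Polynomial.map sh) hz
    rw [Polynomial.map_pow, Polynomial.map_mul] at h1
    refine ⟨C (C c⁻¹) * z.map sh, ?_⟩
    rw [h1]
    linear_combination (-(P.map sh * z.map sh)) * hcc

theorem exists_goodDisc {F : Type u} [Field F] [CharZero F] {D : F[X][X]} (hD : D ≠ 0) :
    ∃ S : Finset F, ∀ α ∉ S, ∃ T : Finset F, ∀ β ∉ T, ∃ (Δ : F[X][X]) (N : ℕ), GoodDisc Δ ∧
      shear α β D ∣ Δ ^ N := by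
  obtain ⟨N0, h0⟩ := exists_goodDisc_bdd (F := F) (D.natDegree + D.support.sup fun i =>
    (D.coeff i).natDegree)
  obtain ⟨S, -, hS⟩ := h0 D hD ⟨Nat.le_add_right _ _, fun i => by
    by_cases hi : i ∈ D.support
    · exact (Finset.le_sup (f := fun i => (D.coeff i).natDegree) hi).trans (Nat.le_add_left _ _)
    · rw [notMem_support_iff.1 hi, natDegree_zero]
      exact Nat.zero_le _⟩
  refine ⟨S, fun α hα => ?_⟩
  obtain ⟨T, -, hT⟩ := hS α hα
  exact ⟨T, hT⟩

end Pool.Agent.LT
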