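import Pool.Agent.Helper13.LT.L0b

/-!
# Block G8: automorphisms over `M` with given restriction to `Ω`

`k₁ = F(t) ⊆ k = F(t, u) ⊆ M ⊆ C`, `Ω` the algebraic closure of `F(t)` in `C`; `F(t)` is algebraically
closed in `M`.

Proof.  `Ω / F(t)` is Galois (algebraic closure in an algebraically closed field, characteristic zero).  Every
automorphism of `C` over `k` restricts to an automorphism of `Ω` over `F(t)`.  Consider the restrictions
to `Ω` of the elements of the closed subgroup `M.fixingSubgroup`: they form a closed subgroup of the profinite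
group `Gal(Ω/F(t))` (image of a compact group under a continuous homomorphism; cf. block G11) and its fixed field is `Ω ∩ M = F(t)` (an element of `C`
fixed by `M.fixingSubgroup` is in `M`).  So by the Galois correspondence for closed subgroups it is all of
`Gal(Ω/F(t))`, in particular it contains the restriction of `τ`.

Elementary variant (no topology on `Gal(Ω/F(t))`): for every finite subset `Z` of `Ω` there is `τ'` with
`τ' = τ` on `Z` (finite Galois theory in a finite Galois extension `F(t)(Z)' / F(t)`: it is linearly disjoint from `M`), and then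
compactness of `M.fixingSubgroup`.
-/

universe u

namespace Pool.Agent.LT

open Polynomial

variable {F k C : Type u} [Field F] [CharZero F] [Field k] [Field C] [Algebra F k] [Algebra k C]
  [Algebra F C] [IsScalarTower F k C]

omit [CharZero F] in
private theorem agree_one_h12 [IsGalois k C] (t : k) (M : IntermediateField k C)
    (hM : ∀ z ∈ M, IsAlgebraic (IntermediateField.adjoin F {t}) z →
      ∃ c ∈ IntermediateField.adjoin F {t}, algebraMap k C c = z) (τ : C ≃ₐ[k] C) (w : C)
    (hw : IsAlgebraic (IntermediateField.adjoin F {t}) w) :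
    ∃ σ ∈ M.fixingSubgroup, σ w = τ w := by
  have hint : IsIntegral M w := Algebra.IsIntegral.isIntegral w
  have hintK : IsIntegral (IntermediateField.adjoin F {t}) w := hw.isIntegral
  have hc : ∀ i, ∃ c : k, algebraMap k C c = algebraMap M C ((minpoly M w).coeff i) := by
    intro i
    have h1 : IsIntegral (IntermediateField.adjoin F {t}) ((minpoly M w).coeff i) :=
      isIntegral_coeff_of_dvd (minpoly (IntermediateField.adjoin F {t}) w) (minpoly M w)
        (minpoly.monic hintK) (minpoly.monic hint)
        (minpoly.dvd_map_of_isScalarTower (IntermediateField.adjoin F {t}) M w) i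
    have h2 : IsIntegral (IntermediateField.adjoin F {t}) (algebraMap M C ((minpoly M w).coeff i)) :=
      h1.map (IsScalarTower.toAlgHom (IntermediateField.adjoin F {t}) M C)
    obtain ⟨c, -, hc⟩ := hM _ ((minpoly M w).coeff i).2 h2.isAlgebraic
    exact ⟨c, hc⟩
  choose c hc using hc
  have h0 : aeval (τ w) (minpoly M w) = 0 := by
    have h1 : aeval (τ w) (minpoly M w) = τ (aeval w (minpoly M w)) := by
      rw [aeval_eq_sum_range, aeval_eq_sum_range, map_sum]
      refine Finset.sum_congr rfl fun i _ => ?_
      rw [Algebra.smul_def, Algebra.smul_def, ← hc i, map_mul, map_pow, AlgEquiv.commutes]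
    rw [h1, minpoly.aeval, map_zero]
  have hconj : IsConjRoot M w (τ w) := isConjRoot_of_aeval_eq_zero hint h0
  have hG : IsGalois M C := inferInstance
  obtain ⟨σ, hσ⟩ := hconj.symm.exists_algEquiv
  refine ⟨σ.restrictScalars k, ?_, hσ⟩
  rw [IntermediateField.mem_fixingSubgroup_iff]
  intro x hx
  exact σ.commutes ⟨x, hx⟩

theorem exists_agree [IsAlgClosed C] [IsGalois k C] (t : k) (M : IntermediateField k C)
    (hM : ∀ z ∈ M, IsAlgebraic (IntermediateField.adjoin F {t}) z →
      ∃ c ∈ IntermediateField.adjoin F {t}, algebraMap k C c = z) (τ : C ≃ₐ[k] C) :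
    ∃ τ' ∈ M.fixingSubgroup,
      ∀ w ∈ algebraicClosure (IntermediateField.adjoin F {t}) C, τ' w = τ w := by
  classical
  have hchk : CharZero k := charZero_of_injective_algebraMap (algebraMap F k).injective
  have hch1 : CharZero (IntermediateField.adjoin F {t}) :=
    charZero_of_injective_algebraMap (algebraMap F (IntermediateField.adjoin F {t})).injective
  let ι : Type u := {E : IntermediateField (IntermediateField.adjoin F {t}) C //
    FiniteDimensional (IntermediateField.adjoin F {t}) E}
  let S : ι → Set (C ≃ₐ[k] C) := fun E => {σ | σ ∈ M.fixingSubgroup ∧ ∀ x ∈ E.1, σ x = τ x}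
  have hpt : ∀ x : C, IsClosed {σ : C ≃ₐ[k] C | σ x = τ x} := by
    intro x
    have h1 := (InfiniteGalois.fixingSubgroup_isClosed (IntermediateField.adjoin k {x})).leftCoset τ
    convert! h1 using 1
    ext σ
    rw [mem_leftCoset_iff, SetLike.mem_coe, IntermediateField.mem_fixingSubgroup_iff,
      Set.mem_ofPred_eq]
    constructor
    · intro h y hy
      have h2 : (IntermediateField.adjoin k {x}) ≤
          IntermediateField.fixedField (Subgroup.zpowers (τ⁻¹ * σ)) := by
        rw [IntermediateField.adjoin_le_iff, Set.singleton_subset_iff]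
        rw [SetLike.mem_coe, IntermediateField.mem_fixedField_iff]
        intro g hg
        obtain ⟨n, rfl⟩ := Subgroup.mem_zpowers_iff.mp hg
        have h3 : (τ⁻¹ * σ) ∈ MulAction.stabilizer (C ≃ₐ[k] C) x := by
          rw [MulAction.mem_stabilizer_iff]
          change τ⁻¹ (σ x) = x
          rw [h]
          exact τ.symm_apply_apply x
        exact MulAction.mem_stabilizer_iff.mp (Subgroup.zpow_mem _ h3 n)
      exact (IntermediateField.mem_fixedField_iff _ _).mp (h2 hy) _ (Subgroup.mem_zpowers _)
    · intro h
      have h2 := h x (IntermediateField.mem_adjoin_simple_self k x)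
      change τ.symm (σ x) = x at h2
      rw [AlgEquiv.symm_apply_eq] at h2
      exact h2
  have hclosed : ∀ E, IsClosed (S E) := by
    intro E
    have h1 : S E = (M.fixingSubgroup : Set (C ≃ₐ[k] C)) ∩
        ⋂ x ∈ E.1, {σ : C ≃ₐ[k] C | σ x = τ x} := by
      ext σ
      simp [S]
    rw [h1]
    exact (InfiniteGalois.fixingSubgroup_isClosed M).inter
      (isClosed_biInter fun x _ => hpt x)
  have hne : ∀ E, (S E).Nonempty := by
    rintro ⟨E, hE⟩
    obtain ⟨α, hα⟩ := Field.exists_primitive_element (IntermediateField.adjoin F {t}) E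
    have halg : IsAlgebraic (IntermediateField.adjoin F {t}) (α : C) := by
      have h1 : IsIntegral (IntermediateField.adjoin F {t}) α := Algebra.IsIntegral.isIntegral α
      exact (h1.map (IntermediateField.val E)).isAlgebraic
    obtain ⟨σ, hσ, hσα⟩ := agree_one_h12 t M hM τ (α : C) halg
    refine ⟨σ, hσ, fun x hx => ?_⟩
    have h1 : (⟨x, hx⟩ : E) ∈ Algebra.adjoin (IntermediateField.adjoin F {t}) {α} := by
      have h2 : (⟨x, hx⟩ : E) ∈
          IntermediateField.adjoin (IntermediateField.adjoin F {t}) {α} := by
        rw [hα]; trivial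
      have h3 := IntermediateField.adjoin_simple_toSubalgebra_of_isAlgebraic
        (F := IntermediateField.adjoin F {t}) (α := α) (Algebra.IsAlgebraic.isAlgebraic α)
      rw [← h3]
      exact h2
    rw [Algebra.adjoin_singleton_eq_range_aeval] at h1
    obtain ⟨P, hP⟩ := h1
    have h4 : x = aeval (α : C) P := by
      have h5 := congrArg (IntermediateField.val E) hP
      change IntermediateField.val E (aeval α P) = x at h5
      rw [← h5, ← Polynomial.aeval_algHom_apply]
      rfl
    have h6 : ∀ ρ : C ≃ₐ[k] C, ρ (aeval (α : C) P) = aeval (ρ α) P := by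
      intro ρ
      exact (Polynomial.aeval_algHom_apply
        ((ρ : C →ₐ[k] C).restrictScalars (IntermediateField.adjoin F {t})) (α : C) P).symm
    rw [h4, h6, h6, hσα]
  have hdir : Directed (· ⊇ ·) S := by
    rintro ⟨E, hE⟩ ⟨E', hE'⟩
    refine ⟨⟨E ⊔ E', inferInstance⟩, ?_, ?_⟩
    · rintro σ ⟨h1, h2⟩
      exact ⟨h1, fun x hx => h2 x ((le_sup_left : E ≤ E ⊔ E') hx)⟩
    · rintro σ ⟨h1, h2⟩
      exact ⟨h1, fun x hx => h2 x ((le_sup_right : E' ≤ E ⊔ E') hx)⟩
  have hne' : Nonempty ι := ⟨⟨⊥, inferInstance⟩⟩
  obtain ⟨τ', hτ'⟩ := IsCompact.nonempty_iInter_of_directed_nonempty_isCompact_isClosed S hdir hne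
    (fun E => (hclosed E).isCompact) hclosed
  rw [Set.mem_iInter] at hτ'
  refine ⟨τ', (hτ' hne'.some).1, fun w hw => ?_⟩
  rw [mem_algebraicClosure_iff] at hw
  have hfd : FiniteDimensional (IntermediateField.adjoin F {t})
      (IntermediateField.adjoin (IntermediateField.adjoin F {t}) {w}) :=
    IntermediateField.adjoin.finiteDimensional hw.isIntegral
  exact (hτ' ⟨_, hfd⟩).2 w (IntermediateField.mem_adjoin_simple_self _ w)

end Pool.Agent.LT
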