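import Pool.Agent.Helper13.LG.Core
import Pool.Agent.Helper13.LG.G6
import Pool.Agent.Helper13.LG.G8

/-!
# From good coordinates to good twists
-/

universe u

namespace Pool.Agent.LT

open VC Polynomial Pool.Agent.SC Pool.Agent.Helper91.Sect

section Coord

variable {F k : Type u} [Field F] [Field k] [Algebra F k]

theorem algInd_of {t u : k} (hu : Transcendental F u)
    (ht : Transcendental (IntermediateField.adjoin F {u}) t) :
    AlgebraicIndependent F ![t, u] := by
  have h1 : AlgebraicIndependent F ![u] := (algebraicIndependent_unique_type_iff).2 hu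
  have h2 : Transcendental (Algebra.adjoin F (Set.range ![u])) t := by
    have h3 : Set.range ![u] = {u} := by simp
    rw [h3]
    exact IntermediateField.transcendental_adjoin_iff.1 ht
  have h4 := (h1.option_iff_transcendental t).2 h2
  have h5 := h4.comp (![none, some 0] : Fin 2 → Option (Fin 1))
    (by
      intro i j h
      fin_cases i <;> fin_cases j <;> simp_all)
  convert h5 using 1
  ext i
  fin_cases i <;> rfl

theorem mem_affine {t u : k} (a b : F) :
    t - algebraMap F k a * u - algebraMap F k b ∈ IntermediateField.adjoin F {t, u} := by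
  have ht : t ∈ IntermediateField.adjoin F {t, u} :=
    IntermediateField.subset_adjoin _ _ (Or.inl rfl)
  have hu : u ∈ IntermediateField.adjoin F {t, u} :=
    IntermediateField.subset_adjoin _ _ (Or.inr rfl)
  exact sub_mem (sub_mem ht (mul_mem (IntermediateField.algebraMap_mem _ _) hu))
    (IntermediateField.algebraMap_mem _ _)

theorem k0_affine {t u : k} (a b : F) :
    k0 F (t - algebraMap F k a * u - algebraMap F k b) u = k0 F t u := by
  apply le_antisymm
  · refine IntermediateField.adjoin_le_iff.2 ?_
    rintro z (hz | hz)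
    · rw [hz]; exact mem_affine a b
    · rw [Set.mem_singleton_iff.1 hz]
      exact IntermediateField.subset_adjoin _ _ (Or.inr rfl)
  · refine IntermediateField.adjoin_le_iff.2 ?_
    have ht : t - algebraMap F k a * u - algebraMap F k b ∈
        k0 F (t - algebraMap F k a * u - algebraMap F k b) u :=
      IntermediateField.subset_adjoin _ _ (Or.inl rfl)
    have hu : u ∈ k0 F (t - algebraMap F k a * u - algebraMap F k b) u :=
      IntermediateField.subset_adjoin _ _ (Or.inr rfl)
    rintro z (hz | hz)
    · rw [hz]
      have h1 : t = t - algebraMap F k a * u - algebraMap F k b + algebraMap F k b +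
        algebraMap F k a * u := by ring
      rw [h1]
      refine add_mem (add_mem ?_ (IntermediateField.algebraMap_mem _ _))
        (mul_mem (IntermediateField.algebraMap_mem _ _) ?_)
      · rw [← h1]; exact ht
      · rw [← h1]; exact hu
    · rw [Set.mem_singleton_iff.1 hz]; exact hu

theorem adjoin_affine {v : k} (b : F) :
    IntermediateField.adjoin F {v - algebraMap F k b} = IntermediateField.adjoin F {v} := by
  apply le_antisymm
  · rw [IntermediateField.adjoin_simple_le_iff]
    exact sub_mem (IntermediateField.mem_adjoin_simple_self _ _)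
      (IntermediateField.algebraMap_mem _ _)
  · rw [IntermediateField.adjoin_simple_le_iff]
    have h1 : v = v - algebraMap F k b + algebraMap F k b := by ring
    have h2 : v - algebraMap F k b + algebraMap F k b ∈
        IntermediateField.adjoin F {v - algebraMap F k b} :=
      add_mem (IntermediateField.mem_adjoin_simple_self _ _)
        (IntermediateField.algebraMap_mem _ _)
    rwa [← h1] at h2

theorem algInd_affine {t u : k} (htu : AlgebraicIndependent F ![t, u]) (a b : F) :
    AlgebraicIndependent F ![t - algebraMap F k a * u - algebraMap F k b, u] := by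
  refine algInd_of (transc_F_u htu) fun h => transc_t htu ?_
  have hu : u ∈ IntermediateField.adjoin F {u} := IntermediateField.mem_adjoin_simple_self _ _
  have h1 : IsAlgebraic (IntermediateField.adjoin F {u})
      (algebraMap (IntermediateField.adjoin F {u}) k
        (algebraMap F _ a * ⟨u, hu⟩ + algebraMap F _ b)) := isAlgebraic_algebraMap _
  have h2 := h.add h1
  have h3 : algebraMap (IntermediateField.adjoin F {u}) k
      (algebraMap F _ a * ⟨u, hu⟩ + algebraMap F _ b) =
      algebraMap F k a * u + algebraMap F k b := rfl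
  have h4 : t - algebraMap F k a * u - algebraMap F k b +
      (algebraMap F k a * u + algebraMap F k b) = t := by ring
  rw [h3, h4] at h2
  exact h2

end Coord

/-- The twist by `v` of the curve `c yⁿ = f(x)` satisfies the section conjecture: for every `j` not
divisible by `n`, every section of the curve `v ^ j c yⁿ = f(x)` over `k` is geometric. -/
def GoodTwist {k : Type u} [Field k] (n : ℕ) (f : k[X]) (c v : k) : Prop :=
  ∀ j : ℕ, ¬ n ∣ j → ∀ (K : Type u) [Field K] [Algebra k K] (x y : K), Transcendental k x →
    IntermediateField.adjoin k {x, y} = ⊤ →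
    algebraMap k K (v ^ j * c) * y ^ n = aeval x f →
    ∀ s : GaloisSection k K, IsGeometric s

/-- From good coordinates to good twists. -/
theorem goodTwist_of_coord {F k : Type u} [Field F] [CharZero F] [Field k] [Algebra F k]
    [DecidableEq k]
    (hF : ∃ S : Finset F, Subfield.closure (S : Set F) = ⊤)
    {t u : k} (htu : AlgebraicIndependent F ![t, u]) (hfin : FiniteDimensional (k0 F t u) k)
    {n : ℕ} {f : k[X]} {c : k}
    (hn : 2 ≤ n) (hdeg : 3 ≤ f.natDegree) (hs : f.Separable) (hc : c ≠ 0)
    {D : F[X][X]} {a b : F} {Δ : F[X][X]} {N : ℕ} (hΔ : GoodDisc Δ)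
    (hdvd : shear a b D ∣ Δ ^ N)
    (hreg : ∀ z : k, IsAlgebraic (IntermediateField.adjoin F {t - algebraMap F k a * u}) z →
      z ∈ IntermediateField.adjoin F {t - algebraMap F k a * u})
    (hD : ∀ (K : Type u) [Field K] [Algebra k K] (W : ValuationSubring (kbar k K)),
      (∀ c : F, algebraMap k (kbar k K) (algebraMap F k c) ∈ W) →
      algebraMap k (kbar k K) t ∈ W → algebraMap k (kbar k K) u ∈ W →
      algebraMap k (kbar k K) (ev F t u D) ∉ W.nonunits →
      (∀ a ∈ goodElts f c, algebraMap k (kbar k K) a ∈ W) ∧
        ∀ τ : kbar k K ≃+* kbar k K,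
          (∀ r ∈ k0 F t u, τ (algebraMap k (kbar k K) r) = algebraMap k (kbar k K) r) →
          (∀ z, τ z ∈ W ↔ z ∈ W) → (∀ z ∈ W, τ z - z ∈ W.nonunits) →
          ∀ a : k, τ (algebraMap k (kbar k K) a) = algebraMap k (kbar k K) a) :
    GoodTwist n f c (t - algebraMap F k a * u - algebraMap F k b) := by
  intro j hj K _ _ x y hx hgen heq s
  obtain ⟨q, hq⟩ := hdvd
  set t' := t - algebraMap F k a * u - algebraMap F k b with ht'
  have htu' : AlgebraicIndependent F ![t', u] := algInd_affine htu a b
  have hk0 : k0 F t' u = k0 F t u := k0_affine a b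
  have hfin' : FiniteDimensional (k0 F t' u) k := by rw [hk0]; exact hfin
  let iFK : Algebra F K := ((algebraMap k K).comp (algebraMap F k)).toAlgebra
  have sFK : IsScalarTower F k K := IsScalarTower.of_algebraMap_eq fun _ => rfl
  have hgal := isGalois0 (K := K) hfin'
  refine isGeometric_core hF htu' hfin' hn hj hdeg hs hc hΔ ?_ ?_ hx hgen heq s
  · intro W hFW htW huW hunit
    have htW' : algebraMap k (kbar k K) t ∈ W := by
      have h1 : t = t' + algebraMap F k a * u + algebraMap F k b := by rw [ht']; ring
      rw [h1, map_add, map_add, map_mul]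
      exact W.add_mem _ _ (W.add_mem _ _ htW (W.mul_mem _ _ (hFW a) huW)) (hFW b)
    have hunit' : algebraMap k (kbar k K) (ev F t u D) ∉ W.nonunits := by
      rw [← ev_shear t u a b D]
      have h2 : algebraMap k (kbar k K) (ev F t' u (shear a b D * q)) ∉ W.nonunits := by
        rw [← hq, map_pow, map_pow]
        exact pow_notMem_nonunits hunit N
      rw [map_mul, map_mul] at h2
      exact (notMem_nonunits_of_mul (ev_mem hFW htW huW _) (ev_mem hFW htW huW _) h2).1
    obtain ⟨h4, h5⟩ := hD K W hFW htW' huW hunit'
    refine ⟨h4, fun τ hτ => h5 τ.toRingEquiv (fun r hr => ?_) hτ.1 hτ.2⟩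
    have h6 : r ∈ k0 F t' u := by rw [hk0]; exact hr
    exact τ.commutes ⟨r, h6⟩
  · intro τ
    refine exists_agree (t0 F t' u) (kM F K t' u) ?_ τ
    rintro z ⟨r, rfl⟩ hz
    have h1 : IsAlgebraic (IntermediateField.adjoin F {t'}) r := by
      have h2 : IsAlgebraic (IntermediateField.adjoin F {t'}) (algebraMap k (kbar k K) r) := by
        refine isAlgebraic_of_range_le (A := IntermediateField.adjoin F {t0 F t' u}) (fun v => ?_) hz
        exact ⟨⟨_, coe_mem_adjoin0 (F := F) (t := t') (u := u) (v := t') (v' := t0 F t' u) rfl v.2⟩,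
          rfl⟩
      exact (isAlgebraic_algebraMap_iff (algebraMap k (kbar k K)).injective).1 h2
    have h3 : r ∈ IntermediateField.adjoin F {t'} := by
      have h4 := hreg r
      rw [← adjoin_affine (v := t - algebraMap F k a * u) b] at h4
      exact h4 h1
    obtain ⟨c', hc', hc''⟩ := mem_adjoin0 (F := F) (t := t') (u := u) (v := t')
      (v' := t0 F t' u) rfl h3
    refine ⟨c', hc'', ?_⟩
    rw [← hc']
    rfl

end Pool.Agent.LT
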