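import Mathlib

/-!
# Block G10: the base field `F`

Proof.  Extend `{t, u}` to a transcendence basis `{t, u} ∪ B'` of `k / ℚ`; it is finite because `k` is finitely
generated.  Let `F₀ = ℚ(B')` and `F` the algebraic closure of `F₀` in `k` (as a subfield).  `t, u` are algebraically
independent over `F₀`, hence over `F`.  `k / F₀(t, u)` is algebraic and finitely generated, so finite; so
`k / F(t, u)` is finite.  `F / F₀` is finite: elements of `F` which are linearly independent over `F₀` are linearly
independent over `F₀(t, u)` (`t, u` are algebraically independent over `F ⊇ F₀`), so `[F : F₀] ≤ [k : F₀(t, u)]`.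
So `F` is finitely generated.
-/

universe u

namespace Pool.Agent.LT

/-- Elements algebraic over `E` and linearly independent over `E` stay linearly independent over `E[x]` if
`x` is algebraically independent. -/
theorem linearIndependent_adjoin_of_algebraicIndependent {E k ι κ : Type*} [Field E] [Field k] [Algebra E k]
    (F : IntermediateField E k) {x : κ → k} (hx : AlgebraicIndependent F x) (b : ι → F)
    (hb : LinearIndependent E b) :
    LinearIndependent (Algebra.adjoin E (Set.range x)) (fun i => (b i : k)) := by
  rw [linearIndependent_iff']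
  intro s g hg
  have hp : ∀ i, ∃ p : MvPolynomial κ E, MvPolynomial.aeval x p = (g i : k) := by
    intro i
    have h : (g i : k) ∈ (MvPolynomial.aeval (R := E) x).range := by
      rw [← Algebra.adjoin_range_eq_range_aeval]
      exact (g i).2
    obtain ⟨p, hp⟩ := h
    exact ⟨p, hp⟩
  choose p hp using hp
  have h1 : MvPolynomial.aeval x (∑ i ∈ s, (MvPolynomial.map (algebraMap E F) (p i)) *
      MvPolynomial.C (b i)) = 0 := by
    rw [map_sum, ← hg]
    refine Finset.sum_congr rfl fun i _ => ?_
    rw [map_mul, MvPolynomial.aeval_C, MvPolynomial.aeval_map_algebraMap, hp i]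
    rfl
  have h2 := hx.eq_zero_of_aeval_eq_zero _ h1
  intro i hi
  have h3 : p i = 0 := by
    ext m
    have h4 := congrArg (MvPolynomial.coeff m) h2
    rw [MvPolynomial.coeff_sum] at h4
    have h5 : ∑ j ∈ s, (MvPolynomial.coeff m (p j)) • b j = 0 := by
      rw [← MvPolynomial.coeff_zero (R := F) m, ← h4]
      refine Finset.sum_congr rfl fun j _ => ?_
      rw [mul_comm, MvPolynomial.coeff_C_mul, MvPolynomial.coeff_map, Algebra.smul_def, mul_comm]
    exact (linearIndependent_iff'.1 hb) s _ h5 i hi
  apply Subtype.ext
  rw [← hp i, h3]
  simp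

open scoped IntermediateField.algebraAdjoinAdjoin in
/-- A relative algebraic closure is finite if the top is finite over a purely transcendental extension. -/
theorem finite_of_finite_adjoin {E k κ : Type*} [Field E] [Field k] [Algebra E k]
    (F : IntermediateField E k) {x : κ → k} (hx : AlgebraicIndependent F x)
    [hfin : FiniteDimensional (IntermediateField.adjoin E (Set.range x)) k] :
    FiniteDimensional E F := by
  have hb := linearIndependent_adjoin_of_algebraicIndependent F hx _
    (Module.Basis.ofVectorSpace E F).linearIndependent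
  have hb' : LinearIndependent (IntermediateField.adjoin E (Set.range x))
      (fun i => ((Module.Basis.ofVectorSpace E F i : F) : k)) :=
    (LinearIndependent.iff_fractionRing _ _).1 hb
  have := hb'.finite
  exact Module.Finite.of_basis (Module.Basis.ofVectorSpace E F)

theorem exists_base_field {k : Type u} [Field k] [CharZero k]
    (hk : ∃ S : Finset k, Subfield.closure (S : Set k) = ⊤) {t u : k}
    (htu : AlgebraicIndependent ℚ ![t, u]) :
    ∃ F : Subfield k, (∃ S : Finset F, Subfield.closure (S : Set F) = ⊤) ∧
      (∀ z : k, IsAlgebraic F z → z ∈ F) ∧ AlgebraicIndependent F ![t, u] ∧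
      FiniteDimensional (IntermediateField.adjoin F {t, u}) k := by
  have hrange : Set.range ![t, u] = {t, u} := by
    simp only [Matrix.range_cons, Matrix.range_empty, Set.union_empty, Set.singleton_union]
  -- `k` is essentially of finite type over `ℚ`
  have hess : Algebra.EssFiniteType ℚ k := by
    obtain ⟨S, hS⟩ := hk
    rw [← IntermediateField.fg_top_iff]
    refine ⟨S, ?_⟩
    rw [eq_top_iff]
    intro z _
    have hz : z ∈ Subfield.closure (S : Set k) := by rw [hS]; trivial
    exact (Subfield.closure_le (t := (IntermediateField.adjoin ℚ (S : Set k)).toSubfield)).2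
      (IntermediateField.subset_adjoin ℚ (S : Set k)) hz
  set L := IntermediateField.adjoin ℚ ({t, u} : Set k) with hL
  have hessL : Algebra.EssFiniteType L k := Algebra.EssFiniteType.of_comp ℚ L k
  obtain ⟨s, hs⟩ := exists_finset_isTranscendenceBasis L k
  set E₀ := IntermediateField.adjoin ℚ (s : Set k) with hE₀
  have hind : AlgebraicIndependent E₀ ![t, u] := by
    have h1 : AlgebraicIndependent (Algebra.adjoin ℚ (Set.range ![t, u])) ((↑) : s → k) := by
      rw [hrange]
      exact IntermediateField.algebraicIndependent_adjoin_iff.1 hs.1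
    have h2 := htu.sumElim h1
    have h3 : AlgebraicIndependent ℚ (Sum.elim ![t, u] ((↑) : s → k)) := by
      refine (algebraicIndependent_equiv' (Equiv.sumComm _ _) ?_).1 h2
      ext i
      rcases i with i | i <;> rfl
    have h4 := (AlgebraicIndependent.sumElim_iff.1 h3).2
    have h5 : Set.range ((↑) : s → k) = (s : Set k) := by
      ext z; simp
    rw [h5] at h4
    exact IntermediateField.algebraicIndependent_adjoin_iff.2 h4
  have hindF := hind.algebraicClosure
  -- `k` is algebraic over every subfield containing `t`, `u`, `s`
  have halg : ∀ (M : Subfield k), t ∈ M → u ∈ M → (s : Set k) ⊆ M → Algebra.IsAlgebraic M k := by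
    intro M ht hu hsM
    have h1 : Algebra.IsAlgebraic (Algebra.adjoin L (Set.range ((↑) : s → k))) k := hs.isAlgebraic
    have h5 : Set.range ((↑) : s → k) = (s : Set k) := by
      ext z; simp
    rw [h5] at h1
    have hLM : L.toSubfield ≤ M := by
      have : L ≤ (Subfield.toIntermediateField M (fun x => by simp)) := by
        rw [hL, IntermediateField.adjoin_le_iff]
        intro z hz
        rcases hz with rfl | hz
        · exact ht
        · rw [Set.mem_singleton_iff.1 hz]
          exact hu
      exact this
    have hAM : ∀ z ∈ Algebra.adjoin L (s : Set k), z ∈ M := by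
      intro z hz
      induction hz using Algebra.adjoin_induction with
      | mem x hx => exact hsM hx
      | algebraMap r => exact hLM r.2
      | add x y _ _ hx hy => exact M.add_mem hx hy
      | mul x y _ _ hx hy => exact M.mul_mem hx hy
    refine ⟨fun z => ?_⟩
    obtain ⟨p, hp0, hp⟩ := h1.isAlgebraic z
    let f : Algebra.adjoin L (s : Set k) →+* M :=
      { toFun := fun z => ⟨z, hAM z z.2⟩
        map_one' := rfl
        map_mul' := fun _ _ => rfl
        map_zero' := rfl
        map_add' := fun _ _ => rfl }
    have hf : Function.Injective f := by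
      intro a b hab
      exact Subtype.ext (congrArg (fun z : M => (z : k)) hab)
    refine ⟨p.map f, ?_, ?_⟩
    · rw [Ne, Polynomial.map_eq_zero_iff hf]
      exact hp0
    · rw [Polynomial.aeval_def, Polynomial.eval₂_map]
      rw [Polynomial.aeval_def] at hp
      exact hp
  have hfin1 : FiniteDimensional (IntermediateField.adjoin E₀ (Set.range ![t, u])) k := by
    have h1 : Algebra.IsAlgebraic (IntermediateField.adjoin E₀ (Set.range ![t, u])) k := by
      refine halg (IntermediateField.adjoin E₀ (Set.range ![t, u])).toSubfield ?_ ?_ ?_
      · exact IntermediateField.subset_adjoin _ _ ⟨0, rfl⟩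
      · exact IntermediateField.subset_adjoin _ _ ⟨1, rfl⟩
      · intro z hz
        exact (IntermediateField.adjoin E₀ (Set.range ![t, u])).algebraMap_mem
          ⟨z, IntermediateField.subset_adjoin ℚ _ hz⟩
    have h2 : Algebra.EssFiniteType (IntermediateField.adjoin E₀ (Set.range ![t, u])) k :=
      Algebra.EssFiniteType.of_comp ℚ _ k
    exact Algebra.finite_of_essFiniteType_of_isAlgebraic
  have hfinF : FiniteDimensional E₀ (algebraicClosure E₀ k) := finite_of_finite_adjoin _ hindF
  refine ⟨(algebraicClosure E₀ k).toSubfield, ?_, ?_, hindF, ?_⟩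
  · classical
    set F := (algebraicClosure E₀ k).toSubfield with hF
    have : Module.Free E₀ (algebraicClosure E₀ k) := Module.Free.of_divisionRing _ _
    set b := Module.finBasis E₀ (algebraicClosure E₀ k) with hb
    have hsF : ∀ z ∈ s, z ∈ F := fun z hz =>
      (algebraicClosure E₀ k).algebraMap_mem ⟨z, IntermediateField.subset_adjoin ℚ _ hz⟩
    refine ⟨s.attach.image (fun z : s => (⟨(z : k), hsF z z.2⟩ : F)) ∪ Finset.univ.image (fun i => (b i : F)),
      ?_⟩
    rw [eq_top_iff]
    intro z _
    set C := Subfield.closure (((s.attach.image (fun z : s => (⟨(z : k), hsF z z.2⟩ : F)) ∪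
      Finset.univ.image (fun i => (b i : F)) : Finset F)) : Set F) with hC
    have hE : ∀ w ∈ E₀, ∀ hw : w ∈ F, (⟨w, hw⟩ : F) ∈ C := by
      have : E₀ ≤ (Subfield.toIntermediateField (C.map F.subtype) (fun x => by simp)) := by
        rw [hE₀, IntermediateField.adjoin_le_iff]
        intro w hw
        refine ⟨⟨w, hsF w hw⟩, Subfield.subset_closure ?_, rfl⟩
        rw [Finset.coe_union]
        left
        rw [Finset.mem_coe, Finset.mem_image]
        exact ⟨⟨w, hw⟩, Finset.mem_attach _ _, rfl⟩
      intro w hw hwF
      obtain ⟨w', hw', hw2⟩ := this hw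
      have : w' = ⟨w, hwF⟩ := Subtype.ext hw2
      rw [← this]
      exact hw'
    have hz := b.sum_repr z
    have hz' : z = ∑ i, (⟨(b.repr z i : k), (algebraicClosure E₀ k).algebraMap_mem (b.repr z i)⟩ : F) *
        (b i : F) := by
      exact hz.symm
    rw [hz']
    refine C.sum_mem fun i _ => C.mul_mem (hE _ (b.repr z i).2 _) (Subfield.subset_closure ?_)
    rw [Finset.coe_union]
    right
    rw [Finset.mem_coe, Finset.mem_image]
    exact ⟨i, Finset.mem_univ _, rfl⟩
  · intro z hz
    have h1 : IsAlgebraic (algebraicClosure E₀ k) z := hz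
    have h2 : IsAlgebraic E₀ z := h1.restrictScalars E₀
    exact mem_algebraicClosure_iff.2 h2
  · have h1 : Algebra.IsAlgebraic (IntermediateField.adjoin (algebraicClosure E₀ k).toSubfield {t, u}) k := by
      refine halg (IntermediateField.adjoin (algebraicClosure E₀ k).toSubfield {t, u}).toSubfield ?_ ?_ ?_
      · exact IntermediateField.subset_adjoin _ _ (by simp)
      · exact IntermediateField.subset_adjoin _ _ (by simp)
      · intro z hz
        exact (IntermediateField.adjoin (algebraicClosure E₀ k).toSubfield {t, u}).algebraMap_mem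
          ⟨z, (algebraicClosure E₀ k).algebraMap_mem ⟨z, IntermediateField.subset_adjoin ℚ _ hz⟩⟩
    have h2 : Algebra.EssFiniteType
        (IntermediateField.adjoin (algebraicClosure E₀ k).toSubfield {t, u}) k :=
      Algebra.EssFiniteType.of_comp ℚ _ k
    exact Algebra.finite_of_essFiniteType_of_isAlgebraic

end Pool.Agent.LT
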