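import Pool.Agent.SC.H1
import Pool.Agent.SC.DefsP

/-!
# Block G3: residue fields of places of finite extensions of `k₁(t)` are finitely generated

Proof.  `k₀ = k₁(t)` (an intermediate field of `k / k₁`), `O₀ = W ∩ k₀`, `O = W ∩ k`.  By
`SC.H1.resid_fg` (with `k := k₀`, `Q := cen k₀ W`, `above_cen`, `comap_ne_top`) the residue field `κ₀` of `O₀` is
finitely generated.  The residue field `κ` of `O` is a finite extension of `κ₀` (elements of `O` with residues
linearly independent over `κ₀` are linearly independent over `k₀`: scale a relation by a coefficient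
of maximal value; or the library: `FL.finite_resField` with `L` = the image of `k` in `C`).  So `κ` is generated by the
generators of `κ₀` and a basis of `κ / κ₀`.
-/

universe u

namespace Pool.Agent.LT

open Polynomial Pool.Agent.SC

theorem resid_fg_gen {k₁ k C : Type u} [Field k₁] [CharZero k₁] [Field k] [Field C]
    [Algebra k₁ k] [Algebra k C] [Algebra k₁ C] [IsScalarTower k₁ k C] [IsAlgClosed C]
    [IsGalois k C] (hfg : ∃ S : Finset k₁, Subfield.closure (S : Set k₁) = ⊤) (t : k)
    (hfin : FiniteDimensional (IntermediateField.adjoin k₁ {t}) k) {W : ValuationSubring C}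
    (hW : W ≠ ⊤) (hk₁ : ∀ c : k₁, algebraMap k₁ C c ∈ W) :
    ∃ S : Finset (IsLocalRing.ResidueField (W.comap (algebraMap k C))),
      Subfield.closure (S : Set (IsLocalRing.ResidueField (W.comap (algebraMap k C)))) = ⊤ := by
  classical
  let k₀ := IntermediateField.adjoin k₁ {t}
  have hfin' : FiniteDimensional k₀ k := hfin
  have hc1 : CharZero k₀ := charZero_of_injective_algebraMap (algebraMap k₁ k₀).injective
  have halg0 : Algebra.IsAlgebraic k₀ C := Algebra.IsAlgebraic.trans k₀ k C
  have hacl : IsAlgClosure k₀ C := ⟨inferInstance, halg0⟩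
  have hgal : IsGalois k₀ C := IsAlgClosure.isGalois k₀ C
  have hst : IsScalarTower k₁ k₀ C := IsScalarTower.of_algebraMap_eq fun c => by
    rw [IsScalarTower.algebraMap_apply k₁ k C]
    rfl
  let O₀ : ValuationSubring k₀ := W.comap (algebraMap k₀ C)
  let O : ValuationSubring k := W.comap (algebraMap k C)
  have hFO : ∀ a : k₁, algebraMap k₁ k₀ a ∈ O₀ := fun a => by
    rw [ValuationSubring.mem_comap, ← IsScalarTower.algebraMap_apply]
    exact hk₁ a
  let t₀ : k₀ := ⟨t, IntermediateField.mem_adjoin_simple_self k₁ t⟩
  have htop : IntermediateField.adjoin k₁ {t₀} = ⊤ := by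
    apply IntermediateField.map_injective k₀.val
    rw [IntermediateField.adjoin_map, ← AlgHom.fieldRange_eq_map, IntermediateField.fieldRange_val,
      Set.image_singleton]
    rfl
  obtain ⟨S₀, hS₀⟩ := H1.resid_fg (O := O₀) hFO (H1.cen k₀ W) (H1.above_cen W) hfg t₀ htop
    (H1.comap_ne_top hW)
  -- the map of the residue fields
  let f : O₀ →+* O := ((algebraMap k₀ k).comp O₀.subtype).codRestrict O.toSubring (fun c => c.2)
  have hfc : ∀ a : O₀, ((f a : O) : k) = ((a : k₀) : k) := fun _ => rfl
  have hloc : IsLocalHom f := ⟨fun a ha => by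
    obtain ⟨u, hu⟩ := ha
    have h1 : ((u : O) : k) * ((u⁻¹ : Oˣ) : O) = 1 := by
      have := congrArg (fun x : O => (x : k)) (Units.mul_inv u)
      exact this
    rw [hu, hfc] at h1
    have ha0 : (a : k₀) ≠ 0 := by
      intro h0
      rw [h0] at h1
      change (0 : k) * _ = 1 at h1
      rw [zero_mul] at h1
      exact zero_ne_one h1
    have h2 : (((u⁻¹ : Oˣ) : O) : k) = (((a : k₀)⁻¹ : k₀) : k) := by
      have h3 : (((a : k₀)⁻¹ : k₀) : k) = ((a : k₀) : k)⁻¹ := rfl
      rw [h3]
      exact eq_inv_of_mul_eq_one_right h1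
    have h3 : (a : k₀)⁻¹ ∈ O₀ := by
      have h4 := ((u⁻¹ : Oˣ) : O).2
      rw [h2] at h4
      exact h4
    exact ⟨⟨a, ⟨_, h3⟩, Subtype.ext (mul_inv_cancel₀ ha0), Subtype.ext (inv_mul_cancel₀ ha0)⟩,
      rfl⟩⟩
  let ι : IsLocalRing.ResidueField O₀ →+* IsLocalRing.ResidueField O :=
    IsLocalRing.ResidueField.map f
  let _ : Algebra (IsLocalRing.ResidueField O₀) (IsLocalRing.ResidueField O) := ι.toAlgebra
  have hι : ∀ a : O₀, algebraMap (IsLocalRing.ResidueField O₀) (IsLocalRing.ResidueField O)
      (IsLocalRing.residue O₀ a) = IsLocalRing.residue O (f a) :=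
    fun a => IsLocalRing.ResidueField.map_residue f a
  -- the residue field is finite
  have hfinite : Module.Finite (IsLocalRing.ResidueField O₀) (IsLocalRing.ResidueField O) := by
    have hrank : Module.rank (IsLocalRing.ResidueField O₀) (IsLocalRing.ResidueField O) ≤
        (Module.finrank k₀ k : ℕ) := by
      refine rank_le fun s hs => ?_
      have hlift : ∀ z : s, ∃ c : O, IsLocalRing.residue O c = z :=
        fun z => IsLocalRing.residue_surjective _
      choose c hc using hlift
      have hli : LinearIndependent k₀ (fun z : s => (c z : k)) := by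
        rw [Fintype.linearIndependent_iff]
        intro g hg
        by_contra hcon
        push Not at hcon
        obtain ⟨i0, hi0⟩ := hcon
        have hne : (Finset.univ : Finset s).Nonempty := ⟨i0, Finset.mem_univ _⟩
        obtain ⟨j, -, hj⟩ := Finset.exists_max_image Finset.univ
          (fun i => O₀.valuation (g i)) hne
        have hgj : g j ≠ 0 := by
          intro h0
          have h1 := hj i0 (Finset.mem_univ _)
          rw [h0, map_zero] at h1
          exact hi0 (by simpa using h1)
        have hgO : ∀ i, g i / g j ∈ O₀ := by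
          intro i
          rw [← O₀.valuation_le_one_iff, map_div₀]
          have h1 : O₀.valuation (g j) ≠ 0 := by simpa using hgj
          exact (div_le_one₀ (zero_lt_iff.2 h1)).2 (hj i (Finset.mem_univ _))
        have hsum : ∑ i, f ⟨g i / g j, hgO i⟩ * c i = 0 := by
          apply Subtype.ext
          have h1 : ((∑ i, f ⟨g i / g j, hgO i⟩ * c i : O) : k) =
              ∑ i, ((g i / g j : k₀) : k) * (c i : k) := by
            rw [← ValuationSubring.subtype_apply, map_sum]
            rfl
          rw [h1]
          have h2 : ∀ i, ((g i / g j : k₀) : k) * (c i : k) =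
              ((g j : k₀) : k)⁻¹ * (g i • (c i : k)) := by
            intro i
            have h3 : ((g i / g j : k₀) : k) = ((g i : k₀) : k) / ((g j : k₀) : k) := rfl
            have h4 : g i • (c i : k) = ((g i : k₀) : k) * (c i : k) := rfl
            rw [h3, h4]
            ring
          rw [Finset.sum_congr rfl fun i _ => h2 i, ← Finset.mul_sum, hg, mul_zero]
          rfl
        have hsum' : ∑ i : s, (IsLocalRing.residue O₀ ⟨g i / g j, hgO i⟩) •
            (i : IsLocalRing.ResidueField O) = 0 := by
          have h1 := congrArg (IsLocalRing.residue O) hsum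
          rw [map_sum, map_zero] at h1
          rw [← h1]
          refine Finset.sum_congr rfl fun i _ => ?_
          rw [Algebra.smul_def, hι, map_mul, hc]
        have h5 := Fintype.linearIndependent_iff.1 hs _ hsum' j
        have h6 : (⟨g j / g j, hgO j⟩ : O₀) = 1 := Subtype.ext (div_self hgj)
        rw [h6, map_one] at h5
        exact one_ne_zero h5
      have h7 := hli.fintype_card_le_finrank
      rwa [Fintype.card_coe] at h7
    exact Module.rank_lt_aleph0_iff.1 (hrank.trans_lt (Cardinal.natCast_lt_aleph0))
  obtain ⟨B, hB⟩ := hfinite.fg_top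
  refine ⟨S₀.image ι ∪ B, ?_⟩
  set T := Subfield.closure ((S₀.image ι ∪ B : Finset (IsLocalRing.ResidueField O)) :
    Set (IsLocalRing.ResidueField O)) with hT
  have hgT : ∀ b, ι b ∈ T := by
    have h1 : Subfield.closure (S₀ : Set (IsLocalRing.ResidueField O₀)) ≤ T.comap ι := by
      rw [Subfield.closure_le]
      intro b hb
      refine Subfield.subset_closure ?_
      rw [Finset.coe_union]
      left
      rw [Finset.coe_image]
      exact ⟨b, hb, rfl⟩
    rw [hS₀] at h1
    intro b
    exact h1 (Subfield.mem_top b)
  rw [eq_top_iff]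
  intro x _
  have hx : x ∈ Submodule.span (IsLocalRing.ResidueField O₀)
      (B : Set (IsLocalRing.ResidueField O)) := by
    rw [hB]
    trivial
  refine Submodule.span_induction (p := fun x _ => x ∈ T) ?_ ?_ ?_ ?_ hx
  · intro y hy
    refine Subfield.subset_closure ?_
    rw [Finset.coe_union]
    exact Or.inr hy
  · exact T.zero_mem
  · intro y z _ _ hy hz
    exact T.add_mem hy hz
  · intro a y _ hy
    rw [Algebra.smul_def]
    exact T.mul_mem (hgT a) hy

end Pool.Agent.LT
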