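import Pool.Agent.Helper13.LG.G3
import Pool.Agent.Helper13.LT.F1

/-!
# The action of the decomposition group of a place, for finite extensions `k` of `k₁(t)`

Copies of `exists_base` and `locAct` (`LT/F1.lean`, helper6) with the weaker hypothesis `hfin`.
-/

universe u

namespace Pool.Agent.LT

open VC Polynomial Pool.Agent.SC Pool.Agent.Helper91.Sect

variable {k₁ k K : Type u} [Field k₁] [CharZero k₁] [Field k] [Field K] [Algebra k₁ k]
  [Algebra k K] [Algebra k₁ K] [IsScalarTower k₁ k K]

/-- The residue field of `W` is the algebraic closure of `k₁`. -/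
theorem exists_base' (t : k) (hfin : FiniteDimensional (IntermediateField.adjoin k₁ {t}) k)
    {W : ValuationSubring (kbar k K)} (hW : W ≠ ⊤)
    (hk₁ : ∀ c : k₁, algebraMap k₁ (kbar k K) c ∈ W) :
    ∃ t' : kbar k K, Base (algebraicClosure k₁ (kbar k K)) W t' := by
  have hchar : CharZero k := charZero_of_injective_algebraMap (algebraMap k₁ k).injective
  -- elements algebraic over `k₁` lie in `W`
  have halg : ∀ z : kbar k K, IsAlgebraic k₁ z → z ∈ W := by
    intro z hz
    obtain ⟨p, hp, hp0⟩ := hz.isIntegral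
    let f : k₁ →+* W := (algebraMap k₁ (kbar k K)).codRestrict W.toSubring hk₁
    have h2 : IsIntegral W z := by
      refine ⟨p.map f, hp.map f, ?_⟩
      rw [Polynomial.eval₂_map]
      exact hp0
    obtain ⟨w, hw⟩ := IsIntegrallyClosed.algebraMap_eq_of_integral h2
    rw [← hw]
    exact w.2
  have halg0 : Algebra.IsAlgebraic (IntermediateField.adjoin k₁ {t}) (kbar k K) :=
    Algebra.IsAlgebraic.trans (IntermediateField.adjoin k₁ {t}) k (kbar k K)
  have h1 := H1.comap_ne_top (k := IntermediateField.adjoin k₁ {t}) hW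
  obtain ⟨c, hct, hc⟩ : ∃ c : k, c ∈ IntermediateField.adjoin k₁ {t} ∧
      algebraMap k (kbar k K) c ∉ W := by
    by_contra h
    push Not at h
    exact h1 (eq_top_iff.2 fun x _ => h x x.2)
  have hc0 : c ≠ 0 := by
    rintro rfl
    exact hc (by rw [map_zero]; exact W.zero_mem)
  have hd0 : c⁻¹ ≠ 0 := inv_ne_zero hc0
  have htm : algebraMap k (kbar k K) c⁻¹ ∈ W.nonunits := by
    rw [ValuationSubring.mem_nonunits_iff_or]
    right
    rw [← map_inv₀, inv_inv]
    exact hc
  have htr : ¬ IsAlgebraic k₁ (algebraMap k (kbar k K) c⁻¹) := by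
    intro h
    have h3 := halg _ h.inv
    rw [← map_inv₀, inv_inv] at h3
    exact hc h3
  refine ⟨algebraMap k (kbar k K) c⁻¹, fun e => halg _ (mem_algebraicClosure_iff.1 e.2),
    (_root_.map_ne_zero _).2 hd0, htm, fun z => ?_⟩
  set E := algebraicClosure k₁ (kbar k K) with hE
  set t' : kbar k K := algebraMap k (kbar k K) c⁻¹ with ht'
  set A : IntermediateField E (kbar k K) := IntermediateField.adjoin E {t'} with hA
  have htA : t' ∈ A := IntermediateField.mem_adjoin_simple_self E t'
  have hk₁A : ∀ a : k₁, algebraMap k₁ (kbar k K) a ∈ A := fun a => by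
    rw [IsScalarTower.algebraMap_apply k₁ E (kbar k K)]
    exact A.algebraMap_mem _
  let g : k₁ →+* A := (algebraMap k₁ (kbar k K)).codRestrict A.toSubfield hk₁A
  -- `t` is algebraic over `A`
  have htalg : IsAlgebraic A (algebraMap k (kbar k K) t) := by
    have h2 : c⁻¹ ∈ IntermediateField.adjoin k₁ {t} := inv_mem hct
    obtain ⟨r, q, hrq⟩ := (IntermediateField.mem_adjoin_simple_iff k₁ c⁻¹).1 h2
    have hq0 : aeval t q ≠ 0 := by
      intro h0
      rw [h0, div_zero] at hrq
      exact hd0 hrq
    have hrq' : aeval t r = c⁻¹ * aeval t q := by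
      rw [hrq, div_mul_cancel₀ _ hq0]
    have hq00 : q ≠ 0 := by
      rintro rfl
      exact hq0 (map_zero _)
    refine ⟨r.map g - Polynomial.C (⟨t', htA⟩ : A) * q.map g, ?_, ?_⟩
    · intro h0
      apply htr
      have h3 : (r.map g - Polynomial.C (⟨t', htA⟩ : A) * q.map g).coeff q.natDegree = 0 := by
        rw [h0, Polynomial.coeff_zero]
      rw [Polynomial.coeff_sub, Polynomial.coeff_C_mul, Polynomial.coeff_map,
        Polynomial.coeff_map] at h3
      have h4 := congrArg (fun a : A => (a : kbar k K)) h3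
      change algebraMap k₁ (kbar k K) (r.coeff q.natDegree) -
        t' * algebraMap k₁ (kbar k K) (q.coeff q.natDegree) = 0 at h4
      have hlc : algebraMap k₁ (kbar k K) (q.coeff q.natDegree) ≠ 0 :=
        (_root_.map_ne_zero _).2 (by
          rw [Polynomial.coeff_natDegree]
          exact Polynomial.leadingCoeff_ne_zero.2 hq00)
      have h5 : t' = algebraMap k₁ (kbar k K) (r.coeff q.natDegree / q.coeff q.natDegree) := by
        rw [map_div₀, eq_div_iff hlc]
        linear_combination -h4
      rw [h5]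
      exact isAlgebraic_algebraMap _
    · have h3 : ∀ p : k₁[X], aeval (algebraMap k (kbar k K) t) (p.map g) =
          algebraMap k (kbar k K) (aeval t p) := by
        intro p
        rw [Polynomial.aeval_def, Polynomial.eval₂_map]
        have h4 : (algebraMap A (kbar k K)).comp g = algebraMap k₁ (kbar k K) := rfl
        rw [h4, IsScalarTower.algebraMap_eq k₁ k (kbar k K), ← Polynomial.hom_eval₂]
        rfl
      rw [map_sub, map_mul, h3, h3, Polynomial.aeval_C, hrq', map_mul]
      exact sub_self _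
  -- `k` is algebraic over `A`
  have hkalg : ∀ a : k, algebraMap k (kbar k K) a ∈ algebraicClosure A (kbar k K) := by
    let T : IntermediateField k₁ k :=
      { (algebraicClosure A (kbar k K)).toSubfield.comap (algebraMap k (kbar k K)) with
        algebraMap_mem' := fun a => by
          change algebraMap k (kbar k K) (algebraMap k₁ k a) ∈ algebraicClosure A (kbar k K)
          rw [← IsScalarTower.algebraMap_apply]
          exact (algebraicClosure A (kbar k K)).algebraMap_mem (⟨_, hk₁A a⟩ : A) }
    have h2 : IntermediateField.adjoin k₁ {t} ≤ T := by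
      refine IntermediateField.adjoin_le_iff.2 ?_
      rintro _ rfl
      exact mem_algebraicClosure_iff.2 htalg
    intro a
    have h3 : IsAlgebraic (IntermediateField.adjoin k₁ {t}) a :=
      Algebra.IsAlgebraic.isAlgebraic a
    have h4 : IsAlgebraic (algebraicClosure A (kbar k K)) (algebraMap k (kbar k K) a) :=
      isAlgebraic_of_range_le (A := IntermediateField.adjoin k₁ {t})
        (fun b => ⟨⟨_, h2 b.2⟩, rfl⟩) (h3.algebraMap (A := kbar k K))
    exact mem_algebraicClosure_iff.2 (h4.restrictScalars A)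
  have hz : IsAlgebraic k z := Algebra.IsAlgebraic.isAlgebraic z
  have h6 : IsAlgebraic (algebraicClosure A (kbar k K)) z :=
    isAlgebraic_of_range_le (fun a => ⟨⟨_, hkalg a⟩, rfl⟩) hz
  exact h6.restrictScalars A

theorem locAct' (s : GaloisSection k K)
    (hF : ∃ S : Finset k₁, Subfield.closure (S : Set k₁) = ⊤)
    (t : k) (hfin : FiniteDimensional (IntermediateField.adjoin k₁ {t}) k)
    {W : ValuationSubring (kbar k K)} (hW : W ≠ ⊤)
    (hk₁ : ∀ c : k₁, algebraMap k₁ (kbar k K) c ∈ W) (x : K) :
    LocAct (algebraicClosure k₁ (kbar k K)) W (MM k K) (toU (k := k) (K := K) x) (actU s) (phi k K) (decW W)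
      (inertW W) := by
  classical
  have hchar : CharZero k := charZero_of_injective_algebraMap (algebraMap k₁ k).injective
  have hFO : ∀ c : k₁, algebraMap k₁ k c ∈ W.comap (algebraMap k (kbar k K)) := fun c => by
    rw [ValuationSubring.mem_comap, ← IsScalarTower.algebraMap_apply]
    exact hk₁ c
  have hres := resid_fg_gen (k := k) hF t hfin hW hk₁
  refine ⟨fun γ c => actU_const s γ c, fun γ => actU_toU s γ x, ?_, ?_, ?_, ?_, ?_, ?_, ?_, ?_⟩
  · intro γ m hm
    rw [IntermediateField.mem_restrict] at hm ⊢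
    obtain ⟨ρ, hρ⟩ := exists_ext s γ
    rw [coe_actU, ← hρ]
    let T : IntermediateField (kbar k K) (AlgebraicClosure K) :=
      { (KK k K).toSubfield.comap (ρ : AlgebraicClosure K →+* AlgebraicClosure K) with
        algebraMap_mem' := fun c => by
          change ρ (c : AlgebraicClosure K) ∈ KK k K
          rw [ext_const s hρ]
          exact (KK k K).algebraMap_mem (γ c) }
    have h1 : KK k K ≤ T := by
      refine IntermediateField.adjoin_le_iff.2 ?_
      rintro _ ⟨c, rfl⟩
      change ρ (algebraMap K (AlgebraicClosure K) c) ∈ KK k K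
      rw [AlgEquiv.commutes]
      exact algebraMap_mem_KK c
    exact h1 hm
  · intro γ e
    refine ⟨⟨γ e, mem_algebraicClosure_iff.2 ?_⟩, rfl⟩
    exact (mem_algebraicClosure_iff.1 e.2).algHom
      ((γ : kbar k K →ₐ[k] kbar k K).restrictScalars k₁)
  · intro γ hγ c
    exact hγ c
  · intro γ hγ
    exact hγ.1
  · intro γ hγ τ hτ
    refine ⟨(decW W).mul_mem ((decW W).mul_mem hγ hτ.1) ((decW W).inv_mem hγ), fun z hz => ?_⟩
    have h1 : γ (γ⁻¹ z) = z := γ.apply_symm_apply z
    have h2 : γ⁻¹ z ∈ W := ((decW W).inv_mem hγ z).2 hz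
    have h3 : (γ * τ * γ⁻¹) z - z = γ (τ (γ⁻¹ z) - γ⁻¹ z) := by
      rw [map_sub, h1]
      rfl
    rw [h3, InDecomp.nonunits_iff hγ]
    exact hτ.2 _ h2
  · intro τ hτ c hc
    exact hτ.2 c hc
  · intro Z S hS
    obtain ⟨γ, V, σ, p, f, hγ, hA, hFr, hσ, hSV⟩ :=
      frobAt_of_fg s hFO hres (H1.cen k W) (H1.above_cen W)
        (Z.image fun z : UU k K => (⟨(z : AlgebraicClosure K), UU_le _ z.2⟩ : Kur k K)) S hS
    refine ⟨γ, F1.mem_decW_of_inD hγ, fun z hz => ?_, V, σ, p, f, hFr, hσ, hSV⟩
    apply Subtype.ext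
    rw [coe_actU]
    exact congrArg Subtype.val (hA _ (Finset.mem_image_of_mem _ hz))
  · intro γ hγ τ hτ z m hm
    obtain ⟨j, hj1, hj2⟩ := section_tame s (H1.cen k W) (residue_unit hFO (H1.cen k W))
      (InDecomp.inD hγ) (InInert.inI hτ) ⟨z, UU_le _ z.2⟩ m hm
    refine ⟨j, hj1, ?_⟩
    apply Subtype.ext
    rw [coe_actU, coe_actU, hj2, map_pow]

end Pool.Agent.LT
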