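import Mathlib

/-!
# Block G11: the image of a closed subgroup under the restriction of scalars

`k₀ ⊆ k ⊆ C`, `C / k₀` Galois (so `C / k` Galois).  The group `C ≃ₐ[k] C` is compact, and the map
`γ ↦ γ` restricted to scalars `k₀` to `C ≃ₐ[k₀] C` (`AlgEquiv.restrictScalarsHom`) is continuous: for a finite
extension `L / k₀` in `C` the preimage of `L.fixingSubgroup` contains the fixing subgroup of `k(L)`, which is
open.  `C ≃ₐ[k₀] C` is Hausdorff.  So the image of the compact set `S` is closed.
-/

universe u

namespace Pool.Agent.LT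

private theorem continuous_restrictScalarsHom {k₀ k C : Type u} [Field k₀] [Field k] [Field C]
    [Algebra k₀ k] [Algebra k C] [Algebra k₀ C] [IsScalarTower k₀ k C] [IsGalois k₀ C]
    [IsGalois k C] :
    Continuous (AlgEquiv.restrictScalarsHom k₀ : (C ≃ₐ[k] C) →* (C ≃ₐ[k₀] C)) := by
  refine continuous_of_continuousAt_one _ ?_
  rw [ContinuousAt, map_one]
  intro s hs
  rw [krullTopology_mem_nhds_one_iff] at hs
  obtain ⟨E, hE, hEs⟩ := hs
  rw [Filter.mem_map, krullTopology_mem_nhds_one_iff]
  let b := Module.finBasis k₀ E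
  let T : Set C := Set.range fun i => (b i : C)
  have hfin : FiniteDimensional k (IntermediateField.adjoin k T) := by
    have : Finite T := Set.finite_range _
    exact IntermediateField.finiteDimensional_adjoin fun x _ =>
      (Algebra.IsIntegral.isIntegral (R := k) x)
  refine ⟨IntermediateField.adjoin k T, hfin, ?_⟩
  intro γ hγ
  refine hEs ?_
  rw [SetLike.mem_coe, IntermediateField.mem_fixingSubgroup_iff] at hγ ⊢
  intro x hx
  have h1 : x ∈ IntermediateField.adjoin k T := by
    have h2 : x = ∑ i, algebraMap k₀ C (b.repr ⟨x, hx⟩ i) * (b i : C) := by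
      have h3 := congrArg (fun z : E => (z : C)) (b.sum_repr ⟨x, hx⟩)
      simp only [AddSubmonoidClass.coe_finsetSum, IntermediateField.coe_smul] at h3
      refine h3.symm.trans (Finset.sum_congr rfl fun i _ => ?_)
      rw [Algebra.smul_def]
    rw [h2]
    refine sum_mem fun i _ => mul_mem ?_ (IntermediateField.subset_adjoin k T ⟨i, rfl⟩)
    rw [IsScalarTower.algebraMap_apply k₀ k C]
    exact IntermediateField.algebraMap_mem _ _
  exact hγ x h1

theorem isClosed_restrictScalars {k₀ k C : Type u} [Field k₀] [Field k] [Field C] [Algebra k₀ k]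
    [Algebra k C] [Algebra k₀ C] [IsScalarTower k₀ k C] [IsGalois k₀ C] [IsGalois k C]
    (S : Subgroup (C ≃ₐ[k] C)) (hS : IsClosed (S : Set (C ≃ₐ[k] C))) :
    IsClosed ((S.map (AlgEquiv.restrictScalarsHom k₀) : Subgroup (C ≃ₐ[k₀] C)) :
      Set (C ≃ₐ[k₀] C)) := by
  have ht2 : T2Space (C ≃ₐ[k₀] C) := krullTopology_t2
  rw [Subgroup.coe_map]
  exact (hS.isCompact.image continuous_restrictScalarsHom).isClosed

end Pool.Agent.LT
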