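import Pool.Agent.Helper13.LG.G3b
import Pool.Agent.Helper13.LT.F5b

/-!
# Good places and the bad place, for finite extensions of `k₁(t)`
-/

universe u

namespace Pool.Agent.LT

open VC Polynomial Pool.Agent.SC Pool.Agent.Helper91.Sect

section

variable {k₁ k K : Type u} [Field k₁] [CharZero k₁] [Field k] [Field K] [Algebra k₁ k]
  [Algebra k K] [Algebra k₁ K] [IsScalarTower k₁ k K]
  {n : ℕ} {f : k[X]} {c : k} {x y : K}

/-- At a good place inertia fixes the places above the branch points. -/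
theorem fixes_of_good' (s : GaloisSection k K)
    (hF : ∃ S : Finset k₁, Subfield.closure (S : Set k₁) = ⊤)
    (t : k) (hfin : FiniteDimensional (IntermediateField.adjoin k₁ {t}) k)
    (h : SuperE n f c x y) {W : ValuationSubring (kbar k K)} (hW : W ≠ ⊤)
    (hk₁ : ∀ c : k₁, algebraMap k₁ (kbar k K) c ∈ W) (hf : GoodRed W f)
    (hc : algebraMap k (kbar k K) c ∈ W) (hc1 : algebraMap k (kbar k K) c ∉ W.nonunits)
    {P : ValuationSubring (UU k K)} (hP : ∀ c : kbar k K, algebraMap (kbar k K) (UU k K) c ∈ P)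
    (hP1 : P ≠ ⊤)
    (hPB : toU (k := k) (K := K) x ∉ P ∨ ∃ b ∈ rootsB K f, toU (k := k) (K := K) x - algebraMap (kbar k K) (UU k K) b ∈ P.nonunits)
    {τ : Gk k K} (hτ : InInert W τ) (z : UU k K) : actU s τ z ∈ P ↔ z ∈ P := by
  have hac : IsAlgClosed (algebraicClosure k₁ (kbar k K)) :=
    (inferInstance : IsAlgClosure k₁ (algebraicClosure k₁ (kbar k K))).isAlgClosed
  have hk0 : CharZero k := charZero_of_injective_algebraMap (algebraMap k₁ k).injective
  obtain ⟨t', hb⟩ := exists_base' (K := K) t hfin hW hk₁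
  have hu := h.usetup hb hf
  obtain ⟨V, hV⟩ := exists_gauss (N := UU k K) hb hu.tr
  have ha := locAct' s hF t hfin hW hk₁ x
  have hres := ha.trivial hu hV (τ := τ) hτ (fun z hz hzM =>
    h.inert_trivial s hb hf hu hc hc1 hV hτ hz hzM)
  exact hu.fixes_place hV (actU s τ) (phi k K τ) (actU_const s τ) (fun c => hτ.1 c)
    (fun c hc => hτ.2 c hc) (actU_toU s τ x) hres (fun b hb => phi_rootsB τ hb) hP hP1 hPB z

/-- At a bad place there is a place stable under the decomposition group. -/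
theorem place_of_bad' (s : GaloisSection k K)
    (hF : ∃ S : Finset k₁, Subfield.closure (S : Set k₁) = ⊤)
    (t : k) (hfin : FiniteDimensional (IntermediateField.adjoin k₁ {t}) k)
    (h : SuperE n f c x y) {W : ValuationSubring (kbar k K)} (hW : W ≠ ⊤)
    (hk₁ : ∀ c : k₁, algebraMap k₁ (kbar k K) c ∈ W) (hf : GoodRed W f)
    {ϖ c₁ : k} {j : ℕ} (hϖ : algebraMap k (kbar k K) ϖ ∈ W.nonunits) (hϖ0 : ϖ ≠ 0)
    (hdisc : ∀ z : k, z ≠ 0 → ∃ i : ℤ, W.valuation (algebraMap k (kbar k K) z) =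
      W.valuation (algebraMap k (kbar k K) ϖ) ^ i)
    (hcj : c = ϖ ^ j * c₁) (hj : ¬ n ∣ j) (hc₁ : algebraMap k (kbar k K) c₁ ∈ W)
    (hc₁u : algebraMap k (kbar k K) c₁ ∉ W.nonunits) :
    ∃ P : ValuationSubring (UU k K), (∀ c : kbar k K, algebraMap (kbar k K) (UU k K) c ∈ P) ∧
      P ≠ ⊤ ∧ (∀ γ : Gk k K, InDecomp W γ → ∀ z, actU s γ z ∈ P ↔ z ∈ P) ∧
      (toU (k := k) (K := K) x ∉ P ∨ ∃ b ∈ rootsB K f, toU (k := k) (K := K) x - algebraMap (kbar k K) (UU k K) b ∈ P.nonunits) := by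
  have hac : IsAlgClosed (algebraicClosure k₁ (kbar k K)) :=
    (inferInstance : IsAlgClosure k₁ (algebraicClosure k₁ (kbar k K))).isAlgClosed
  have hk0 : CharZero k := charZero_of_injective_algebraMap (algebraMap k₁ k).injective
  obtain ⟨t', hb⟩ := exists_base' (K := K) t hfin hW hk₁
  have hu := h.usetup hb hf
  obtain ⟨V, hV⟩ := exists_gauss (N := UU k K) hb hu.tr
  have ha := locAct' s hF t hfin hW hk₁ x
  obtain ⟨τ, hτ, z, hzV, hzM, hz⟩ := h.inert_nontrivial s hb hf hϖ hϖ0 hdisc hcj hj hc₁ hc₁u hV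
  exact ha.exists_place hu hV ⟨τ, hτ, z, hzV, hzM, hz⟩
    (fun g hgx hg hne P P' hP hP1 hPg hP' hP1' hPg' =>
      h.fixed_unique g hgx hg hne hP hP1 hPg hP' hP1' hPg')

end

end Pool.Agent.LT
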