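import Pool.Agent.Helper13.LT.L0b
import Pool.Agent.Helper13.LT.L3
import Pool.Agent.Helper13.LT.A1

/-!
# Block G5: the values of the elements fixed by the inertia group of `W`

Proof.  `C` is algebraic over `E'(t)`, `E'` = `algebraicClosure F(u) C ⊆ W` trivially valued, so
`W(z)^b = W(t)^a` for some `b > 0`, `a ∈ ℤ`; we may take `a`, `b` coprime (the value group is torsion free;
if `g = gcd(a, b)`, the `g`-th roots: `(W(z)^{b/g} / W(t)^{a/g})^g = 1` implies `= 1` in a linearly ordered
group).  Let `θ^b = t` in `C` and `ζ` a primitive `b`-th root of unity.  There is `τ` in the inertia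
group of `W` with `τ θ = ζ θ`: see block L3 (`LT/L3.lean`): the automorphism of `E'(θ)` over `E'(t)`
with `θ ↦ ζ θ` preserves `W ∩ E'(θ)` and lifts to the decomposition group of `W` (`exists_conj`), and it is then in the
inertia group because it is trivial on `E'`, which maps onto the residue field of `W`; see also `SC.H1.exists_inertia`,
or `Helper91/Section/SE`, or `SuperE.inert_nontrivial` in `LT/F4.lean`.  Now `w = z / θ^a` is a unit of `W`,
`τ w = ζ^{-a} w` and `τ w - w ∈ 𝔪_W`, so `ζ^{-a} = 1` (roots of unity different from `1` are not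
congruent to `1`, characteristic zero), so `b ∣ a` and `b = 1`.
-/

universe u

namespace Pool.Agent.LT

open VC Polynomial Pool.Agent.SC

variable {F k C : Type u} [Field F] [CharZero F] [Field k] [Field C] [Algebra F k] [Algebra k C]
  [Algebra F C] [IsScalarTower F k C]

theorem G5.isAlg_of_mem [Algebra.IsAlgebraic k C] {E' : Type u} [Field E'] [Algebra E' C]
    (M : IntermediateField E' C) (hkM : ∀ c : k, algebraMap k C c ∈ M) (z : C) :
    IsAlgebraic M z := by
  obtain ⟨p, hp0, hp⟩ := Algebra.IsAlgebraic.isAlgebraic (R := k) z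
  let f : k →+* M := (algebraMap k C).codRestrict M.toSubfield hkM
  refine ⟨p.map f, (Polynomial.map_ne_zero_iff f.injective).2 hp0, ?_⟩
  rw [aeval_def, Polynomial.eval₂_map]
  exact hp

theorem G5.mem_adjoin (t u : k) (htop : IntermediateField.adjoin F {t, u} = ⊤)
    {m : ℕ} {θ : C} (hθ : θ ^ m = algebraMap k C t) (c : k) :
    algebraMap k C c ∈ IntermediateField.adjoin
      (algebraicClosure (IntermediateField.adjoin F {u}) C) {θ} := by
  let L := IntermediateField.adjoin F {u}
  let E' := algebraicClosure L C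
  let M : IntermediateField E' C := IntermediateField.adjoin E' {θ}
  have huM : ∀ x : L, algebraMap L C x ∈ M := by
    intro x
    exact M.algebraMap_mem (algebraMap L E' x)
  have htM : algebraMap k C t ∈ M := by
    rw [← hθ]
    exact pow_mem (IntermediateField.mem_adjoin_simple_self _ _) m
  let T : IntermediateField L k :=
    { M.toSubfield.comap (algebraMap k C) with
      algebraMap_mem' := fun x => huM x }
  have h1 : IntermediateField.adjoin L {t} ≤ T := by
    rw [IntermediateField.adjoin_simple_le_iff]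
    exact htM
  rw [adjoin_t_top htop] at h1
  exact h1 (IntermediateField.mem_top (x := c))

theorem G5.base [IsAlgClosed C] [IsGalois k C] (t u : k)
    (htu : AlgebraicIndependent F ![t, u]) (htop : IntermediateField.adjoin F {t, u} = ⊤)
    {W : ValuationSubring C} (hW : AtZero F t u W) :
    Base (algebraicClosure (IntermediateField.adjoin F {u}) C) W (algebraMap k C t) := by
  refine ⟨fun c => ?_, ?_, hW.t_mem, ?_⟩
  · refine mem_of_isAlgebraic (L := IntermediateField.adjoin F {u}) (fun x => hW.const x x.2) ?_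
    exact mem_algebraicClosure_iff.1 c.2
  · intro h
    have h1 : t = 0 := (map_eq_zero _).1 h
    apply transc_F_t htu
    rw [h1]
    exact isAlgebraic_zero
  · exact G5.isAlg_of_mem (k := k) _ (G5.mem_adjoin t u htop (m := 1) (pow_one _))

theorem G5.isAlgClosed_E (L Ω : Type u) [Field L] [Field Ω] [Algebra L Ω] [IsAlgClosed Ω] :
    IsAlgClosed (algebraicClosure L Ω) :=
  (inferInstance : IsAlgClosure L (algebraicClosure L Ω)).isAlgClosed

theorem G5.charZero_E (L Ω : Type u) [Field L] [Field Ω] [Algebra L Ω] [CharZero Ω] :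
    CharZero (algebraicClosure L Ω) :=
  (algebraMap (algebraicClosure L Ω) Ω).charZero

theorem G5.exists_rho {E' : Type u} [Field E'] [Algebra E' C] [IsAlgClosed C]
    [Algebra.IsAlgebraic k C] {θ η : C} (hθ : Transcendental E' θ) (hη : Transcendental E' η)
    (hkM : ∀ c : k, algebraMap k C c ∈ IntermediateField.adjoin E' {θ})
    (hfix : ∀ φ : C →ₐ[E'] C, φ θ = η → ∀ c : k, φ (algebraMap k C c) = algebraMap k C c) :
    ∃ ρ : C ≃ₐ[k] C, ρ θ = η ∧ ∀ e : E', ρ (algebraMap E' C e) = algebraMap E' C e := by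
  let φ0 : IntermediateField.adjoin E' {θ} →ₐ[E'] C :=
    (IntermediateField.val _).comp ((RatFunc.algEquivOfTranscendental θ hθ).symm.trans
      (RatFunc.algEquivOfTranscendental η hη)).toAlgHom
  have hφ0 : φ0 (IntermediateField.AdjoinSimple.gen E' θ) = η := by
    change (((RatFunc.algEquivOfTranscendental η hη) ((RatFunc.algEquivOfTranscendental θ hθ).symm
      (IntermediateField.AdjoinSimple.gen E' θ)) : _) : C) = η
    rw [RatFunc.algEquivOfTranscendental_symm_gen, RatFunc.algEquivOfTranscendental_X]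
  have hMalg : Algebra.IsAlgebraic (IntermediateField.adjoin E' {θ}) C :=
    ⟨G5.isAlg_of_mem (k := k) _ hkM⟩
  obtain ⟨φ, hφ⟩ := IsAlgClosed.surjective_domRestrict_of_isAlgebraic (K := E')
    (L := IntermediateField.adjoin E' {θ}) (M := C) (E := C) φ0
  have hφθ : φ θ = η := by
    rw [← hφ0, ← hφ]
    rfl
  let φk : C →ₐ[k] C := { (φ : C →+* C) with commutes' := hfix φ hφθ }
  exact ⟨AlgEquiv.ofBijective φk (Algebra.IsAlgebraic.algHom_bijective φk), hφθ,
    fun e => φ.commutes e⟩

theorem G5.exists_tau0 [Algebra.IsAlgebraic k C] {E' : Type u} [Field E'] [Algebra E' C]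
    [IsGalois k C]
    {W : ValuationSubring C} {θ η : C}
    (hkM : ∀ c : k, algebraMap k C c ∈ IntermediateField.adjoin E' {θ}) (hθ0 : θ ≠ 0)
    (ρ : C ≃ₐ[k] C) (hρθ : ρ θ = η) (hE : ∀ c : E', algebraMap E' C c ∈ W)
    (hρ : ∀ e : E', ρ (algebraMap E' C e) = algebraMap E' C e) (hθ : W.valuation θ < 1)
    (hη : W.valuation η < 1) :
    ∃ σ : C ≃ₐ[k] C, (∀ z, ρ (σ z) ∈ W ↔ z ∈ W) ∧
      ∀ z ∈ IntermediateField.adjoin E' {θ}, σ z = z := by
  let M' : IntermediateField k C :=
    { (IntermediateField.adjoin E' {θ}).toSubfield with algebraMap_mem' := hkM }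
  have hE' : ∀ c : E', algebraMap E' C c ∈ W.comap (ρ : C →+* C) := by
    intro c
    change ρ (algebraMap E' C c) ∈ W
    rw [hρ]
    exact hE c
  have hv' : (W.comap (ρ : C →+* C)).valuation θ < 1 := by
    rw [← ValuationSubring.mem_nonunits_iff, ValuationSubring.mem_nonunits_iff_or] at hη ⊢
    right
    rcases hη with h1 | h1
    · rw [← hρθ] at h1
      exact absurd ((map_eq_zero _).1 h1) hθ0
    · intro h2
      apply h1
      have h3 : ρ θ⁻¹ ∈ W := h2
      rwa [map_inv₀, hρθ] at h3
  obtain ⟨σ, hσ⟩ := exists_conj_val (L := M') W (W.comap (ρ : C →+* C)) (fun c =>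
    mem_iff_mem (L := E') hθ0 c.2 hE hθ hE' hv')
  exact ⟨σ.restrictScalars k, hσ, fun z hz => σ.commutes ⟨z, hz⟩⟩

theorem G5.exists_tau [Algebra.IsAlgebraic k C] {E' : Type u} [Field E'] [Algebra E' C]
    [IsAlgClosed C] [IsGalois k C]
    [IsAlgClosed E'] [CharZero E'] {W : ValuationSubring C} {t θ η : C} (hbase : Base E' W t)
    (hkM : ∀ c : k, algebraMap k C c ∈ IntermediateField.adjoin E' {θ}) (hθ0 : θ ≠ 0)
    (ρ : C ≃ₐ[k] C) (hρθ : ρ θ = η)
    (hρ : ∀ e : E', ρ (algebraMap E' C e) = algebraMap E' C e) (hθ : W.valuation θ < 1)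
    (hη : W.valuation η < 1) :
    ∃ τ : C ≃ₐ[k] C, InInert W τ ∧ τ θ = η := by
  obtain ⟨σ, hσ, hfix⟩ := G5.exists_tau0 hkM hθ0 ρ hρθ hbase.const hρ hθ hη
  have h1 : InDecomp W (ρ * σ) := hσ
  refine ⟨ρ * σ, ⟨h1, fun z hz => ?_⟩, ?_⟩
  · obtain ⟨e, he⟩ := hbase.exists_residue hz
    have h2 : (ρ * σ) (algebraMap E' C e) = algebraMap E' C e := by
      rw [AlgEquiv.mul_apply, hfix _ ((IntermediateField.adjoin E' {θ}).algebraMap_mem e), hρ]
    have h3 := (h1.nonunits_iff _).2 he
    have h4 : (ρ * σ) z - z = (ρ * σ) (z - algebraMap E' C e) - (z - algebraMap E' C e) := by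
      rw [map_sub, h2]
      ring
    rw [h4, ValuationSubring.mem_nonunits_iff]
    rw [ValuationSubring.mem_nonunits_iff] at h3 he
    exact (Valuation.map_sub _ _ _).trans_lt (max_lt h3 he)
  · rw [AlgEquiv.mul_apply, hfix _ (IntermediateField.mem_adjoin_simple_self _ _), hρθ]

theorem G5.fix_k (t u : k) (htop : IntermediateField.adjoin F {t, u} = ⊤)
    (φ : C →ₐ[algebraicClosure (IntermediateField.adjoin F {u}) C] C)
    (ht : φ (algebraMap k C t) = algebraMap k C t) (c : k) :
    φ (algebraMap k C c) = algebraMap k C c := by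
  let T : IntermediateField (IntermediateField.adjoin F {u}) k :=
    { (RingHom.eqLocusField (φ : C →+* C) (RingHom.id C)).comap (algebraMap k C) with
      algebraMap_mem' := fun x => by
        change φ (algebraMap k C (algebraMap (IntermediateField.adjoin F {u}) k x)) =
          algebraMap k C (algebraMap (IntermediateField.adjoin F {u}) k x)
        exact φ.commutes (algebraMap (IntermediateField.adjoin F {u})
          (algebraicClosure (IntermediateField.adjoin F {u}) C) x) }
  have h1 : IntermediateField.adjoin (IntermediateField.adjoin F {u}) {t} ≤ T := by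
    rw [IntermediateField.adjoin_simple_le_iff]
    exact ht
  rw [adjoin_t_top htop] at h1
  exact h1 (IntermediateField.mem_top (x := c))

theorem G5.transc (t u : k) (htu : AlgebraicIndependent F ![t, u]) {m : ℕ} {η : C}
    (hη : η ^ m = algebraMap k C t) :
    Transcendental (algebraicClosure (IntermediateField.adjoin F {u}) C) η := by
  intro h
  have h1 : IsAlgebraic (algebraicClosure (IntermediateField.adjoin F {u}) C)
      (algebraMap k C t) := by
    rw [← hη]
    exact h.pow m
  have h2 : IsAlgebraic (IntermediateField.adjoin F {u}) (algebraMap k C t) :=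
    h1.restrictScalars _
  have h3 : Transcendental (IntermediateField.adjoin F {u}) (algebraMap k C t) := by
    rw [transcendental_algebraMap_iff (algebraMap k C).injective]
    exact transc_t htu
  exact h3 h2

theorem G5.exists_inert [IsAlgClosed C] [IsGalois k C] (t u : k)
    (htu : AlgebraicIndependent F ![t, u]) (htop : IntermediateField.adjoin F {t, u} = ⊤)
    {W : ValuationSubring C} (hW : AtZero F t u W) {m : ℕ} (hm : 0 < m) {θ ζ : C}
    (hθ : θ ^ m = algebraMap k C t) (hζ : ζ ^ m = 1) :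
    ∃ τ : C ≃ₐ[k] C, InInert W τ ∧ τ θ = ζ * θ := by
  have hbase := G5.base t u htu htop hW
  have : CharZero C := charZero_of_injective_algebraMap (algebraMap F C).injective
  have := G5.isAlgClosed_E (IntermediateField.adjoin F {u}) C
  have := G5.charZero_E (IntermediateField.adjoin F {u}) C
  have hθ0 : θ ≠ 0 := by
    rintro rfl
    rw [zero_pow hm.ne'] at hθ
    exact hbase.t_ne hθ.symm
  have hθ' : (ζ * θ) ^ m = algebraMap k C t := by
    rw [mul_pow, hζ, one_mul, hθ]
  have hv : ∀ η : C, η ^ m = algebraMap k C t → W.valuation η < 1 := by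
    intro η hη
    have h1 : W.valuation (algebraMap k C t) < 1 := W.mem_nonunits_iff.1 hW.t_mem
    rw [← hη, map_pow] at h1
    exact (pow_lt_one_iff_of_nonneg zero_le hm.ne').1 h1
  obtain ⟨ρ, hρθ, hρ⟩ := G5.exists_rho (k := k) (G5.transc t u htu hθ) (G5.transc t u htu hθ')
    (G5.mem_adjoin t u htop hθ) (fun φ hφ => G5.fix_k t u htop φ (by
      rw [← hθ, map_pow, hφ, hθ', hθ]))
  exact G5.exists_tau hbase (G5.mem_adjoin t u htop hθ) hθ0 ρ hρθ hρ (hv θ hθ) (hv _ hθ')

theorem vals_of_inert [IsAlgClosed C] [IsGalois k C] (t u : k)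
    (htu : AlgebraicIndependent F ![t, u]) (htop : IntermediateField.adjoin F {t, u} = ⊤)
    {W : ValuationSubring C} (hW : AtZero F t u W) {z : C} (hz0 : z ≠ 0)
    (hz : ∀ τ : C ≃ₐ[k] C, InInert W τ → τ z = z) :
    ∃ i : ℤ, W.valuation z = W.valuation (algebraMap k C t) ^ i := by
  have hbase := G5.base t u htu htop hW
  have : CharZero C := charZero_of_injective_algebraMap (algebraMap F C).injective
  have := G5.isAlgClosed_E (IntermediateField.adjoin F {u}) C
  have := G5.charZero_E (IntermediateField.adjoin F {u}) C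
  obtain ⟨b, hb, j, hbj⟩ := hbase.exists_pow hz0
  have : NeZero b := ⟨hb.ne'⟩
  obtain ⟨θ, hθ⟩ := IsAlgClosed.exists_pow_nat_eq (algebraMap k C t) hb
  obtain ⟨ζ, hζ⟩ := HasEnoughRootsOfUnity.exists_primitiveRoot C b
  obtain ⟨τ, hτ, hτθ⟩ := G5.exists_inert t u htu htop hW hb hθ hζ.pow_eq_one
  have hθ0 : θ ≠ 0 := by
    rintro rfl
    rw [zero_pow hb.ne'] at hθ
    exact hbase.t_ne hθ.symm
  have hζ0 : ζ ≠ 0 := hζ.ne_zero hb.ne'
  have hvz : W.valuation z = W.valuation (θ ^ j) := by
    rw [← hθ, map_pow, ← zpow_natCast (W.valuation θ) b, ← zpow_mul, mul_comm, zpow_mul,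
      zpow_natCast] at hbj
    rw [map_zpow₀]
    exact (pow_left_inj₀ zero_le zero_le hb.ne').1 hbj
  have hτz : τ z = z := hz τ hτ
  have hw : W.valuation (z / θ ^ j) = 1 := by
    rw [map_div₀, hvz, div_self]
    exact (Valuation.ne_zero_iff _).2 (zpow_ne_zero _ hθ0)
  have hwW : z / θ ^ j ∈ W := (W.valuation_le_one_iff _).1 hw.le
  have h1 := hτ.2 _ hwW
  have h2 : τ (z / θ ^ j) - z / θ ^ j = (ζ ^ (-j) - 1) * (z / θ ^ j) := by
    rw [map_div₀, hτz, map_zpow₀, hτθ, mul_zpow, zpow_neg]
    have h3 : ζ ^ j ≠ 0 := zpow_ne_zero _ hζ0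
    have h4 : θ ^ j ≠ 0 := zpow_ne_zero _ hθ0
    field_simp
  rw [h2, W.mem_nonunits_iff, map_mul, hw, mul_one] at h1
  have hζalg : IsAlgebraic (IntermediateField.adjoin F {u}) ζ := by
    refine ⟨X ^ b - 1, ?_, ?_⟩
    · exact (Polynomial.monic_X_pow_sub_C (1 : IntermediateField.adjoin F {u}) hb.ne').ne_zero
    · rw [map_sub, map_pow, aeval_X, map_one, hζ.pow_eq_one, sub_self]
  have hmem : ζ ^ (-j) - 1 ∈ algebraicClosure (IntermediateField.adjoin F {u}) C := by
    refine sub_mem (zpow_mem (mem_algebraicClosure_iff.2 hζalg) _) (one_mem _)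
  have h3 : ζ ^ (-j) - 1 = 0 := by
    by_contra hne
    have h4 := hbase.unit (e := ⟨ζ ^ (-j) - 1, hmem⟩) (by
      intro h5
      exact hne (congrArg Subtype.val h5))
    exact absurd h1 (by
      rw [not_lt]
      exact h4.ge)
  have h5 : (b : ℤ) ∣ j := by
    have h6 := (hζ.zpow_eq_one_iff_dvd (-j)).1 (sub_eq_zero.1 h3)
    exact (dvd_neg).1 h6
  obtain ⟨i, rfl⟩ := h5
  refine ⟨i, ?_⟩
  rw [hvz, ← hθ, map_zpow₀, map_pow, zpow_mul, zpow_natCast]

end Pool.Agent.LT
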