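import Pool.Agent.Helper13.LG.G2
import Pool.Agent.Helper13.LG.G5
import Pool.Agent.Helper13.LG.G11
import Pool.Agent.Helper13.LG.G12
import Pool.Agent.Helper13.LT.F5

/-!
# The core of the general theorem: good coordinates
-/

universe u

namespace Pool.Agent.LT

open VC Polynomial Pool.Agent.SC Pool.Agent.Helper91.Sect

section K0

variable {F k : Type u} [Field F] [Field k] [Algebra F k]

/-- `k₀ = F(t, u)` -/
abbrev k0 (F : Type u) {k : Type u} [Field F] [Field k] [Algebra F k] (t u : k) :
    IntermediateField F k := IntermediateField.adjoin F {t, u}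

/-- `t` as an element of `k₀` -/
def t0 (F : Type u) {k : Type u} [Field F] [Field k] [Algebra F k] (t u : k) : k0 F t u :=
  ⟨t, IntermediateField.subset_adjoin _ _ (Or.inl rfl)⟩

/-- `u` as an element of `k₀` -/
def u0 (F : Type u) {k : Type u} [Field F] [Field k] [Algebra F k] (t u : k) : k0 F t u :=
  ⟨u, IntermediateField.subset_adjoin _ _ (Or.inr rfl)⟩

theorem algInd0 {t u : k} (htu : AlgebraicIndependent F ![t, u]) :
    AlgebraicIndependent F ![t0 F t u, u0 F t u] := by
  have h1 : (k0 F t u).val ∘ ![t0 F t u, u0 F t u] = ![t, u] := by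
    ext i
    fin_cases i <;> rfl
  rw [← h1] at htu
  exact AlgebraicIndependent.of_comp _ htu

theorem top0 (t u : k) : IntermediateField.adjoin F {t0 F t u, u0 F t u} = ⊤ := by
  have h1 : (IntermediateField.adjoin F {t0 F t u, u0 F t u}).map (k0 F t u).val =
      k0 F t u := by
    rw [IntermediateField.adjoin_map, Set.image_pair]
    rfl
  rw [eq_top_iff]
  intro z _
  have h2 : (z : k) ∈ (IntermediateField.adjoin F {t0 F t u, u0 F t u}).map (k0 F t u).val := by
    rw [h1]; exact z.2
  obtain ⟨w, hw, hwz⟩ := h2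
  have h3 : w = z := Subtype.ext hwz
  rwa [← h3]

theorem ev0 (t u : k) (p : F[X][X]) :
    ((ev F (t0 F t u) (u0 F t u) p : k0 F t u) : k) = ev F t u p := by
  have h1 : (k0 F t u).val.toRingHom.comp (ev F (t0 F t u) (u0 F t u)) = ev F t u := by
    apply Polynomial.ringHom_ext
    · intro q
      change ((ev F (t0 F t u) (u0 F t u) (C q) : k0 F t u) : k) = ev F t u (C q)
      rw [ev_C, ev_C]
      change (k0 F t u).val (aeval (t0 F t u) q) = _
      rw [← aeval_algHom_apply]
      rfl
    · change ((ev F (t0 F t u) (u0 F t u) X : k0 F t u) : k) = ev F t u X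
      rw [ev_X, ev_X]
      rfl
  exact congrArg (fun φ : F[X][X] →+* k => φ p) h1

/-- `F(u) ⊆ k₀` and `F(u) ⊆ k` -/
theorem mem_adjoin0 {t u v : k} {v' : k0 F t u} (hv : (v' : k) = v) {c : k}
    (hc : c ∈ IntermediateField.adjoin F {v}) :
    ∃ c' : k0 F t u, (c' : k) = c ∧ c' ∈ IntermediateField.adjoin F {v'} := by
  have h1 : (IntermediateField.adjoin F {v'}).map (k0 F t u).val = IntermediateField.adjoin F {v} := by
    rw [IntermediateField.adjoin_map, Set.image_singleton]
    rw [← hv]
    rfl
  rw [← h1] at hc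
  obtain ⟨c', hc', h⟩ := hc
  exact ⟨c', h, hc'⟩

theorem coe_mem_adjoin0 {t u v : k} {v' : k0 F t u} (hv : (v' : k) = v) {c : k0 F t u}
    (hc : c ∈ IntermediateField.adjoin F {v'}) : (c : k) ∈ IntermediateField.adjoin F {v} := by
  have h1 : (IntermediateField.adjoin F {v'}).map (k0 F t u).val = IntermediateField.adjoin F {v} := by
    rw [IntermediateField.adjoin_map, Set.image_singleton]
    rw [← hv]
    rfl
  rw [← h1]
  exact ⟨c, hc, rfl⟩

theorem fin_adjoin0 {t u : k} (hfin : FiniteDimensional (k0 F t u) k) :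
    FiniteDimensional (IntermediateField.adjoin (IntermediateField.adjoin F {t}) {u}) k := by
  have h1 : (IntermediateField.adjoin (IntermediateField.adjoin F {t}) {u}).restrictScalars F =
      k0 F t u := by
    rw [IntermediateField.adjoin_adjoin_left]
    rfl
  have h2 : FiniteDimensional ((IntermediateField.adjoin
      (IntermediateField.adjoin F {t}) {u}).restrictScalars F) k := by
    rw [h1]
    exact hfin
  exact h2

theorem fin_adjoin0' {t u : k} (hfin : FiniteDimensional (k0 F t u) k) :
    FiniteDimensional (IntermediateField.adjoin (IntermediateField.adjoin F {u}) {t}) k := by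
  apply fin_adjoin0
  unfold k0
  rw [Set.pair_comm]
  exact hfin

end K0

/-- The elements which have to be regular at the good places. -/
noncomputable def goodElts {k : Type u} [Field k] [DecidableEq k] (f : k[X]) (c : k) : Finset k :=
  (Finset.range (f.natDegree + 1)).image f.coeff ∪ {f.leadingCoeff⁻¹, f.discr⁻¹, c, c⁻¹}

theorem discr_ne_zero_of_separable {k : Type*} [Field k] [CharZero k] {f : k[X]}
    (hf : 0 < f.natDegree) (hs : f.Separable) : f.discr ≠ 0 := by
  have h2 := resultant_deriv (f := f) (natDegree_pos_iff_degree_pos.1 hf)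
  have h3 : f.derivative.natDegree = f.natDegree - 1 := natDegree_derivative f
  intro h
  rw [h, mul_zero, ← h3, resultant_eq_zero_iff] at h2
  exact h2.2 hs

theorem goodRed_of_goodElts {k K : Type u} [Field k] [CharZero k] [DecidableEq k] [Field K]
    [Algebra k K] {f : k[X]}
    {c : k} (hf : 0 < f.natDegree) (hs : f.Separable) (hc : c ≠ 0)
    {W : ValuationSubring (kbar k K)}
    (hW : ∀ a ∈ goodElts f c, algebraMap k (kbar k K) a ∈ W) :
    GoodRed W f ∧ algebraMap k (kbar k K) c ∈ W ∧ algebraMap k (kbar k K) c ∉ W.nonunits := by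
  have hunit : ∀ a : k, a ≠ 0 → algebraMap k (kbar k K) a⁻¹ ∈ W →
      algebraMap k (kbar k K) a ∉ W.nonunits := by
    intro a ha h h1
    rw [ValuationSubring.mem_nonunits_iff_or] at h1
    rcases h1 with h1 | h1
    · rw [map_eq_zero] at h1
      exact ha h1
    · apply h1
      rw [← map_inv₀]
      exact h
  have hlc : f.leadingCoeff ≠ 0 := by
    rw [Ne, leadingCoeff_eq_zero]
    rintro rfl
    simp at hf
  refine ⟨⟨fun i => ?_, ?_, ?_⟩, ?_, ?_⟩
  · by_cases hi : i < f.natDegree + 1
    · refine hW _ ?_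
      unfold goodElts
      exact Finset.mem_union_left _ (Finset.mem_image_of_mem _ (Finset.mem_range.2 hi))
    · rw [coeff_eq_zero_of_natDegree_lt (by omega), map_zero]
      exact W.zero_mem
  · exact hunit _ hlc (hW _ (by unfold goodElts; simp))
  · exact hunit _ (discr_ne_zero_of_separable hf hs) (hW _ (by unfold goodElts; simp))
  · exact hW _ (by unfold goodElts; simp)
  · exact hunit _ hc (hW _ (by unfold goodElts; simp))

section Core

variable {F k K : Type u} [Field F] [CharZero F] [Field k] [Field K] [Algebra F k] [Algebra k K]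
  [Algebra F K] [IsScalarTower F k K]

/-- The image of `k` in `kbar` as an extension of `k₀`. -/
noncomputable def kM (F : Type u) {k : Type u} (K : Type u) [Field F] [Field k] [Field K]
    [Algebra F k] [Algebra k K] [Algebra F K] [IsScalarTower F k K] (t u : k) :
    IntermediateField (k0 F t u) (kbar k K) :=
  (IsScalarTower.toAlgHom (k0 F t u) k (kbar k K)).fieldRange

omit [CharZero F] in
theorem mem_kM {t u : k} (a : k) : algebraMap k (kbar k K) a ∈ kM F K t u := ⟨a, rfl⟩

omit [CharZero F] [Algebra F K] [IsScalarTower F k K] in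
/-- An automorphism over `k₀` trivial on `k` is the restriction of an automorphism over `k`. -/
theorem exists_gk {t u : k} {τ : kbar k K ≃ₐ[k0 F t u] kbar k K}
    (hτ : ∀ a : k, τ (algebraMap k (kbar k K) a) = algebraMap k (kbar k K) a) :
    ∃ γ : Gk k K, ∀ z, γ z = τ z :=
  ⟨{ τ.toRingEquiv with commutes' := hτ }, fun _ => rfl⟩

omit [Algebra F K] [IsScalarTower F k K] in
theorem isGalois0 {t u : k} (hfin : FiniteDimensional (k0 F t u) k) :
    IsGalois (k0 F t u) (kbar k K) := by
  have h0 : CharZero (k0 F t u) :=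
    charZero_of_injective_algebraMap (algebraMap F (k0 F t u)).injective
  have h1 : Algebra.IsAlgebraic (k0 F t u) (kbar k K) :=
    Algebra.IsAlgebraic.trans (k0 F t u) k (kbar k K)
  have h2 : IsAlgClosure (k0 F t u) (kbar k K) := ⟨inferInstance, h1⟩
  have h3 : Normal (k0 F t u) (kbar k K) := IsAlgClosure.normal (k0 F t u) (kbar k K)
  exact ⟨⟩

/-- **The core theorem.** -/
theorem isGeometric_core [DecidableEq k]
    (hF : ∃ S : Finset F, Subfield.closure (S : Set F) = ⊤)
    {t u : k} (htu : AlgebraicIndependent F ![t, u]) (hfin : FiniteDimensional (k0 F t u) k)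
    {n j : ℕ} {f : k[X]} {c : k} {x y : K}
    (hn : 2 ≤ n) (hj : ¬ n ∣ j) (hdeg : 3 ≤ f.natDegree) (hs : f.Separable) (hc : c ≠ 0)
    {Δ : F[X][X]} (hΔ : GoodDisc Δ)
    (hgood : ∀ W : ValuationSubring (kbar k K),
      (∀ c : F, algebraMap k (kbar k K) (algebraMap F k c) ∈ W) →
      algebraMap k (kbar k K) t ∈ W → algebraMap k (kbar k K) u ∈ W →
      algebraMap k (kbar k K) (ev F t u Δ) ∉ W.nonunits →
      (∀ a ∈ goodElts f c, algebraMap k (kbar k K) a ∈ W) ∧
        ∀ τ : kbar k K ≃ₐ[k0 F t u] kbar k K, InInert W τ →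
          ∀ a : k, τ (algebraMap k (kbar k K) a) = algebraMap k (kbar k K) a)
    (hreg : ∀ τ : kbar k K ≃ₐ[k0 F t u] kbar k K, ∃ τ' ∈ (kM F K t u).fixingSubgroup,
      ∀ w ∈ algebraicClosure (IntermediateField.adjoin F {t0 F t u}) (kbar k K), τ' w = τ w)
    (hx : Transcendental k x) (hgen : IntermediateField.adjoin k {x, y} = ⊤)
    (heq : algebraMap k K (t ^ j * c) * y ^ n = aeval x f)
    (s : GaloisSection k K) : IsGeometric s := by
  have hk0 : CharZero k := charZero_of_injective_algebraMap (algebraMap F k).injective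
  have hgal := isGalois0 (K := K) hfin
  have ht0 : t ≠ 0 := by
    rintro rfl
    exact transc_F_t htu isAlgebraic_zero
  have hS : SuperE n f (t ^ j * c) x y :=
    ⟨hn, hdeg, hs, mul_ne_zero (pow_ne_zero _ ht0) hc, hx, heq, hgen⟩
  have hLu0 : CharZero (IntermediateField.adjoin F {u}) :=
    charZero_of_injective_algebraMap (algebraMap F (IntermediateField.adjoin F {u})).injective
  have hLt0 : CharZero (IntermediateField.adjoin F {t}) :=
    charZero_of_injective_algebraMap (algebraMap F (IntermediateField.adjoin F {t})).injective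
  have htu0 := algInd0 htu
  obtain ⟨W, hW0⟩ := exists_atZero (C := kbar k K) htu0
  have hW : AtZero F t u W := by
    refine ⟨fun c hc => ?_, hW0.t_mem⟩
    obtain ⟨c', rfl, hc'⟩ := mem_adjoin0 (F := F) (t := t) (u := u) (v := u)
      (v' := u0 F t u) rfl hc
    exact hW0.const c' hc'
  have hWtop : W ≠ ⊤ := by
    rintro rfl
    have h1 := hW.t_mem
    rw [ValuationSubring.mem_nonunits_iff_or] at h1
    rcases h1 with h1 | h1
    · rw [map_eq_zero] at h1
      exact ht0 h1
    · exact h1 trivial
  -- the bad place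
  obtain ⟨hgW, hinW⟩ := hgood W (fun c => hW.const _ (IntermediateField.algebraMap_mem _ c))
    (ValuationSubring.nonunits_subset hW.t_mem)
    (hW.const _ (IntermediateField.mem_adjoin_simple_self F u)) (atZero_unit htu hΔ hW)
  obtain ⟨hgr, hc1, hc2⟩ := goodRed_of_goodElts (by omega) hs hc hgW
  obtain ⟨P, hP, hP1, hPst, hPB⟩ := place_of_bad' (k₁ := IntermediateField.adjoin F {u}) s
    (fg_adjoin hF u) t (fin_adjoin0' hfin) hS hWtop (fun c => hW.const _ c.2) hgr hW.t_mem ht0
    (fun z hz => vals_of_inert (k := k0 F t u) (t0 F t u) (u0 F t u) htu0 (top0 t u) hW0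
      ((_root_.map_ne_zero (algebraMap k (kbar k K))).2 hz) (fun τ hτ => hinW τ hτ z))
    rfl hj hc1 hc2
  -- the stabilizer
  let H : Subgroup (kbar k K ≃ₐ[k0 F t u] kbar k K) :=
    (stabP s P).map (AlgEquiv.restrictScalarsHom (k0 F t u))
  have hmemH : ∀ τ : kbar k K ≃ₐ[k0 F t u] kbar k K, ∀ γ : Gk k K, (∀ z, γ z = τ z) →
      γ ∈ stabP s P → τ ∈ H := by
    intro τ γ h hγ
    exact ⟨γ, hγ, AlgEquiv.ext fun z => h z⟩
  have hH : H = (kM F K t u).fixingSubgroup := by
    refine lefschetz_gen hF (t0 F t u) (u0 F t u) htu0 (top0 t u) hΔ (kM F K t u) H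
      (isClosed_restrictScalars _ (isClosed_stabP s P)) ?_ hreg ?_ ?_ hW0 ?_
    · rintro τ ⟨γ, hγ, rfl⟩
      rw [IntermediateField.mem_fixingSubgroup_iff]
      rintro _ ⟨a, rfl⟩
      exact γ.commutes a
    · intro W' hW' τ hτ
      have hconst : ∀ c ∈ IntermediateField.adjoin F {t}, algebraMap k (kbar k K) c ∈ W' := by
        intro c hc
        obtain ⟨c', rfl, hc'⟩ := mem_adjoin0 (F := F) (t := t) (u := u) (v := t)
          (v' := t0 F t u) rfl hc
        exact hW'.const c' hc'
      have ht' : algebraMap k (kbar k K) t ∈ W' :=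
        hconst _ (IntermediateField.mem_adjoin_simple_self F t)
      have ht'' : algebraMap k (kbar k K) t ∉ W'.nonunits := by
        intro h1
        rw [ValuationSubring.mem_nonunits_iff_or] at h1
        rcases h1 with h1 | h1
        · rw [map_eq_zero] at h1
          exact ht0 h1
        · apply h1
          rw [← map_inv₀]
          exact hconst _ (inv_mem (IntermediateField.mem_adjoin_simple_self F t))
      have hunit : algebraMap k (kbar k K) (ev F t u Δ) ∉ W'.nonunits := by
        rw [← ev0]
        exact hW'.unit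
      obtain ⟨hg', hin'⟩ := hgood W' (fun c => hconst _ (IntermediateField.algebraMap_mem _ c)) ht'
        hW'.u_mem hunit
      obtain ⟨hgr', hc1', hc2'⟩ := goodRed_of_goodElts (by omega) hs hc hg'
      obtain ⟨γ, hγ⟩ := exists_gk (F := F) (hin' τ hτ)
      refine hmemH τ γ hγ fun z => ?_
      have hγI : InInert W' γ := by
        refine ⟨fun z => ?_, fun z hz => ?_⟩
        · rw [hγ]; exact hτ.1 z
        · rw [hγ]; exact hτ.2 z hz
      refine fixes_of_good' (k₁ := IntermediateField.adjoin F {t}) s (fg_adjoin hF t) u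
        (fin_adjoin0 hfin) hS hW'.ne_top (fun c => hconst _ c.2) hgr' ?_ ?_ hP hP1 hPB hγI z
      · rw [map_mul, map_pow]
        exact W'.mul_mem _ _ (pow_mem ht' _) hc1'
      · rw [map_mul, map_pow, ValuationSubring.mem_nonunits_iff, map_mul, not_lt]
        have h3 := pow_notMem_nonunits ht'' j
        rw [ValuationSubring.mem_nonunits_iff, not_lt] at h3 hc2'
        exact one_le_mul h3 hc2'
    · intro W' hW' τ hτ
      have hconst : ∀ c ∈ IntermediateField.adjoin F {u}, algebraMap k (kbar k K) c ∈ W' := by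
        intro c hc
        obtain ⟨c', rfl, hc'⟩ := mem_adjoin0 (F := F) (t := t) (u := u) (v := u)
          (v' := u0 F t u) rfl hc
        exact hW'.const c' hc'
      have hu' : algebraMap k (kbar k K) u ∈ W' :=
        hconst _ (IntermediateField.mem_adjoin_simple_self F u)
      have ht' : algebraMap k (kbar k K) t ∈ W' := hW'.t_mem
      have ht'' : algebraMap k (kbar k K) t ∉ W'.nonunits := hW'.t_unit
      have hunit : algebraMap k (kbar k K) (ev F t u Δ) ∉ W'.nonunits := by
        rw [← ev0]
        exact hW'.unit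
      obtain ⟨hg', hin'⟩ := hgood W' (fun c => hconst _ (IntermediateField.algebraMap_mem _ c)) ht'
        hu' hunit
      obtain ⟨hgr', hc1', hc2'⟩ := goodRed_of_goodElts (by omega) hs hc hg'
      obtain ⟨γ, hγ⟩ := exists_gk (F := F) (hin' τ hτ)
      refine hmemH τ γ hγ fun z => ?_
      have hγI : InInert W' γ := by
        refine ⟨fun z => ?_, fun z hz => ?_⟩
        · rw [hγ]; exact hτ.1 z
        · rw [hγ]; exact hτ.2 z hz
      refine fixes_of_good' (k₁ := IntermediateField.adjoin F {u}) s (fg_adjoin hF u) t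
        (fin_adjoin0' hfin) hS hW'.ne_top (fun c => hconst _ c.2) hgr' ?_ ?_ hP hP1 hPB hγI z
      · rw [map_mul, map_pow]
        exact W'.mul_mem _ _ (pow_mem ht' _) hc1'
      · rw [map_mul, map_pow, ValuationSubring.mem_nonunits_iff, map_mul, not_lt]
        have h3 := pow_notMem_nonunits ht'' j
        rw [ValuationSubring.mem_nonunits_iff, not_lt] at h3 hc2'
        exact one_le_mul h3 hc2'
    · intro τ hτ hτW
      rw [IntermediateField.mem_fixingSubgroup_iff] at hτ
      obtain ⟨γ, hγ⟩ := exists_gk (F := F) (fun a => hτ _ (mem_kM a))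
      refine hmemH τ γ hγ (hPst γ fun z => ?_)
      rw [hγ]; exact hτW z
  refine isGeometric_of_place hS.isFunctionField s hP hP1 fun γ z => ?_
  have h1 : AlgEquiv.restrictScalarsHom (k0 F t u) γ ∈ H := by
    rw [hH, IntermediateField.mem_fixingSubgroup_iff]
    rintro _ ⟨a, rfl⟩
    exact γ.commutes a
  obtain ⟨γ', hγ', h2⟩ := h1
  have h3 : γ' = γ := AlgEquiv.ext fun z => congrArg (fun φ : kbar k K ≃ₐ[k0 F t u] kbar k K => φ z) h2
  rw [← h3]
  exact hγ' z

end Core

end Pool.Agent.LT
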