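import Pool.Agent.Helper13.LT.L0b
import Pool.Agent.Helper26.VC.Main3

/-!
# Block G7: regularity over `F(t - α u)` for almost all `α`

`k` is a finite extension of `k₀ = F(t, u)` in which `F` is algebraically closed.

`mem_of_rational` (regular extensions stay regular): let `F ⊆ λ ⊆ C`, `F` algebraically closed in `λ`,
`v ∈ C` transcendental over `λ`.  An element `w` of `λ(v)` which is algebraic over `F(v)` is in `F(v)`.
First proof: `w = A(v)/B(v)`, `A, B ∈ λ[X]`.  Let `q ∈ F[X][Y]`, `q ≠ 0`, `q(v, w) = 0`, so
`q(X, A(X)/B(X)) = 0` in `λ(X)`.  For all but finitely many `a ∈ F` we may specialise `X ↦ a`: `w(a) = A(a)/B(a) ∈ λ`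
is a root of `q(a, Y) ≠ 0` over `F`, so it is algebraic over `F`, so in `F`.  Now linear algebra: the
coefficients of `A, B` are a solution over `λ`, with `B ≠ 0`, of the linear equations over `F`
`A(a) = w(a) B(a)` (infinitely many `a ∈ F`, degrees bounded); take an `F`-linear map `ℓ : λ → F` with
`ℓ(B) ≠ 0` (apply `ℓ` to the coefficients; `B` has a nonzero coefficient `b`, take `ℓ(b) = 1`): `ℓA(a) = w(a) ℓB(a)`, so
`ℓA(a) B(a) = ℓB(a) A(a)` for infinitely many `a`, so `ℓA · B = ℓB · A` and `w = ℓA(v)/ℓB(v) ∈ F(v)`.

`regular_generic`: for `α ∈ F` let `t_α = t - α u`, `λ_α` the algebraic closure of `F(t_α)` in `k` and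
`L_α = λ_α(u)`, an intermediate field of `k / k₀` (it contains `t_α` and `u`).  Claim: if `α ≠ α'` and `L_α = L_{α'}` then
`λ_{α'} = F(t_{α'})`.  Indeed `t_{α'} = t_α - (α' - α) u`, so `L_α = λ_α(t_{α'})`, and `t_{α'}` is transcendental over
`λ_α` (`t_α, t_{α'}` are algebraically independent over `F`); `λ_{α'} ⊆ L_{α'} = λ_α(t_{α'})` is algebraic over
`F(t_{α'})`, so equal to `F(t_{α'})` by `mem_of_rational` (`F` is algebraically closed in `λ_α ⊆ k`).
`k / k₀` is finite separable of degree `r`, so it has at most `2^r` intermediate fields (an intermediate field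
`L` is generated over `k₀` by the coefficients of the minimal polynomial over `L` of a primitive element `η`, which is
determined by its set of roots, a subset of the `r` roots of the minimal polynomial of `η` over `k₀` in an algebraic
closure), and the set of the `α` with `λ_α ≠ F(t_α)` injects into the set of the intermediate fields by `α ↦ L_α`.
(The bound is needed for the theorem on 100 percent of the twists.)
-/

universe u

namespace Pool.Agent.LT

open Polynomial

/-- An algebraic element over `F(v)` satisfies a polynomial equation over `F[v]`. -/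
theorem g7_exists_eqn {F C : Type u} [Field F] [Field C] [Algebra F C] {v w : C}
    (hw : IsAlgebraic (IntermediateField.adjoin F {v}) w) :
    ∃ Q : F[X][X], Q ≠ 0 ∧ Q.eval₂ (aeval v : F[X] →ₐ[F] C).toRingHom w = 0 := by
  rw [IntermediateField.isAlgebraic_adjoin_iff] at hw
  obtain ⟨p, hp0, hp⟩ := hw
  have h1 : ∀ y : Algebra.adjoin F {v}, ∃ q : F[X], aeval v q = (y : C) := by
    intro y
    have h2 : (y : C) ∈ (aeval v : F[X] →ₐ[F] C).range := by
      rw [← Algebra.adjoin_singleton_eq_range_aeval]
      exact y.2
    exact h2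
  let φ : F[X] →+* Algebra.adjoin F {v} :=
    ((aeval v : F[X] →ₐ[F] C) : F[X] →+* C).codRestrict (Algebra.adjoin F {v}).toSubring
      fun q => aeval_mem_adjoin_singleton F v
  have hφ : Function.Surjective φ := fun y => by
    obtain ⟨q, hq⟩ := h1 y
    exact ⟨q, Subtype.ext hq⟩
  obtain ⟨Q, hQ⟩ := Polynomial.map_surjective φ hφ p
  refine ⟨Q, ?_, ?_⟩
  · rintro rfl
    rw [Polynomial.map_zero] at hQ
    exact hp0 hQ.symm
  · rw [← hQ, aeval_def, eval₂_map] at hp
    exact hp

/-- coefficientwise application of a linear functional -/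
noncomputable def g7L {F A : Type u} [Field F] [Field A] [Algebra F A] (ℓ : A →ₗ[F] F)
    (p : A[X]) : F[X] := ∑ i ∈ Finset.range (p.natDegree + 1), monomial i (ℓ (p.coeff i))

theorem g7L_coeff {F A : Type u} [Field F] [Field A] [Algebra F A] (ℓ : A →ₗ[F] F) (p : A[X])
    (i : ℕ) : (g7L ℓ p).coeff i = ℓ (p.coeff i) := by
  rw [g7L, finsetSum_coeff]
  simp only [coeff_monomial]
  rw [Finset.sum_ite_eq']
  split_ifs with h
  · rfl
  · rw [Finset.mem_range, not_lt] at h
    rw [coeff_eq_zero_of_natDegree_lt (by omega), map_zero]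

theorem g7L_eval {F A : Type u} [Field F] [Field A] [Algebra F A] (ℓ : A →ₗ[F] F) (p : A[X])
    (a : F) : (g7L ℓ p).eval a = ℓ (p.eval (algebraMap F A a)) := by
  rw [g7L, eval_finsetSum, eval_eq_sum_range, map_sum]
  refine Finset.sum_congr rfl fun i _ => ?_
  rw [eval_monomial, ← map_pow, mul_comm (p.coeff i), ← Algebra.smul_def, map_smul, smul_eq_mul,
    mul_comm]

theorem mem_of_rational {F C : Type u} [Field F] [CharZero F] [Field C] [Algebra F C]
    (lam : IntermediateField F C) (hlam : ∀ z ∈ lam, IsAlgebraic F z → ∃ c : F, algebraMap F C c = z)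
    {v : C} (hv : Transcendental lam v) {w : C} (hw : w ∈ IntermediateField.adjoin lam {v})
    (hw' : IsAlgebraic (IntermediateField.adjoin F {v}) w) :
    w ∈ IntermediateField.adjoin F {v} := by
  classical
  obtain ⟨A, B, hAB⟩ := IntermediateField.mem_adjoin_simple_iff lam w |>.1 hw
  by_cases hB : B = 0
  · rw [hB, map_zero, div_zero] at hAB
    rw [hAB]
    exact zero_mem _
  have hinj : Function.Injective (aeval v : lam[X] →ₐ[lam] C) := transcendental_iff_injective.1 hv
  have hBv : aeval v B ≠ 0 := fun h => hB (hinj (h.trans (map_zero _).symm))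
  obtain ⟨Q, hQ0, hQ⟩ := g7_exists_eqn hw'
  -- the equation over `lam[X]`
  have hP : ∑ i ∈ Finset.range (Q.natDegree + 1), (Q.coeff i).map (algebraMap F lam) * A ^ i *
      B ^ (Q.natDegree - i) = 0 := by
    apply hinj
    rw [map_zero, map_sum]
    have h1 : ∀ i ∈ Finset.range (Q.natDegree + 1), aeval v ((Q.coeff i).map (algebraMap F lam) *
        A ^ i * B ^ (Q.natDegree - i)) = aeval v B ^ Q.natDegree *
          (aeval v (Q.coeff i) * w ^ i) := by
      intro i hi
      have hi' : i ≤ Q.natDegree := Nat.lt_succ_iff.1 (Finset.mem_range.1 hi)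
      rw [map_mul, map_mul, map_pow, map_pow, aeval_map_algebraMap, hAB, div_pow]
      obtain ⟨d, hd⟩ := Nat.exists_eq_add_of_le hi'
      have e1 : Q.natDegree - i = d := by omega
      rw [e1]
      have e2 : aeval v B ^ Q.natDegree = aeval v B ^ i * aeval v B ^ d := by
        rw [← pow_add, ← hd]
      rw [e2]
      have := pow_ne_zero i hBv
      field_simp
    rw [Finset.sum_congr rfl h1, ← Finset.mul_sum]
    rw [eval₂_eq_sum_range] at hQ
    have h2 : ∑ i ∈ Finset.range (Q.natDegree + 1), aeval v (Q.coeff i) * w ^ i = 0 := hQ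
    rw [h2, mul_zero]
  -- good points
  have hgood : ∀ a : F, B.eval (algebraMap F lam a) ≠ 0 → (Q.leadingCoeff).eval a ≠ 0 →
      ∃ c : F, A.eval (algebraMap F lam a) = algebraMap F lam c * B.eval (algebraMap F lam a) := by
    intro a ha ha'
    set β : lam := B.eval (algebraMap F lam a) with hβ
    set α : lam := A.eval (algebraMap F lam a) with hα
    have h1 := congrArg (eval (algebraMap F lam a)) hP
    rw [eval_finsetSum, eval_zero] at h1
    have h2 : ∀ i ∈ Finset.range (Q.natDegree + 1), eval (algebraMap F lam a)
        ((Q.coeff i).map (algebraMap F lam) * A ^ i * B ^ (Q.natDegree - i)) =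
          β ^ Q.natDegree * (algebraMap F lam ((Q.coeff i).eval a) * (α / β) ^ i) := by
      intro i hi
      have hi' : i ≤ Q.natDegree := Nat.lt_succ_iff.1 (Finset.mem_range.1 hi)
      rw [eval_mul, eval_mul, eval_pow, eval_pow, eval_map_algebraMap, ← hα, ← hβ, div_pow,
        aeval_algebraMap_apply, coe_aeval_eq_eval]
      obtain ⟨d, hd⟩ := Nat.exists_eq_add_of_le hi'
      have e1 : Q.natDegree - i = d := by omega
      rw [e1]
      have e2 : β ^ Q.natDegree = β ^ i * β ^ d := by
        rw [← pow_add, ← hd]
      rw [e2]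
      have := pow_ne_zero i ha
      field_simp
    rw [Finset.sum_congr rfl h2, ← Finset.mul_sum] at h1
    have h3 := (mul_eq_zero.mp h1).resolve_left (pow_ne_zero _ ha)
    have h4 : IsAlgebraic F (α / β) := by
      refine ⟨Q.map (evalRingHom a), ?_, ?_⟩
      · intro h0
        have h5 := congrArg (fun p => Polynomial.coeff p Q.natDegree) h0
        simp only [coeff_map, coeff_zero] at h5
        exact ha' h5
      · rw [aeval_def, eval₂_map, eval₂_eq_sum_range]
        exact h3
    have h5 : IsAlgebraic F ((α / β : lam) : C) := h4.algHom lam.val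
    obtain ⟨c, hc⟩ := hlam _ (α / β).2 h5
    refine ⟨c, ?_⟩
    have h6 : algebraMap F lam c = α / β := Subtype.ext hc
    rw [h6, div_mul_cancel₀ _ ha]
  -- the functional
  obtain ⟨ℓ, hℓ⟩ : ∃ ℓ : lam →ₗ[F] F, ℓ B.leadingCoeff ≠ 0 := by
    by_contra hcon
    push Not at hcon
    exact hB (leadingCoeff_eq_zero.1 ((Module.forall_dual_apply_eq_zero_iff F B.leadingCoeff).1
      hcon))
  have hLB : g7L ℓ B ≠ 0 := by
    intro h0
    apply hℓ
    have h1 := g7L_coeff ℓ B B.natDegree
    rw [h0, coeff_zero] at h1
    exact h1.symm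
  -- the polynomial identity
  have hR : A * (g7L ℓ B).map (algebraMap F lam) - B * (g7L ℓ A).map (algebraMap F lam) = 0 := by
    have hQl : Q.leadingCoeff ≠ 0 := leadingCoeff_ne_zero.2 hQ0
    have hQl' : (Q.leadingCoeff).map (algebraMap F lam) ≠ 0 :=
      (Polynomial.map_ne_zero_iff (algebraMap F lam).injective).2 hQl
    have h1 : (A * (g7L ℓ B).map (algebraMap F lam) - B * (g7L ℓ A).map (algebraMap F lam)) *
        B * (Q.leadingCoeff).map (algebraMap F lam) = 0 := by
      apply eq_zero_of_infinite_isRoot
      refine Set.Infinite.mono (s := Set.range (algebraMap F lam)) ?_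
        (Set.infinite_range_of_injective (algebraMap F lam).injective)
      rintro _ ⟨a, rfl⟩
      change eval _ _ = 0
      rw [eval_mul, eval_mul]
      by_cases ha : B.eval (algebraMap F lam a) = 0
      · rw [ha, mul_zero, zero_mul]
      by_cases ha' : (Q.leadingCoeff).eval a = 0
      · rw [eval_map_algebraMap, aeval_algebraMap_apply, coe_aeval_eq_eval, ha', map_zero,
          mul_zero]
      obtain ⟨c, hc⟩ := hgood a ha ha'
      have h2 : (g7L ℓ A).eval a = c * (g7L ℓ B).eval a := by
        rw [g7L_eval, g7L_eval, hc, ← Algebra.smul_def, map_smul, smul_eq_mul]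
      have h3 : ∀ p : F[X], eval (algebraMap F lam a) (p.map (algebraMap F lam)) =
          algebraMap F lam (p.eval a) := by
        intro p
        rw [eval_map_algebraMap, aeval_algebraMap_apply, coe_aeval_eq_eval]
      rw [eval_sub, eval_mul, eval_mul, h3, h3, h2, hc, map_mul]
      ring
    exact (mul_eq_zero.mp ((mul_eq_zero.mp h1).resolve_right hQl')).resolve_right hB
  have hLBv : aeval v (g7L ℓ B) ≠ 0 := by
    intro h0
    apply hLB
    have h1 : aeval v ((g7L ℓ B).map (algebraMap F lam)) = 0 := by
      rw [aeval_map_algebraMap, h0]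
    have h2 := hinj (h1.trans (map_zero _).symm)
    exact (Polynomial.map_eq_zero_iff (algebraMap F lam).injective).1 h2
  have hfin : w = aeval v (g7L ℓ A) / aeval v (g7L ℓ B) := by
    have h1 := congrArg (aeval v) hR
    rw [map_sub, map_mul, map_mul, aeval_map_algebraMap, aeval_map_algebraMap, map_zero] at h1
    rw [hAB, div_eq_div_iff hBv hLBv]
    linear_combination h1
  rw [hfin]
  exact div_mem (IntermediateField.algebra_adjoin_le_adjoin F _ (aeval_mem_adjoin_singleton F v))
    (IntermediateField.algebra_adjoin_le_adjoin F _ (aeval_mem_adjoin_singleton F v))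

/-- the roots of the minimal polynomial of `η` over the intermediate field `N` -/
noncomputable def g7R {A C : Type u} [Field A] [Field C] [Algebra A C] (η : C)
    (N : IntermediateField A C) : Finset (AlgebraicClosure C) := by
  classical
  exact ((minpoly N η).map (algebraMap N (AlgebraicClosure C))).roots.toFinset

theorem g7R_subset {A C : Type u} [Field A] [CharZero A] [Field C] [Algebra A C]
    [FiniteDimensional A C] (η : C) (N : IntermediateField A C) :
    g7R η N ⊆ g7R η (⊥ : IntermediateField A C) := by
  classical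
  intro z hz
  rw [g7R, Multiset.mem_toFinset, mem_roots', IsRoot.def, eval_map] at hz ⊢
  refine ⟨Polynomial.map_ne_zero (minpoly.ne_zero (Algebra.IsIntegral.isIntegral _)), ?_⟩
  have h1 : minpoly N η ∣ (minpoly (⊥ : IntermediateField A C) η).map
      (IntermediateField.inclusion (bot_le : ⊥ ≤ N)).toRingHom := by
    apply minpoly.dvd
    rw [aeval_def, eval₂_map]
    exact minpoly.aeval (⊥ : IntermediateField A C) η
  obtain ⟨q, hq⟩ := h1
  have h2 : eval₂ (algebraMap N (AlgebraicClosure C)) z
      ((minpoly (⊥ : IntermediateField A C) η).map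
        (IntermediateField.inclusion (bot_le : ⊥ ≤ N)).toRingHom) = 0 := by
    rw [hq, eval₂_mul, hz.2, zero_mul]
  rw [eval₂_map] at h2
  exact h2

theorem g7R_card {A C : Type u} [Field A] [CharZero A] [Field C] [Algebra A C]
    [FiniteDimensional A C] (η : C) :
    (g7R η (⊥ : IntermediateField A C)).card ≤ Module.finrank A C := by
  classical
  have h1 : (g7R η (⊥ : IntermediateField A C)).card ≤
      (minpoly (⊥ : IntermediateField A C) η).natDegree := by
    refine (Multiset.toFinset_card_le _).trans ((card_roots' _).trans ?_)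
    exact natDegree_map_le
  refine h1.trans ?_
  refine (minpoly.natDegree_le η).trans (le_of_eq ?_)
  exact IntermediateField.finrank_bot' 

theorem g7R_inj {A C : Type u} [Field A] [CharZero A] [Field C] [Algebra A C]
    [FiniteDimensional A C] (η : C) (hη : IntermediateField.adjoin A {η} = ⊤)
    (N N' : IntermediateField A C) (h : g7R η N = g7R η N') : N = N' := by
  classical
  have key : ∀ N : IntermediateField A C, ((minpoly N η).map (algebraMap N C)).map
      (algebraMap C (AlgebraicClosure C)) = ∏ a ∈ g7R η N, (X - Polynomial.C a) := by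
    intro N
    have hc : CharZero N := charZero_of_injective_algebraMap (algebraMap A N).injective
    have h1 : (minpoly N η).Separable :=
      (minpoly.irreducible (Algebra.IsIntegral.isIntegral η)).separable
    rw [Polynomial.map_map, ← IsScalarTower.algebraMap_eq]
    have h2 : ((minpoly N η).map (algebraMap N (AlgebraicClosure C))).Splits :=
      IsAlgClosed.splits _
    have h3 : ((minpoly N η).map (algebraMap N (AlgebraicClosure C))).roots.Nodup :=
      nodup_roots (h1.map)
    have h4 : ((minpoly N η).map (algebraMap N (AlgebraicClosure C))).Monic :=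
      (minpoly.monic (Algebra.IsIntegral.isIntegral η)).map _
    have h5 := h2.eq_prod_roots_of_monic h4
    rw [g7R, Finset.prod, Multiset.toFinset_val, Multiset.dedup_eq_self.2 h3]
    exact h5
  have h1 : (minpoly N η).map (algebraMap N C) = (minpoly N' η).map (algebraMap N' C) := by
    apply Polynomial.map_injective _ (algebraMap C (AlgebraicClosure C)).injective
    rw [key, key, h]
  have h2 := IntermediateField.adjoin_minpoly_coeff_of_exists_primitive_element A hη N
  have h3 := IntermediateField.adjoin_minpoly_coeff_of_exists_primitive_element A hη N'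
  rw [← h2, h1, h3]

theorem g7_algInd {F k : Type u} [Field F] [Field k] [Algebra F k] {t u : k}
    (htu : AlgebraicIndependent F ![t, u]) (α : F) :
    AlgebraicIndependent F ![t - algebraMap F k α * u, u] := by
  rw [algebraicIndependent_iff_injective_aeval] at htu ⊢
  let φ : MvPolynomial (Fin 2) F →ₐ[F] MvPolynomial (Fin 2) F :=
    MvPolynomial.aeval ![MvPolynomial.X 0 - MvPolynomial.C α * MvPolynomial.X 1, MvPolynomial.X 1]
  let ψ : MvPolynomial (Fin 2) F →ₐ[F] MvPolynomial (Fin 2) F :=
    MvPolynomial.aeval ![MvPolynomial.X 0 + MvPolynomial.C α * MvPolynomial.X 1, MvPolynomial.X 1]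
  have h1 : ψ.comp φ = AlgHom.id F _ := by
    apply MvPolynomial.algHom_ext
    intro i
    fin_cases i
    · simp [φ, ψ, MvPolynomial.algebraMap_eq]
    · simp [φ, ψ]
  have h2 : Function.Injective φ := by
    have h3 : Function.LeftInverse ψ φ := fun p => by
      have := congrArg (fun g => g p) h1
      exact this
    exact h3.injective
  have h3 : (MvPolynomial.aeval ![t - algebraMap F k α * u, u] : MvPolynomial (Fin 2) F →ₐ[F] k) =
      (MvPolynomial.aeval ![t, u]).comp φ := by
    apply MvPolynomial.algHom_ext
    intro i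
    fin_cases i
    · simp [φ]
    · simp [φ]
  rw [h3]
  exact htu.comp h2

theorem regular_generic {F k : Type u} [Field F] [CharZero F] [Field k] [Algebra F k] {t u : k}
    (htu : AlgebraicIndependent F ![t, u])
    (hfin : FiniteDimensional (IntermediateField.adjoin F {t, u}) k)
    (hF : ∀ z : k, IsAlgebraic F z → ∃ c : F, algebraMap F k c = z) :
    ∃ S : Finset F, S.card ≤ 2 ^ Module.finrank (IntermediateField.adjoin F {t, u}) k ∧
      ∀ α ∉ S, ∀ z : k, IsAlgebraic (IntermediateField.adjoin F {t - algebraMap F k α * u}) z →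
        z ∈ IntermediateField.adjoin F {t - algebraMap F k α * u} := by
  classical
  set k₀ := IntermediateField.adjoin F {t, u} with hk₀
  have hc0 : CharZero k₀ := charZero_of_injective_algebraMap (algebraMap F k₀).injective
  obtain ⟨η, hη⟩ := Field.exists_primitive_element k₀ k
  let s : F → k := fun α => t - algebraMap F k α * u
  let lam : F → IntermediateField F k := fun α =>
    (algebraicClosure (IntermediateField.adjoin F {s α}) k).restrictScalars F
  have hlam : ∀ α z, z ∈ lam α ↔ IsAlgebraic (IntermediateField.adjoin F {s α}) z := by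
    intro α z
    rw [IntermediateField.mem_restrictScalars, mem_algebraicClosure_iff]
  let N : F → IntermediateField k₀ k := fun α => IntermediateField.adjoin k₀ (lam α : Set k)
  let bad : Set F := {α | ∃ z, z ∈ lam α ∧ z ∉ IntermediateField.adjoin F {s α}}
  have hmaps : Set.MapsTo (fun α => g7R η (N α)) bad
      ((g7R η (⊥ : IntermediateField k₀ k)).powerset : Set (Finset (AlgebraicClosure k))) := by
    intro α _
    rw [Finset.mem_coe, Finset.mem_powerset]
    exact g7R_subset η _
  have hinj : Set.InjOn (fun α => g7R η (N α)) bad := by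
    intro α hα α' hα' heq
    by_contra hne
    have hN : N α = N α' := g7R_inj η hη _ _ heq
    obtain ⟨z, hz, hz'⟩ := hα'
    apply hz'
    -- `t_{α'}` is transcendental over `lam α`
    have hsα : s α ∈ lam α := by
      rw [hlam]
      exact isAlgebraic_algebraMap (⟨s α, IntermediateField.mem_adjoin_simple_self _ _⟩ :
        IntermediateField.adjoin F {s α})
    have hdiff : s α - s α' = algebraMap F k (α' - α) * u := by
      simp only [s]
      rw [map_sub]
      ring
    have hne' : algebraMap F k (α' - α) ≠ 0 := by
      rw [Ne, map_eq_zero, sub_eq_zero]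
      exact fun h => hne h.symm
    have htr : Transcendental (lam α) (s α') := by
      intro hal
      have halg : Algebra.IsAlgebraic (IntermediateField.adjoin F {s α})
          (algebraicClosure (IntermediateField.adjoin F {s α}) k) := inferInstance
      have h1 : IsAlgebraic (algebraicClosure (IntermediateField.adjoin F {s α}) k) (s α') := hal
      have h2 : IsAlgebraic (IntermediateField.adjoin F {s α}) (s α') := h1.restrictScalars _
      have h3 : IsAlgebraic (IntermediateField.adjoin F {s α}) (s α) := (hlam α _).1 hsα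
      have h4 : IsAlgebraic (IntermediateField.adjoin F {s α}) u := by
        have h5 : u = (algebraMap F k (α' - α))⁻¹ * (s α - s α') := by
          rw [hdiff, ← mul_assoc, inv_mul_cancel₀ hne', one_mul]
        rw [h5, ← map_inv₀]
        have h6 : IsAlgebraic (IntermediateField.adjoin F {s α})
            (algebraMap F k (α' - α)⁻¹) :=
          isAlgebraic_algebraMap (algebraMap F (IntermediateField.adjoin F {s α}) (α' - α)⁻¹)
        exact h6.mul (h3.sub h2)
      exact transc_u (g7_algInd htu α) h4
    -- `z ∈ lam α (s α')`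
    have hzN : z ∈ N α := by
      rw [hN]
      exact IntermediateField.subset_adjoin _ _ hz
    have hz1 : z ∈ IntermediateField.adjoin (lam α) {s α'} := by
      set T := IntermediateField.adjoin (lam α) {s α'} with hT
      have hF1 : ∀ c : F, algebraMap F k c ∈ T := fun c =>
        T.algebraMap_mem (algebraMap F (lam α) c)
      have hs1 : s α' ∈ T := IntermediateField.mem_adjoin_simple_self _ _
      have hs2 : ∀ y ∈ lam α, y ∈ T := fun y hy => T.algebraMap_mem ⟨y, hy⟩
      have hu1 : u ∈ T := by
        have h5 : u = (algebraMap F k (α' - α))⁻¹ * (s α - s α') := by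
          rw [hdiff, ← mul_assoc, inv_mul_cancel₀ hne', one_mul]
        rw [h5]
        exact mul_mem (inv_mem (hF1 _)) (sub_mem (hs2 _ hsα) hs1)
      have ht1 : t ∈ T := by
        have h5 : t = s α + algebraMap F k α * u := by
          simp only [s]; ring
        rw [h5]
        exact add_mem (hs2 _ hsα) (mul_mem (hF1 _) hu1)
      have hk1 : ∀ y ∈ k₀, y ∈ T := by
        have h5 : k₀ ≤ T.restrictScalars F := by
          rw [hk₀, IntermediateField.adjoin_le_iff]
          rintro y (rfl | hy)
          · exact ht1
          · rw [Set.mem_singleton_iff.1 hy]; exact hu1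
        exact fun y hy => h5 hy
      have h6 : N α ≤ { T.toSubfield with algebraMap_mem' := fun y => hk1 _ y.2 } := by
        rw [IntermediateField.adjoin_le_iff]
        intro y hy
        exact hs2 y hy
      exact h6 hzN
    exact mem_of_rational (lam α) (fun z _ hz => hF z hz) htr hz1 ((hlam α' z).1 hz)
  have hfinbad : bad.Finite := Set.Finite.of_injOn hmaps hinj (Finset.finite_toSet _)
  refine ⟨hfinbad.toFinset, ?_, ?_⟩
  · have h1 : hfinbad.toFinset.card ≤ ((g7R η (⊥ : IntermediateField k₀ k)).powerset).card := by
      refine Finset.card_le_card_of_injOn (fun α => g7R η (N α)) ?_ ?_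
      · intro α hα
        exact hmaps (hfinbad.mem_toFinset.1 hα)
      · intro α hα α' hα' h
        exact hinj (hfinbad.mem_toFinset.1 hα) (hfinbad.mem_toFinset.1 hα') h
    rw [Finset.card_powerset] at h1
    exact h1.trans (Nat.pow_le_pow_right (by norm_num) (g7R_card η))
  · intro α hα z hz
    by_contra hcon
    exact hα (hfinbad.mem_toFinset.2 ⟨z, (hlam α z).2 hz, hcon⟩)

end Pool.Agent.LT
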