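import Pool.Agent.Helper13.LG.G4
import Pool.Agent.Helper13.LT.F5

/-!
# Block G9: denominators

`k₀ = F(t, u)`, `k` a finite extension of `k₀`, `S` a finite subset of `k`.

Proof.  Let `A₀ = F[t, u]` (the image of `ev`), a subring of `k₀` with fraction field `k₀`.  `k = k₀(η)`
with `η` integral over `A₀` (primitive element theorem, multiply by a denominator), `p ∈ F[X][X][X]` monic
such that the image `p₁ = p.map (ev F t u)` is the minimal polynomial of `η` over `k₀` (`F[X][X]` is
integrally closed: `minpoly.isIntegrallyClosed_eq_field_fractions`; or take `p₁` monic with separable image and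
unrelated to the minimal polynomial: any monic `p` over `A₀` with `p(η) = 0` and nonzero discriminant).  Each `a ∈ S` is a
polynomial in `η` over `k₀`; multiplied by a nonzero `D_a ∈ F[X][X]` it is a polynomial in `η` over `A₀`.
`D = discr(p) · ∏_a D_a` (nonzero).  Let `W` be as in the theorem.  All elements of `A₀` are in `W`, so
`η ∈ W`; `D` is a unit of `W`, so `D_a` and `discr p` are units (divisors of a unit with quotient in `W`;
see `notMem_nonunits_of_mul` in `LT/F5.lean`), hence `a ∈ W`.  By G4 (`inert_fixes_root`, with the field `k₀`) `τ η = η` for `τ` in the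
inertia group, so `τ` is trivial on `k = k₀(η)`.  (`discr` of the image: `discr_map_of_injective`, `ev_injective` in `LT/F5.lean`;
you can import `LT/F5.lean` or copy.)
-/

universe u

namespace Pool.Agent.LT

open Polynomial Pool.Agent.SC

/-- Values of `ev` are in a valuation ring which contains the constants, `t` and `u`. -/
private theorem ev_mem37 {F k₀ C : Type u} [Field F] [Field k₀] [Field C] [Algebra F k₀]
    [Algebra k₀ C] {t u : k₀} {W : ValuationSubring C}
    (hF : ∀ c : F, algebraMap k₀ C (algebraMap F k₀ c) ∈ W) (ht : algebraMap k₀ C t ∈ W)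
    (hu : algebraMap k₀ C u ∈ W) (P : F[X][X]) : algebraMap k₀ C (ev F t u P) ∈ W := by
  have h1 : ∀ q : F[X], algebraMap k₀ C (aeval t q) ∈ W := by
    intro q
    induction q using Polynomial.induction_on' with
    | add a b ha hb => rw [map_add, map_add]; exact W.add_mem _ _ ha hb
    | monomial n a =>
      rw [aeval_monomial, map_mul, map_pow]
      exact W.mul_mem _ _ (hF a) (pow_mem ht n)
  induction P using Polynomial.induction_on' with
  | add a b ha hb => rw [map_add, map_add]; exact W.add_mem _ _ ha hb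
  | monomial n a =>
    rw [← C_mul_X_pow_eq_monomial, map_mul, map_pow, ev_C, ev_X, map_mul, map_pow]
    exact W.mul_mem _ _ (h1 a) (pow_mem hu n)

/-- `F(t, u)` is the fraction field of `F[X][X]`. -/
private theorem ev_frac37 {F k₀ : Type u} [Field F] [Field k₀] [Algebra F k₀] (t u : k₀)
    (htu : AlgebraicIndependent F ![t, u])
    (htop : IntermediateField.adjoin F {t, u} = ⊤) :
    @IsFractionRing F[X][X] _ k₀ _ (ev F t u).toAlgebra := by
  let _ : Algebra F[X][X] k₀ := (ev F t u).toAlgebra
  have halg : ∀ P : F[X][X], algebraMap F[X][X] k₀ P = ev F t u P := fun _ => rfl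
  have hinj : Function.Injective (algebraMap F[X][X] k₀) := ev_injective htu
  have : FaithfulSMul F[X][X] k₀ := (faithfulSMul_iff_algebraMap_injective _ _).2 hinj
  -- the subfield of fractions
  have hall : ∀ x : k₀, ∃ a b : F[X][X], b ≠ 0 ∧ x = ev F t u a / ev F t u b := by
    intro x
    have hx : x ∈ IntermediateField.adjoin F {t, u} := by rw [htop]; trivial
    have hne : ∀ b : F[X][X], b ≠ 0 → ev F t u b ≠ 0 := fun b hb h =>
      hb (hinj (by rw [halg, halg, h, map_zero]))
    induction hx using IntermediateField.adjoin_induction with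
    | mem x hx =>
      rcases hx with rfl | hx
      · exact ⟨C X, 1, one_ne_zero, by rw [ev_C, aeval_X, map_one, div_one]⟩
      · rw [Set.mem_singleton_iff] at hx
        subst hx
        exact ⟨X, 1, one_ne_zero, by rw [ev_X, map_one, div_one]⟩
    | algebraMap c =>
      exact ⟨C (C c), 1, one_ne_zero, by rw [ev_C, aeval_C, map_one, div_one]⟩
    | add x y _ _ hx hy =>
      obtain ⟨a, b, hb, rfl⟩ := hx
      obtain ⟨a', b', hb', rfl⟩ := hy
      refine ⟨a * b' + b * a', b * b', mul_ne_zero hb hb', ?_⟩
      rw [div_add_div _ _ (hne b hb) (hne b' hb'), map_add, map_mul, map_mul, map_mul]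
    | inv x _ hx =>
      obtain ⟨a, b, hb, rfl⟩ := hx
      by_cases ha : a = 0
      · subst ha
        exact ⟨0, 1, one_ne_zero, by simp⟩
      · exact ⟨b, a, ha, by rw [inv_div]⟩
    | mul x y _ _ hx hy =>
      obtain ⟨a, b, hb, rfl⟩ := hx
      obtain ⟨a', b', hb', rfl⟩ := hy
      refine ⟨a * a', b * b', mul_ne_zero hb hb', ?_⟩
      rw [div_mul_div_comm, map_mul, map_mul]
  exact IsFractionRing.of_field _ _ fun x => by
    obtain ⟨a, b, _, rfl⟩ := hall x
    exact ⟨a, b, rfl⟩

theorem exists_denominator {F k₀ k : Type u} [Field F] [CharZero F] [Field k₀] [Field k]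
    [Algebra F k₀] [Algebra k₀ k] [FiniteDimensional k₀ k] (t u : k₀)
    (htu : AlgebraicIndependent F ![t, u])
    (htop : IntermediateField.adjoin F {t, u} = ⊤) (S : Finset k) :
    ∃ D : F[X][X], D ≠ 0 ∧ ∀ (C : Type u) [Field C] [Algebra k C] [Algebra k₀ C]
      [IsScalarTower k₀ k C] (W : ValuationSubring C),
      (∀ c : F, algebraMap k₀ C (algebraMap F k₀ c) ∈ W) → algebraMap k₀ C t ∈ W →
      algebraMap k₀ C u ∈ W → algebraMap k₀ C (ev F t u D) ∉ W.nonunits →
      (∀ a ∈ S, algebraMap k C a ∈ W) ∧
        ∀ τ : C ≃ₐ[k₀] C, InInert W τ → ∀ a : k, τ (algebraMap k C a) = algebraMap k C a := by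
  classical
  have : CharZero k₀ := charZero_of_injective_algebraMap (algebraMap F k₀).injective
  let algR : Algebra F[X][X] k₀ := (ev F t u).toAlgebra
  let algk : Algebra F[X][X] k := ((algebraMap k₀ k).comp (ev F t u)).toAlgebra
  have : IsScalarTower F[X][X] k₀ k := IsScalarTower.of_algebraMap_eq fun _ => rfl
  have halg : ∀ P : F[X][X], algebraMap F[X][X] k₀ P = ev F t u P := fun _ => rfl
  have hfr : IsFractionRing F[X][X] k₀ := ev_frac37 t u htu htop
  have hinj : Function.Injective (ev F t u) := ev_injective htu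
  -- a primitive element, integral over `F[X][X]`
  obtain ⟨θ, hθ⟩ := Field.exists_primitive_element k₀ k
  have hθi : IsAlgebraic F[X][X] θ :=
    (IsFractionRing.isAlgebraic_iff F[X][X] k₀ k).2 (Algebra.IsAlgebraic.isAlgebraic θ)
  obtain ⟨d, hd0, hη⟩ := hθi.exists_integral_multiple
  obtain ⟨η, hηdef⟩ : ∃ η : k, η = d • θ := ⟨_, rfl⟩
  rw [← hηdef] at hη
  have hdne : ev F t u d ≠ 0 := fun h => hd0 (hinj (by rw [h, map_zero]))
  have hηtop : IntermediateField.adjoin k₀ {η} = ⊤ := by
    rw [eq_top_iff, ← hθ, IntermediateField.adjoin_simple_le_iff]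
    have h1 : θ = (ev F t u d)⁻¹ • η := by
      rw [hηdef, ← algebraMap_smul k₀ d θ, halg, inv_smul_smul₀ hdne]
    rw [h1]
    exact IntermediateField.smul_mem _ (IntermediateField.mem_adjoin_simple_self k₀ η)
  have hpm : (minpoly F[X][X] η).Monic := minpoly.monic hη
  have hpmap : minpoly k₀ η = (minpoly F[X][X] η).map (ev F t u) :=
    minpoly.isIntegrallyClosed_eq_field_fractions k₀ k hη
  obtain ⟨p, hp⟩ : ∃ p, p = minpoly F[X][X] η := ⟨_, rfl⟩
  rw [← hp] at hpm hpmap
  have hdeg : 0 < p.natDegree := by rw [hp]; exact minpoly.natDegree_pos hη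
  have hdisc : p.discr ≠ 0 := by
    intro h0
    have h1 : (minpoly k₀ η).discr = 0 := by
      rw [hpmap, discr_map_of_injective _ hinj _ hdeg, h0, map_zero]
    have hi : IsIntegral k₀ η := Algebra.IsIntegral.isIntegral η
    have h2 := resultant_deriv (f := minpoly k₀ η) (minpoly.degree_pos hi)
    have h3 : (minpoly k₀ η).derivative.natDegree = (minpoly k₀ η).natDegree - 1 :=
      natDegree_derivative _
    rw [h1, mul_zero, ← h3, resultant_eq_zero_iff] at h2
    exact h2.2 (minpoly.irreducible hi).separable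
  -- elements of `k` as polynomials in `η`
  have hpoly : ∀ a : k, ∃ q : k₀[X], aeval η q = a := by
    intro a
    have h1 : a ∈ IntermediateField.adjoin k₀ {η} := by rw [hηtop]; trivial
    rw [← IntermediateField.mem_toSubalgebra,
      IntermediateField.adjoin_simple_toSubalgebra_of_isAlgebraic
        (Algebra.IsAlgebraic.isAlgebraic η), Algebra.adjoin_singleton_eq_range_aeval] at h1
    exact h1
  have hden : ∀ a : k, ∃ (Da : F[X][X]) (r : F[X][X][X]), Da ≠ 0 ∧ Da • a = aeval η r := by
    intro a
    obtain ⟨q, rfl⟩ := hpoly a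
    obtain ⟨b, hb0, hb⟩ := IsLocalization.integerNormalization_spec (nonZeroDivisors F[X][X]) q
    refine ⟨b, IsLocalization.integerNormalization (nonZeroDivisors F[X][X]) q,
      nonZeroDivisors.ne_zero hb0, ?_⟩
    rw [← aeval_map_algebraMap k₀ η (IsLocalization.integerNormalization _ q), hb]
    exact ((aeval η : k₀[X] →ₐ[k₀] k).toLinearMap.map_smul_of_tower b q).symm
  choose Dn r hDn0 hDn using hden
  refine ⟨p.discr * ∏ a ∈ S, Dn a, mul_ne_zero hdisc (Finset.prod_ne_zero_iff.2 fun a _ => hDn0 a),
    ?_⟩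
  intro K _ _ _ _ W hF ht hu hD
  have hmem : ∀ P : F[X][X], algebraMap k₀ K (ev F t u P) ∈ W := ev_mem37 hF ht hu
  have hle : ∀ P : F[X][X], W.valuation (algebraMap k₀ K (ev F t u P)) ≤ 1 := fun P =>
    (W.valuation_le_one_iff _).2 (hmem P)
  have hdvd : ∀ P Q : F[X][X], P * Q = p.discr * ∏ a ∈ S, Dn a →
      W.valuation (algebraMap k₀ K (ev F t u P)) = 1 := by
    intro P Q hPQ
    refine le_antisymm (hle P) ?_
    rw [W.mem_nonunits_iff, not_lt, ← hPQ, map_mul, map_mul, map_mul] at hD
    exact hD.trans (mul_le_of_le_one_right' (hle Q))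
  have hpK : ∀ x : k₀, algebraMap k K (algebraMap k₀ k x) = algebraMap k₀ K x := fun x =>
    (IsScalarTower.algebraMap_apply k₀ k K x).symm
  -- `η` is in `W`
  have hroot : aeval (algebraMap k K η) (p.map (ev F t u)) = 0 := by
    rw [← hpmap, aeval_algebraMap_apply, minpoly.aeval, map_zero]
  have hηW : algebraMap k K η ∈ W := by
    let κ : F[X][X] →+* W := ((algebraMap k₀ K).comp (ev F t u)).codRestrict W.toSubring hmem
    have h1 : IsIntegral W (algebraMap k K η) := by
      refine ⟨p.map κ, hpm.map _, ?_⟩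
      rw [eval₂_map]
      have h2 : (algebraMap W K).comp κ = (algebraMap k₀ K).comp (ev F t u) := rfl
      rw [h2, ← eval₂_map]
      exact hroot
    obtain ⟨y, hy⟩ := IsIntegrallyClosed.isIntegral_iff.1 h1
    rw [← hy]
    exact y.2
  have hrW : ∀ r : F[X][X][X], algebraMap k K (aeval η r) ∈ W := by
    intro r
    induction r using Polynomial.induction_on' with
    | add a b ha hb => rw [map_add, map_add]; exact W.add_mem _ _ ha hb
    | monomial n a =>
      rw [aeval_monomial, map_mul, map_pow]
      refine W.mul_mem _ _ ?_ (pow_mem hηW n)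
      have h1 : algebraMap k K (algebraMap F[X][X] k a) = algebraMap k₀ K (ev F t u a) := hpK _
      rw [h1]
      exact hmem a
  refine ⟨fun a ha => ?_, fun τ hτ a => ?_⟩
  · have h1 : algebraMap k₀ K (ev F t u (Dn a)) * algebraMap k K a =
        algebraMap k K (aeval η (r a)) := by
      rw [← hDn, Algebra.smul_def, map_mul]
      congr 1
      exact (hpK _).symm
    have h2 : W.valuation (algebraMap k₀ K (ev F t u (Dn a))) = 1 := by
      refine hdvd (Dn a) (p.discr * ∏ b ∈ S.erase a, Dn b) ?_
      rw [← Finset.mul_prod_erase S Dn ha]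
      ring
    rw [← W.valuation_le_one_iff]
    have h3 : W.valuation (algebraMap k K (aeval η (r a))) ≤ 1 :=
      (W.valuation_le_one_iff _).2 (hrW _)
    rw [← h1, map_mul, h2, one_mul] at h3
    exact h3
  · have h1 : τ (algebraMap k K η) = algebraMap k K η := by
      refine inert_fixes_root (W := W) (p := p.map (ev F t u)) (hpm.map _) (fun i => ?_) ?_ hroot hτ
      · rw [coeff_map]
        exact hmem _
      · rw [discr_map_of_injective _ hinj _ hdeg, W.mem_nonunits_iff,
          hdvd p.discr (∏ a ∈ S, Dn a) rfl]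
        exact lt_irrefl _
    obtain ⟨q, rfl⟩ := hpoly a
    rw [← aeval_algebraMap_apply, ← aeval_algHom_apply, h1]

end Pool.Agent.LT
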