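import Mathlib
import Pool.Agent.SC.DefsP

/-!
# Block G4: inertia fixes the roots of polynomials with unit discriminant

Proof.  `η` is integral over `W`, so `η ∈ W`, and `δ = τ η - η ∈ 𝔪`.  By
`Polynomial.exists_mul_add_mul_eq_C_resultant` and `Polynomial.resultant_deriv` there are polynomials
`a, b` over the ring generated by the coefficients of `p` (apply the Mathlib theorem over the
subring `{c : k | c ∈ W}` of `k`, i.e. `W.comap (algebraMap k C)`, to the lift of `p`) with
`a p + b p' = ± disc p`.  At `η`: `b(η) p'(η) = ± disc p`, a unit, so `p'(η)` is a unit of `W`.  Taylor: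
`0 = p(η + δ) = p(η) + δ p'(η) + δ² w = δ (p'(η) + δ w)` with `w ∈ W`, and the second factor is a unit.
If `p` has degree `0` or `1` the claim is trivial (`p = 1` has no root; `η ∈ k`).
-/

universe u

namespace Pool.Agent.LT

open Polynomial Pool.Agent.SC

theorem inert_fixes_root {k C : Type u} [Field k] [Field C] [Algebra k C]
    {W : ValuationSubring C} {p : k[X]} (hp : p.Monic)
    (hpW : ∀ i, algebraMap k C (p.coeff i) ∈ W) (hd : algebraMap k C p.discr ∉ W.nonunits)
    {η : C} (hη : aeval η p = 0) {τ : C ≃ₐ[k] C} (hτ : InInert W τ) : τ η = η := by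
  -- the valuation ring of `k` and the lift of `p`
  set A : ValuationSubring k := W.comap (algebraMap k C) with hA
  have hl : p ∈ lifts A.subtype := by
    rw [lifts_iff_coeff_lifts]
    exact fun i => ⟨⟨p.coeff i, hpW i⟩, rfl⟩
  obtain ⟨q, hq1, hq2, hq3⟩ := lifts_and_natDegree_eq_and_monic hl hp
  let κ : A →+* W := ((algebraMap k C).comp A.subtype).codRestrict W.toSubring fun a => a.2
  have hκ : W.subtype.comp κ = (algebraMap k C).comp A.subtype := rfl
  have hev : ∀ r : A[X], ∀ z : W, ((eval z (r.map κ) : W) : C) =
      aeval (z : C) (r.map A.subtype) := by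
    intro r z
    have h1 : W.subtype (eval z (r.map κ)) = aeval (z : C) (r.map A.subtype) := by
      rw [← eval₂_hom, eval₂_map, hκ, aeval_def, eval₂_map]
      rfl
    exact h1
  -- `η` is in `W`
  have hηW : η ∈ W := by
    have h1 : IsIntegral W η := by
      refine ⟨q.map κ, hq3.map _, ?_⟩
      rw [eval₂_map]
      have h2 : (algebraMap W C).comp κ = (algebraMap k C).comp A.subtype := hκ
      rw [h2, ← eval₂_map, hq1]
      exact hη
    obtain ⟨y, hy⟩ := IsIntegrallyClosed.isIntegral_iff.1 h1
    rw [← hy]
    exact y.2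
  have hδ : τ η - η ∈ W.nonunits := hτ.2 η hηW
  have hδW : τ η - η ∈ W := W.nonunits_subset hδ
  set η' : W := ⟨η, hηW⟩ with hη'
  set δ' : W := ⟨τ η - η, hδW⟩ with hδ'
  have hroot : aeval (τ η) p = 0 := by
    have h1 := congrArg τ hη
    rw [map_zero] at h1
    rw [← h1, ← AlgEquiv.coe_toAlgHom, aeval_algHom_apply]
  have e0 : eval η' (q.map κ) = 0 := by
    apply Subtype.ext
    rw [hev, hq1]
    exact hη
  have e1 : eval (η' + δ') (q.map κ) = 0 := by
    apply Subtype.ext
    rw [hev, hq1]
    have h2 : ((η' + δ' : W) : C) = τ η := by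
      show η + (τ η - η) = τ η
      ring
    rw [h2]
    exact hroot
  -- the degree is positive
  have hdeg : p.natDegree ≠ 0 := by
    intro h0
    have h1 := eq_one_of_monic_natDegree_zero hp h0
    rw [h1, map_one] at hη
    exact one_ne_zero hη
  have hdeg' : 0 < p.degree := natDegree_pos_iff_degree_pos.1 (Nat.pos_of_ne_zero hdeg)
  -- the resultant
  obtain ⟨a, b, -, -, hab⟩ := exists_mul_add_mul_eq_C_resultant (m := p.natDegree)
    (n := p.natDegree - 1) q (derivative q) hq2.le
    ((natDegree_derivative_le q).trans (by rw [hq2])) (Or.inl hdeg)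
  have hres : A.subtype (resultant q (derivative q) p.natDegree (p.natDegree - 1)) =
      (-1) ^ (p.natDegree * (p.natDegree - 1) / 2) * p.discr := by
    rw [← resultant_map_map, hq1, ← derivative_map, hq1, resultant_deriv hdeg', hp.leadingCoeff,
      mul_one]
  have hmain : ((eval η' ((derivative q).map κ) : W) : C) * ((eval η' (b.map κ) : W) : C) =
      algebraMap k C ((-1) ^ (p.natDegree * (p.natDegree - 1) / 2) * p.discr) := by
    have h1 := congrArg (fun r : A[X] => eval η' (r.map κ)) hab
    simp only [Polynomial.map_add, Polynomial.map_mul, eval_add, eval_mul, map_C, eval_C] at h1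
    rw [e0, zero_mul, zero_add] at h1
    have h2 := congrArg (fun w : W => (w : C)) h1
    rw [← hres]
    exact h2
  have hv : W.valuation ((eval η' ((derivative q).map κ) : W) : C) = 1 := by
    have h1 : W.valuation ((eval η' ((derivative q).map κ) : W) : C) ≤ 1 :=
      (W.valuation_le_one_iff _).2 (eval η' ((derivative q).map κ)).2
    have h2 : W.valuation ((eval η' (b.map κ) : W) : C) ≤ 1 :=
      (W.valuation_le_one_iff _).2 (eval η' (b.map κ)).2
    have h3 : 1 ≤ W.valuation (algebraMap k C
        ((-1) ^ (p.natDegree * (p.natDegree - 1) / 2) * p.discr)) := by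
      rw [map_mul, map_pow, map_neg, map_one, map_mul, map_pow, Valuation.map_neg, map_one, one_pow,
        one_mul]
      rw [W.mem_nonunits_iff, not_lt] at hd
      exact hd
    rw [← hmain, map_mul] at h3
    refine le_antisymm h1 (h3.trans ?_)
    exact mul_le_of_le_one_right' h2
  -- Taylor expansion
  obtain ⟨w, hw⟩ := (q.map κ).binomExpansion η' δ'
  rw [e0, e1, zero_add] at hw
  have hfac : δ' * (eval η' ((derivative q).map κ) + w * δ') = 0 := by
    rw [← derivative_map]
    linear_combination -hw
  rcases mul_eq_zero.1 hfac with h1 | h1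
  · have h2 : τ η - η = 0 := congrArg (fun w : W => (w : C)) h1
    exact sub_eq_zero.1 h2
  · exfalso
    have h2 : ((eval η' ((derivative q).map κ) : W) : C) = -((w : C) * (τ η - η)) := by
      have h3 := congrArg (fun w : W => (w : C)) h1
      have h4 : ((eval η' ((derivative q).map κ) : W) : C) + (w : C) * (τ η - η) = 0 := h3
      linear_combination h4
    rw [h2, Valuation.map_neg, map_mul] at hv
    have h3 : W.valuation (w : C) * W.valuation (τ η - η) < 1 :=
      (mul_le_of_le_one_left' ((W.valuation_le_one_iff _).2 w.2)).trans_lt (W.mem_nonunits_iff.1 hδ)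
    rw [hv] at h3
    exact lt_irrefl _ h3

end Pool.Agent.LT
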