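import Pool.Agent.Helper13.LG.BiDeg
import Pool.Agent.Helper13.LG.G4
import Pool.Agent.Helper13.LT.F5

/-!
# Block H1: denominators for the coordinates `T = d(t, u)`, `u`

`d` is a polynomial in the variable `t` (outer variable) with coefficients in `F[u]` and a nonzero
constant as leading coefficient: `T = ev F u t d = ∑ d_i(u) t^i`.  (In `D₀` and `D` the outer variable
is `u`: `ev F t u D₀ = ∑ D₀_i(t) u^i`, `ev F T u D = ∑ D_i(T) u^i`.)

Construction.  Let `A = F[X][X]` (inner variable `T`, outer variable `u`) and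
`q(Y) = c⁻¹ (d(Y, u) - T) ∈ A[Y]`, monic of degree `m = d.natDegree` (`c` the leading coefficient of `d`);
let `D₀(Y, u) ∈ A[Y]`.  Put `R = Res_Y(q, D₀(Y, u))` (Mathlib `Polynomial.resultant`), and
`D = discr(q) · R ∈ A`.
* Bidegree: `R` and `discr q` are determinants of matrices of size `≤ 4 b` (bounded) with entries of
  bidegree `≤ b + 1`, times a sign, so the bidegree is bounded by some `M = M(b)` (the bidegree of a product is at most
  the sum; `det = ∑ sign ∏`; the bidegree bound is preserved by sums).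
* `R ≠ 0`: otherwise `q` and `D₀(Y, u)` have a common root `y` in an algebraic closure of `F(T, u)`
  (`resultant_eq_zero_iff` over the field of fractions); `D₀(y, u) = 0`, `D₀ ≠ 0`, so `y` is algebraic over `F(u)`, and then
  `T = d(y, u)` is algebraic over `F(u)`, a contradiction.  `discr q ≠ 0`: otherwise `q` has a double root `y`
  (`resultant_deriv`), `∂_Y d(y, u) = 0`, `∂_Y d ≠ 0` (characteristic zero, `m ≥ 1`), the same contradiction.
* Evaluation at `T = d(t, u)`: `q(t) = 0`.  `R = a q + b D₀(Y, u)` with `a, b ∈ A[Y]`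
  (`exists_mul_add_mul_eq_C_resultant`), so at `Y = t`: `R(T, u) = b(t) D₀(t, u)`.
Let `W` be as in the theorem.  The image of `A` is in `W`; `t ∈ W` because it is integral (root of the
monic `q` over `W`).  `D(T, u)` is a unit, so `R(T, u)` and the discriminant are units
(`notMem_nonunits_of_mul`, LT/F5), and then `D₀(t, u)` is a unit.  `τ t = t` by G4 (`inert_fixes_root`) for the field
`k0 F T u` and the polynomial `q` with coefficients mapped to it.
-/

universe u

namespace Pool.Agent.LT

open Polynomial Pool.Agent.SC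

section H74

variable {F : Type u} [Field F]

private lemma h74_mono {p : F[X][X]} {a b : ℕ} (h : BiDeg p a) (hab : a ≤ b) : BiDeg p b :=
  ⟨h.1.trans hab, fun i => (h.2 i).trans hab⟩

private lemma h74_zero (b : ℕ) : BiDeg (0 : F[X][X]) b := by
  refine ⟨by simp, fun i => by simp⟩

private lemma h74_one (b : ℕ) : BiDeg (1 : F[X][X]) b := by
  refine ⟨by simp, fun i => ?_⟩
  rw [coeff_one]
  split_ifs <;> simp

private lemma h74_add {p q : F[X][X]} {b : ℕ} (hp : BiDeg p b) (hq : BiDeg q b) : BiDeg (p + q) b := by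
  refine ⟨(natDegree_add_le p q).trans (max_le hp.1 hq.1), fun i => ?_⟩
  rw [coeff_add]
  exact (natDegree_add_le _ _).trans (max_le (hp.2 i) (hq.2 i))

private lemma h74_neg {p : F[X][X]} {b : ℕ} (hp : BiDeg p b) : BiDeg (-p) b := by
  refine ⟨by rw [natDegree_neg]; exact hp.1, fun i => ?_⟩
  rw [coeff_neg, natDegree_neg]
  exact hp.2 i

private lemma h74_sub {p q : F[X][X]} {b : ℕ} (hp : BiDeg p b) (hq : BiDeg q b) : BiDeg (p - q) b := by
  rw [sub_eq_add_neg]
  exact h74_add hp (h74_neg hq)

private lemma h74_mul {p q : F[X][X]} {a b : ℕ} (hp : BiDeg p a) (hq : BiDeg q b) : BiDeg (p * q) (a + b) := by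
  refine ⟨natDegree_mul_le.trans (Nat.add_le_add hp.1 hq.1), fun i => ?_⟩
  rw [coeff_mul]
  refine natDegree_sum_le_of_forall_le _ _ fun x _ => ?_
  exact natDegree_mul_le.trans (Nat.add_le_add (hp.2 _) (hq.2 _))

private lemma h74_sum {ι : Type*} (s : Finset ι) (f : ι → F[X][X]) {b : ℕ} (h : ∀ i ∈ s, BiDeg (f i) b) :
    BiDeg (∑ i ∈ s, f i) b := by
  classical
  induction s using Finset.induction_on with
  | empty => exact h74_zero b
  | insert a s ha ih =>
    rw [Finset.sum_insert ha]
    exact h74_add (h a (Finset.mem_insert_self _ _)) (ih fun i hi => h i (Finset.mem_insert_of_mem hi))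

private lemma h74_prod {ι : Type*} (s : Finset ι) (f : ι → F[X][X]) {b : ℕ} (h : ∀ i ∈ s, BiDeg (f i) b) :
    BiDeg (∏ i ∈ s, f i) (s.card * b) := by
  classical
  induction s using Finset.induction_on with
  | empty => exact h74_one _
  | insert a s ha ih =>
    rw [Finset.prod_insert ha, Finset.card_insert_of_notMem ha, add_mul, one_mul, add_comm]
    exact h74_mul (h a (Finset.mem_insert_self _ _)) (ih fun i hi => h i (Finset.mem_insert_of_mem hi))

private lemma h74_det {n : ℕ} (M : Matrix (Fin n) (Fin n) F[X][X]) {b : ℕ} (h : ∀ i j, BiDeg (M i j) b) :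
    BiDeg M.det (n * b) := by
  rw [Matrix.det_apply]
  refine h74_sum _ _ fun σ _ => ?_
  have h1 := h74_prod (Finset.univ : Finset (Fin n)) (fun i => M (σ i) i) (fun i _ => h _ _)
  rw [Finset.card_univ, Fintype.card_fin] at h1
  rcases Int.units_eq_one_or (Equiv.Perm.sign σ) with h2 | h2
  · rw [h2, one_smul]
    exact h1
  · rw [h2, Units.neg_smul, one_smul]
    exact h74_neg h1

private lemma h74_res {f g : F[X][X][X]} {m n b : ℕ} (hf : ∀ i, BiDeg (f.coeff i) b) (hg : ∀ i, BiDeg (g.coeff i) b) :
    BiDeg (resultant f g m n) ((m + n) * b) := by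
  unfold resultant
  refine h74_det _ fun i j => ?_
  unfold sylvester
  rw [Matrix.of_apply]
  refine Fin.addCases (fun j₁ => ?_) (fun j₁ => ?_) j
  · rw [Fin.addCases_left]
    split_ifs
    · exact hg _
    · exact h74_zero b
  · rw [Fin.addCases_right]
    split_ifs
    · exact hf _
    · exact h74_zero b

/-- `F[u] → F[T][u]` -/
private noncomputable def h74_phi : F[X] →+* F[X][X] := mapRingHom C

private lemma h74_phi_bd {p : F[X]} {b : ℕ} (h : p.natDegree ≤ b) : BiDeg (h74_phi p) b := by
  unfold h74_phi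
  rw [coe_mapRingHom]
  refine ⟨natDegree_map_le.trans h, fun i => ?_⟩
  rw [coeff_map, natDegree_C]
  exact Nat.zero_le _

private lemma h74_swap_coeff (p : F[X][X]) (i j : ℕ) : ((Bivariate.swap p).coeff i).coeff j = (p.coeff j).coeff i := by
  induction p using Polynomial.induction_on' with
  | add p q hp hq =>
    rw [map_add, coeff_add, coeff_add, coeff_add, coeff_add, hp, hq]
  | monomial n a =>
    induction a using Polynomial.induction_on' with
    | add a b ha hb =>
      rw [map_add, map_add, coeff_add, coeff_add, coeff_add, coeff_add, ha, hb]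
    | monomial m r =>
      rw [Bivariate.swap_monomial_monomial, coeff_monomial, coeff_monomial]
      by_cases h1 : m = i <;> by_cases h2 : n = j
      · rw [if_pos h1, if_pos h2, coeff_monomial, coeff_monomial, if_pos h1, if_pos h2]
      · rw [if_pos h1, if_neg h2, coeff_monomial, if_neg h2, coeff_zero]
      · rw [if_neg h1, if_pos h2, coeff_monomial, if_neg h1, coeff_zero]
      · rw [if_neg h1, if_neg h2, coeff_zero, coeff_zero]

private lemma h74_swap_bd {p : F[X][X]} {b : ℕ} (h : BiDeg p b) : BiDeg (Bivariate.swap p) b := by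
  refine ⟨?_, fun i => ?_⟩
  · rw [natDegree_le_iff_coeff_eq_zero]
    intro i hi
    ext j
    rw [h74_swap_coeff, coeff_zero]
    exact coeff_eq_zero_of_natDegree_lt ((h.2 j).trans_lt hi)
  · rw [natDegree_le_iff_coeff_eq_zero]
    intro j hj
    rw [h74_swap_coeff, coeff_eq_zero_of_natDegree_lt (h.1.trans_lt hj), coeff_zero]

/-- the monic polynomial `c⁻¹ (d(Y, u) - T)` -/
private noncomputable def h74_q (c : F) (d : F[X][X]) : F[X][X][X] := C (C (C c⁻¹)) * (d.map h74_phi - C (C X))

private lemma h74_phi_inj : Function.Injective (h74_phi (F := F)) := by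
  unfold h74_phi
  rw [coe_mapRingHom]
  exact map_injective _ C_injective

private lemma h74_q_monic {c : F} (hc : c ≠ 0) {d : F[X][X]} (hd : 1 ≤ d.natDegree) (hlc : d.leadingCoeff = C c) :
    (h74_q c d).Monic ∧ (h74_q c d).natDegree = d.natDegree := by
  have h1 : (d.map h74_phi).natDegree = d.natDegree := natDegree_map_eq_of_injective h74_phi_inj d
  have h2 : (d.map h74_phi - C (C X)).natDegree = d.natDegree := by rw [natDegree_sub_C, h1]
  have h3 : (C (C c⁻¹) : F[X][X]) ≠ 0 := by
    rw [Ne, C_eq_zero, C_eq_zero]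
    exact inv_ne_zero hc
  have h4 : (h74_q c d).natDegree = d.natDegree := by
    unfold h74_q
    rw [natDegree_C_mul h3, h2]
  refine ⟨?_, h4⟩
  rw [Monic, leadingCoeff, h4]
  unfold h74_q
  rw [coeff_C_mul, coeff_sub, coeff_map, coeff_C, if_neg (by omega), sub_zero, coeff_natDegree, hlc]
  unfold h74_phi
  rw [coe_mapRingHom, map_C, ← C_mul, ← C_mul, inv_mul_cancel₀ hc, C_1, C_1]

private lemma h74_q_bd {c : F} {d : F[X][X]} {b : ℕ} (hd : BiDeg d b) (i : ℕ) : BiDeg ((h74_q c d).coeff i) (b + 1) := by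
  unfold h74_q
  rw [coeff_C_mul, coeff_sub, coeff_map]
  have h1 : BiDeg (C (C c⁻¹) : F[X][X]) 0 := by
    refine ⟨by rw [natDegree_C], fun i => ?_⟩
    rw [coeff_C]
    split_ifs <;> simp
  have h2 : BiDeg ((C (C X) : F[X][X][X]).coeff i) (b + 1) := by
    rw [coeff_C]
    split_ifs
    · refine ⟨by rw [natDegree_C]; exact Nat.zero_le _, fun j => ?_⟩
      rw [coeff_C]
      split_ifs
      · rw [natDegree_X]
        omega
      · simp
    · exact h74_zero _
  have h3 := h74_mul h1 (h74_sub (h74_mono (h74_phi_bd (hd.2 i)) (Nat.le_succ b)) h2)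
  rwa [zero_add] at h3

private lemma h74_res_ne [CharZero F] {c : F} (hc : c ≠ 0) {d g : F[X][X]} (hd : 1 ≤ d.natDegree)
    (hlc : d.leadingCoeff = C c) (hg : g ≠ 0) :
    resultant (h74_q c d) (g.map h74_phi) d.natDegree g.natDegree ≠ 0 := by
  intro h0
  let L := FractionRing F[X]
  let Ω := AlgebraicClosure L
  have hι : Function.Injective (algebraMap F[X] L) := IsFractionRing.injective F[X] L
  have key : ∀ τ : F, ∃ y : Ω, aeval y (d.map (algebraMap F[X] L)) = algebraMap L Ω (algebraMap F[X] L (C τ)) ∧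
      aeval y (g.map (algebraMap F[X] L)) = 0 := by
    intro τ
    let s : F[X][X] →+* F[X] := mapRingHom (evalRingHom τ)
    have hs : s.comp h74_phi = RingHom.id F[X] := by
      refine Polynomial.ringHom_ext (fun a => ?_) ?_
      · simp [s, h74_phi]
      · simp [s, h74_phi]
    let P : L[X] := C (algebraMap F[X] L (C c⁻¹)) * (d.map (algebraMap F[X] L) - C (algebraMap F[X] L (C τ)))
    have hP : ((h74_q c d).map s).map (algebraMap F[X] L) = P := by
      unfold h74_q
      rw [Polynomial.map_mul, Polynomial.map_sub, map_C, map_C, Polynomial.map_map, hs, Polynomial.map_id,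
        Polynomial.map_mul, Polynomial.map_sub, map_C, map_C]
      simp [s, P]
    have hG : ((g.map h74_phi).map s).map (algebraMap F[X] L) = g.map (algebraMap F[X] L) := by
      have h2 : (g.map h74_phi).map s = g := by rw [Polynomial.map_map, hs, Polynomial.map_id]
      rw [h2]
    have h1 := congrArg (fun z => algebraMap F[X] L (s z)) h0
    simp only [map_zero] at h1
    rw [← resultant_map_map, ← resultant_map_map, hP, hG] at h1
    have hcL : algebraMap F[X] L (C c⁻¹) ≠ 0 := by
      rw [Ne, map_eq_zero_iff _ hι, C_eq_zero]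
      exact inv_ne_zero hc
    have hPd : P.natDegree = d.natDegree := by
      rw [natDegree_C_mul hcL, natDegree_sub_C, natDegree_map_eq_of_injective hι]
    have hGd : (g.map (algebraMap F[X] L)).natDegree = g.natDegree := natDegree_map_eq_of_injective hι g
    rw [← hPd, ← hGd] at h1
    have h2 := (resultant_eq_zero_iff.1 h1).2
    rw [isCoprime_iff_aeval_ne_zero_of_isAlgClosed L Ω] at h2
    push Not at h2
    obtain ⟨y, hy1, hy2⟩ := h2
    refine ⟨y, ?_, hy2⟩
    rw [map_mul, aeval_C, map_sub, aeval_C] at hy1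
    rcases mul_eq_zero.1 hy1 with h3 | h3
    · rw [map_eq_zero] at h3
      exact absurd h3 hcL
    · exact sub_eq_zero.1 h3
  choose y hy1 hy2 using key
  have hG0 : g.map (algebraMap F[X] L) ≠ 0 := (Polynomial.map_ne_zero_iff hι).2 hg
  have hfin : Finite ((g.map (algebraMap F[X] L)).rootSet Ω) := (rootSet_finite _ _).to_subtype
  have hinj : Function.Injective (fun τ : F => (⟨y τ, by
      rw [mem_rootSet]
      exact ⟨hG0, hy2 τ⟩⟩ : (g.map (algebraMap F[X] L)).rootSet Ω)) := by
    intro τ τ' h
    have h1 : y τ = y τ' := congrArg Subtype.val h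
    have h2 := hy1 τ
    rw [h1, hy1 τ'] at h2
    have h3 := hι ((algebraMap L Ω).injective h2)
    exact (C_injective h3).symm
  have := Finite.of_injective _ hinj
  exact not_finite F

private lemma h74_mem_of_root {C : Type u} [Field C] {W : ValuationSubring C} {p : C[X]} (hp : p.Monic)
    (hpW : ∀ i, p.coeff i ∈ W) {η : C} (hη : p.eval η = 0) : η ∈ W := by
  have hl : p ∈ lifts W.subtype := by
    rw [lifts_iff_coeff_lifts]
    exact fun i => ⟨⟨p.coeff i, hpW i⟩, rfl⟩
  obtain ⟨q, hq1, hq2, hq3⟩ := lifts_and_natDegree_eq_and_monic hl hp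
  have h1 : IsIntegral W η := by
    refine ⟨q, hq3, ?_⟩
    have h2 : (algebraMap W C) = W.subtype := rfl
    rw [h2, ← eval_map, hq1]
    exact hη
  obtain ⟨y, hy⟩ := IsIntegrallyClosed.isIntegral_iff.1 h1
  rw [← hy]
  exact y.2

private lemma h74_eval_mem {A : Type*} {C : Type u} [CommRing A] [Field C] {W : ValuationSubring C} (φ : A →+* C)
    (hφ : ∀ a, φ a ∈ W) {η : C} (hη : η ∈ W) (p : A[X]) : eval₂ φ η p ∈ W := by
  rw [eval₂_eq_sum_range]
  exact W.toSubring.sum_mem fun i _ => W.mul_mem _ _ (hφ _) (pow_mem hη _)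

variable {k : Type u} [Field k] [Algebra F k]

private lemma h74_ev_phi (T u : k) : (ev F T u).comp h74_phi = (aeval u : F[X] →ₐ[F] k).toRingHom := by
  refine Polynomial.ringHom_ext (fun a => ?_) ?_
  · rw [RingHom.comp_apply]
    unfold h74_phi
    rw [coe_mapRingHom, map_C, ev_C]
    simp
  · rw [RingHom.comp_apply]
    unfold h74_phi
    rw [coe_mapRingHom, map_X, ev_X]
    simp

private lemma h74_ev_swap (t u : k) (p : F[X][X]) : ev F t u (Bivariate.swap p) = ev F u t p := by
  have h1 : (ev F t u).comp (Bivariate.swap (R := F)).toRingEquiv.toRingHom = ev F u t := by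
    refine Polynomial.ringHom_ext (fun a => ?_) ?_
    · show ev F t u (Bivariate.swap (C a)) = ev F u t (C a)
      rw [Bivariate.swap_C, ev_C]
      have h2 := congrArg (fun f : F[X] →+* k => f a) (h74_ev_phi t u)
      simp only [RingHom.comp_apply] at h2
      unfold h74_phi at h2
      rw [coe_mapRingHom] at h2
      exact h2
    · show ev F t u (Bivariate.swap X) = ev F u t X
      rw [Bivariate.swap_Y, ev_C, ev_X, aeval_X]
  exact congrArg (fun f : F[X][X] →+* k => f p) h1

private lemma h74_eval (T u t : k) (g : F[X][X]) : eval₂ (ev F T u) t (g.map h74_phi) = ev F u t g := by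
  rw [eval₂_map, h74_ev_phi]
  rfl

private lemma h74_eval_q {t u : k} (c : F) (d : F[X][X]) : eval₂ (ev F (ev F u t d) u) t (h74_q c d) = 0 := by
  unfold h74_q
  simp only [eval₂_mul, eval₂_sub, h74_eval, eval₂_C, ev_C, aeval_X, sub_self, mul_zero]

end H74

theorem exists_denominator_poly {F : Type u} [Field F] [CharZero F] (b : ℕ) :
    ∃ M : ℕ, ∀ D₀ d : F[X][X], D₀ ≠ 0 → BiDeg D₀ b → BiDeg d b → 1 ≤ d.natDegree →
      (∃ c : F, c ≠ 0 ∧ d.leadingCoeff = C c) → ∃ D : F[X][X], D ≠ 0 ∧ BiDeg D M ∧
      ∀ (k : Type u) [Field k] [Algebra F k] (t u : k), AlgebraicIndependent F ![t, u] →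
      ∀ (N : Type u) [Field N] [Algebra k N] (W : ValuationSubring N),
      (∀ c : F, algebraMap k N (algebraMap F k c) ∈ W) →
      algebraMap k N (ev F u t d) ∈ W → algebraMap k N u ∈ W →
      algebraMap k N (ev F (ev F u t d) u D) ∉ W.nonunits →
      algebraMap k N t ∈ W ∧ algebraMap k N (ev F t u D₀) ∉ W.nonunits ∧
        ∀ τ : N ≃ₐ[IntermediateField.adjoin F {ev F u t d, u}] N, InInert W τ →
          τ (algebraMap k N t) = algebraMap k N t := by
  refine ⟨2 * b * (b + 1) + 2 * b * (b + 1), fun D₀ d hD₀ hbD hbd hm ⟨c, hc, hlc⟩ => ?_⟩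
  obtain ⟨hmon, hdeg⟩ := h74_q_monic hc hm hlc
  set q := h74_q c d with hq
  set m := d.natDegree with hmdef
  set d₀ : F[X][X] := Bivariate.swap D₀ with hd₀
  have hd₀0 : d₀ ≠ 0 := by
    rw [hd₀, Ne, map_eq_zero_iff _ (Bivariate.swap (R := F)).injective]
    exact hD₀
  have hbd₀ : BiDeg d₀ b := h74_swap_bd hbD
  -- the derivative
  set g : F[X][X] := C (C c⁻¹) * derivative d with hgdef
  have hderiv : derivative q = g.map h74_phi := by
    rw [hq, hgdef]
    unfold h74_q
    rw [derivative_C_mul, derivative_sub, derivative_C, sub_zero, derivative_map, Polynomial.map_mul, map_C]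
    unfold h74_phi
    rw [coe_mapRingHom, map_C]
  have hg0 : g ≠ 0 := by
    rw [hgdef]
    refine mul_ne_zero ?_ ?_
    · rw [Ne, C_eq_zero, C_eq_zero]
      exact inv_ne_zero hc
    · intro h
      have h1 := natDegree_eq_zero_of_derivative_eq_zero h
      omega
  have hgd : g.natDegree = m - 1 := by
    rw [hgdef, natDegree_C_mul (by rw [Ne, C_eq_zero]; exact inv_ne_zero hc), natDegree_derivative]
  have hbg : ∀ i, BiDeg ((g.map h74_phi).coeff i) (b + 1) := by
    intro i
    rw [coeff_map]
    refine h74_mono (h74_phi_bd ?_) (Nat.le_succ b)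
    rw [hgdef, coeff_C_mul, coeff_derivative]
    have h1 : ((i : F[X]) + 1) = C ((i : F) + 1) := by simp
    rw [h1]
    refine natDegree_mul_le.trans ?_
    rw [natDegree_C, zero_add]
    refine natDegree_mul_le.trans ?_
    rw [natDegree_C, add_zero]
    exact hbd.2 _
  set R1 := resultant q (g.map h74_phi) m (m - 1) with hR1
  set R2 := resultant q (d₀.map h74_phi) m d₀.natDegree with hR2
  have hR1' : R1 ≠ 0 := by
    have h1 := h74_res_ne hc hm hlc hg0
    rw [hgd] at h1
    exact h1
  have hR2' : R2 ≠ 0 := h74_res_ne hc hm hlc hd₀0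
  have hmb : m ≤ b := hbd.1
  have hB1 : BiDeg R1 (2 * b * (b + 1)) := by
    refine h74_mono (h74_res (fun i => h74_q_bd hbd i) hbg) ?_
    exact Nat.mul_le_mul_right _ (by omega)
  have hB2 : BiDeg R2 (2 * b * (b + 1)) := by
    refine h74_mono (h74_res (fun i => h74_q_bd hbd i) (fun i => ?_)) ?_
    · rw [coeff_map]
      exact h74_mono (h74_phi_bd (hbd₀.2 i)) (Nat.le_succ b)
    · have := hbd₀.1
      exact Nat.mul_le_mul_right _ (by omega)
  refine ⟨R1 * R2, mul_ne_zero hR1' hR2', h74_mul hB1 hB2, ?_⟩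
  intro k _ _ t u _ N _ _ W hFW hTW huW hD
  set T := ev F u t d with hT
  have hAW : ∀ a : F[X][X], algebraMap k N (ev F T u a) ∈ W := ev_mem hFW hTW huW
  rw [map_mul, map_mul] at hD
  obtain ⟨hu1, hu2⟩ := notMem_nonunits_of_mul (hAW _) (hAW _) hD
  have hroot : eval₂ (ev F T u) t q = 0 := by
    rw [hT, hq]
    exact h74_eval_q c d
  -- `t` is in `W`
  have htW : algebraMap k N t ∈ W := by
    refine h74_mem_of_root (p := q.map ((algebraMap k N).comp (ev F T u))) (hmon.map _) (fun i => ?_) ?_
    · rw [coeff_map]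
      exact hAW _
    · rw [eval_map, ← hom_eval₂, hroot, map_zero]
  refine ⟨htW, ?_, fun τ hτ => ?_⟩
  · -- `D₀ (t, u)` is a unit
    obtain ⟨a, e, -, -, hae⟩ := exists_mul_add_mul_eq_C_resultant (m := m) (n := d₀.natDegree) q
      (d₀.map h74_phi) hdeg.le natDegree_map_le (Or.inl (by omega))
    have h1 := congrArg (fun z => algebraMap k N (eval₂ (ev F T u) t z)) hae
    simp only [eval₂_add, eval₂_mul, eval₂_C, hroot, zero_mul, zero_add, h74_eval] at h1
    rw [hd₀, h74_ev_swap, map_mul] at h1
    have h2 : algebraMap k N (ev F t u D₀) * algebraMap k N (eval₂ (ev F T u) t e) ∉ W.nonunits := by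
      rw [← hd₀] at h1
      rw [h1]
      exact hu2
    refine (notMem_nonunits_of_mul (ev_mem hFW htW huW _) ?_ h2).1
    rw [hom_eval₂]
    exact h74_eval_mem _ hAW htW e
  · -- inertia fixes `t`
    let k0 := IntermediateField.adjoin F {T, u}
    have hTk : T ∈ k0 := IntermediateField.subset_adjoin F _ (by simp)
    have huk : u ∈ k0 := IntermediateField.subset_adjoin F _ (by simp)
    let e0 : F[X][X] →+* k0 := ev F (⟨T, hTk⟩ : k0) (⟨u, huk⟩ : k0)
    have he0 : ∀ a, ((e0 a : k0) : k) = ev F T u a := by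
      have h1 : (algebraMap k0 k).comp e0 = ev F T u := by
        refine Polynomial.ringHom_ext (fun a => ?_) ?_
        · rw [RingHom.comp_apply]
          show algebraMap k0 k (ev F (⟨T, hTk⟩ : k0) (⟨u, huk⟩ : k0) (C a)) = _
          rw [ev_C, ev_C, ← aeval_algebraMap_apply]
          rfl
        · rw [RingHom.comp_apply]
          show algebraMap k0 k (ev F (⟨T, hTk⟩ : k0) (⟨u, huk⟩ : k0) X) = _
          rw [ev_X, ev_X]
          rfl
      intro a
      exact congrArg (fun f : F[X][X] →+* k => f a) h1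
    have halg : ∀ z : k0, algebraMap k0 N z = algebraMap k N (z : k) := fun z => rfl
    have hcomp : (algebraMap k0 N).comp e0 = (algebraMap k N).comp (ev F T u) := by
      refine RingHom.ext fun a => ?_
      show algebraMap k0 N (e0 a) = algebraMap k N (ev F T u a)
      rw [halg, he0]
    have hmon0 : (q.map e0).Monic := hmon.map _
    have hdeg0 : (q.map e0).natDegree = m := by rw [hmon.natDegree_map, hdeg]
    refine inert_fixes_root (p := q.map e0) hmon0 (fun i => ?_) ?_ ?_ hτ
    · rw [coeff_map, halg, he0]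
      exact hAW _
    · -- the discriminant
      have h1 := resultant_deriv (f := q.map e0) (by
        rw [← natDegree_pos_iff_degree_pos, hdeg0]
        omega)
      rw [hdeg0, derivative_map, hderiv, resultant_map_map, hmon0.leadingCoeff, mul_one, ← hR1] at h1
      have h2 : algebraMap k0 N (e0 R1) ∉ W.nonunits := by
        rw [halg, he0]
        exact hu1
      rw [h1, map_mul, map_pow, map_neg, map_one, ValuationSubring.mem_nonunits_iff, map_mul, map_pow,
        Valuation.map_neg, map_one, one_pow, one_mul] at h2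
      rw [ValuationSubring.mem_nonunits_iff]
      exact h2
    · rw [aeval_def, eval₂_map, hcomp, ← hom_eval₂, hroot, map_zero]

end Pool.Agent.LT
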