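import Pool.Agent.Helper13.LG.Core

/-!
# Block H2: the coordinates `T = d(t, u)`, `u`

`T = ev F u t d = ∑ d_i(u) t^i` with a constant leading coefficient `d_m = c ≠ 0`, `m ≥ 1`.

Proof.  `t` is a root of the polynomial `d(Y, u) - T` of degree `m` over `F(T, u)` with leading
coefficient `c`.  So `t` is algebraic over `F(T, u)` of degree at most `m` and `F(t, u) = F(T, u)(t)`; hence
`[k : F(T, u)] = [k : F(t, u)] [F(t, u) : F(T, u)] ≤ m [k : F(t, u)]`.  If `T` were algebraic over
`F(u)` then `t` would be algebraic over `F(u)`; so `T` is transcendental over `F(u)`, `u` is transcendental over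
`F`, and `T, u` are algebraically independent (`AlgebraicIndependent.option_iff_transcendental`; `algInd_of` in
LG/Main.lean has this, you may move it to this file).
-/

universe u

namespace Pool.Agent.LT

open Polynomial

theorem algInd_of_pc {F k : Type u} [Field F] [Field k] [Algebra F k] {t u : k}
    (hu : Transcendental F u)
    (ht : Transcendental (IntermediateField.adjoin F {u}) t) :
    AlgebraicIndependent F ![t, u] := by
  have h1 : AlgebraicIndependent F ![u] := (algebraicIndependent_unique_type_iff).2 hu
  have h2 : Transcendental (Algebra.adjoin F (Set.range ![u])) t := by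
    have h3 : Set.range ![u] = {u} := by simp
    rw [h3]
    exact IntermediateField.transcendental_adjoin_iff.1 ht
  have h4 := (h1.option_iff_transcendental t).2 h2
  have h5 := h4.comp (![none, some 0] : Fin 2 → Option (Fin 1))
    (by
      intro i j h
      fin_cases i <;> fin_cases j <;> simp_all)
  convert h5 using 1
  ext i
  fin_cases i <;> rfl

/-- `t` is integral of degree `≤ m` over every field containing `u` and `T = d(t, u)`. -/
theorem minpoly_pc {F k A : Type u} [Field F] [Field k] [Algebra F k] [Field A] [Algebra F A]
    [Algebra A k] [IsScalarTower F A k] {t : k} {d : F[X][X]}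
    (hd : 1 ≤ d.natDegree) (hlc : ∃ c : F, c ≠ 0 ∧ d.leadingCoeff = C c) (u' T' : A)
    (hT : algebraMap A k T' = ev F (algebraMap A k u') t d) :
    IsIntegral A t ∧ (minpoly A t).natDegree ≤ d.natDegree := by
  obtain ⟨c, hc, hlc⟩ := hlc
  set φ : F[X] →+* A := (aeval u' : F[X] →ₐ[F] A).toRingHom with hφ
  set P : A[X] := d.map φ - C T' with hP
  have h1 : φ d.leadingCoeff ≠ 0 := by
    rw [hlc, hφ]
    change aeval u' (C c) ≠ 0
    rw [aeval_C]
    exact (_root_.map_ne_zero _).2 hc
  have h2 : P.natDegree = d.natDegree := by
    rw [hP, natDegree_sub_C, natDegree_map_of_leadingCoeff_ne_zero _ h1]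
  have h3 : P ≠ 0 := by
    intro h
    rw [h, natDegree_zero] at h2
    omega
  have h4 : aeval t P = 0 := by
    rw [hP, map_sub, aeval_C, hT, sub_eq_zero, aeval_def, eval₂_map]
    have h5 : (algebraMap A k).comp φ = (aeval (algebraMap A k u') : F[X] →ₐ[F] k).toRingHom := by
      apply Polynomial.ringHom_ext
      · intro a
        change algebraMap A k (aeval u' (C a)) = aeval (algebraMap A k u') (C a)
        rw [aeval_C, aeval_C, ← IsScalarTower.algebraMap_apply]
      · change algebraMap A k (aeval u' X) = aeval (algebraMap A k u') X
        rw [aeval_X, aeval_X]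
    rw [h5]
    rfl
  refine ⟨IsAlgebraic.isIntegral ⟨P, h3, h4⟩, ?_⟩
  rw [← h2]
  exact natDegree_le_of_dvd (minpoly.dvd A t h4) h3

theorem poly_coord {F k : Type u} [Field F] [CharZero F] [Field k] [Algebra F k] {t u : k}
    (htu : AlgebraicIndependent F ![t, u]) (hfin : FiniteDimensional (k0 F t u) k) {d : F[X][X]}
    (hd : 1 ≤ d.natDegree) (hlc : ∃ c : F, c ≠ 0 ∧ d.leadingCoeff = C c) :
    AlgebraicIndependent F ![ev F u t d, u] ∧
      FiniteDimensional (k0 F (ev F u t d) u) k ∧
      Module.finrank (k0 F (ev F u t d) u) k ≤ d.natDegree * Module.finrank (k0 F t u) k := by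
  set T := ev F u t d with hT
  refine ⟨algInd_of_pc (transc_F_u htu) fun h => transc_t htu ?_, ?_⟩
  · have hE : IsIntegral (IntermediateField.adjoin F {u}) T := h.isIntegral
    have h1 : FiniteDimensional (IntermediateField.adjoin F {u})
        (IntermediateField.adjoin (IntermediateField.adjoin F {u}) {T}) :=
      IntermediateField.adjoin.finiteDimensional hE
    have hst : IsScalarTower F
        (IntermediateField.adjoin (IntermediateField.adjoin F {u}) {T}) k :=
      IsScalarTower.of_algebraMap_eq fun _ => rfl
    have h2 := (minpoly_pc (F := F) (k := k)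
      (A := IntermediateField.adjoin (IntermediateField.adjoin F {u}) {T}) (t := t) hd hlc
      ⟨u, IntermediateField.algebraMap_mem _
        (⟨u, IntermediateField.mem_adjoin_simple_self _ _⟩ : IntermediateField.adjoin F {u})⟩
      ⟨T, IntermediateField.mem_adjoin_simple_self _ _⟩ rfl).1
    exact (isIntegral_trans t h2).isAlgebraic
  · have hTL : T ∈ k0 F T u := IntermediateField.subset_adjoin _ _ (Or.inl rfl)
    have huL : u ∈ k0 F T u := IntermediateField.subset_adjoin _ _ (Or.inr rfl)
    obtain ⟨h1, h2⟩ := minpoly_pc (F := F) (k := k) (A := k0 F T u) (t := t) hd hlc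
      ⟨u, huL⟩ ⟨T, hTL⟩ rfl
    have hres : (IntermediateField.adjoin (k0 F T u) {t}).restrictScalars F = k0 F t u := by
      unfold k0
      rw [IntermediateField.adjoin_adjoin_left]
      apply le_antisymm
      · rw [IntermediateField.adjoin_le_iff]
        rintro z ((hz | hz) | hz)
        · rw [hz, hT]
          unfold ev
          rw [coe_eval₂RingHom, eval₂_eq_sum_range]
          have ht1 : t ∈ IntermediateField.adjoin F {t, u} :=
            IntermediateField.subset_adjoin _ _ (Or.inl rfl)
          have hu1 : u ∈ IntermediateField.adjoin F {t, u} :=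
            IntermediateField.subset_adjoin _ _ (Or.inr rfl)
          refine sum_mem fun i _ => mul_mem ?_ (pow_mem ht1 _)
          change aeval u (d.coeff i) ∈ IntermediateField.adjoin F {t, u}
          rw [aeval_eq_sum_range]
          refine sum_mem fun j _ => ?_
          rw [Algebra.smul_def]
          exact mul_mem (IntermediateField.algebraMap_mem _ _) (pow_mem hu1 _)
        · rw [Set.mem_singleton_iff.1 hz]
          exact IntermediateField.subset_adjoin _ _ (Or.inr rfl)
        · rw [Set.mem_singleton_iff.1 hz]
          exact IntermediateField.subset_adjoin _ _ (Or.inl rfl)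
      · rw [IntermediateField.adjoin_le_iff]
        have ht1 : t ∈ IntermediateField.adjoin F ({T, u} ∪ {t}) :=
          IntermediateField.subset_adjoin _ _ (Or.inr rfl)
        have hu1 : u ∈ IntermediateField.adjoin F ({T, u} ∪ {t}) :=
          IntermediateField.subset_adjoin _ _ (Or.inl (Or.inr rfl))
        rintro z (hz | hz)
        · rw [hz]
          exact ht1
        · rw [Set.mem_singleton_iff.1 hz]
          exact hu1
    have h3 : FiniteDimensional ((IntermediateField.adjoin (k0 F T u) {t}).restrictScalars F) k := by
      rw [hres]; exact hfin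
    have h3' : FiniteDimensional (IntermediateField.adjoin (k0 F T u) {t}) k := h3
    have h4 : Module.finrank ((IntermediateField.adjoin (k0 F T u) {t}).restrictScalars F) k =
        Module.finrank (k0 F t u) k := by rw [hres]
    have h4' : Module.finrank (IntermediateField.adjoin (k0 F T u) {t}) k =
        Module.finrank (k0 F t u) k := h4
    have h5 : FiniteDimensional (k0 F T u) (IntermediateField.adjoin (k0 F T u) {t}) :=
      IntermediateField.adjoin.finiteDimensional h1
    have h6 : Module.Free (k0 F T u) (IntermediateField.adjoin (k0 F T u) {t}) :=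
      Module.Free.of_divisionRing _ _
    have h7 : Module.Free (IntermediateField.adjoin (k0 F T u) {t}) k :=
      Module.Free.of_divisionRing _ _
    refine ⟨FiniteDimensional.trans (k0 F T u) (IntermediateField.adjoin (k0 F T u) {t}) k, ?_⟩
    rw [← Module.finrank_mul_finrank (k0 F T u) (IntermediateField.adjoin (k0 F T u) {t}) k, h4',
      IntermediateField.adjoin.finrank h1]
    exact Nat.mul_le_mul_right _ h2

end Pool.Agent.LT
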