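import Pool.Agent.Helper13.LG.Step
import Pool.Agent.Helper13.LG.G7
import Pool.Agent.Helper13.LG.G9
import Pool.Agent.Helper13.LG.H1
import Pool.Agent.Helper13.LG.H2

/-!
# Uniform version: the number of the exceptional coefficients is bounded
-/

universe u

namespace Pool.Agent.LT

open VC Polynomial Pool.Agent.SC Pool.Agent.Helper91.Sect

theorem BiDeg.mono {F : Type u} [Field F] {D : F[X][X]} {a b : ℕ} (h : BiDeg D a) (hab : a ≤ b) :
    BiDeg D b := ⟨h.1.trans hab, fun i => (h.2 i).trans hab⟩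

theorem exists_biDeg {F : Type u} [Field F] (D : F[X][X]) : ∃ b : ℕ, BiDeg D b := by
  refine ⟨max D.natDegree ((Finset.range (D.natDegree + 1)).sup fun i => (D.coeff i).natDegree),
    le_max_left _ _, fun i => ?_⟩
  by_cases hi : i < D.natDegree + 1
  · exact (Finset.le_sup (f := fun i => (D.coeff i).natDegree) (Finset.mem_range.2 hi)).trans
      (le_max_right _ _)
  · rw [coeff_eq_zero_of_natDegree_lt (by omega), natDegree_zero]
    exact Nat.zero_le _

/-- **The uniform theorem.** -/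
theorem goodTwist_unif {F k : Type u} [Field F] [CharZero F] [Field k] [Algebra F k]
    (hF : ∃ S : Finset F, Subfield.closure (S : Set F) = ⊤)
    {t u : k} (htu : AlgebraicIndependent F ![t, u]) (hfin : FiniteDimensional (k0 F t u) k)
    (hFk : ∀ z : k, IsAlgebraic F z → ∃ c : F, algebraMap F k c = z)
    {n : ℕ} {f : k[X]} {c : k}
    (hn : 2 ≤ n) (hdeg : 3 ≤ f.natDegree) (hs : f.Separable) (hc : c ≠ 0) (m : ℕ) :
    ∃ N₀ : ℕ, ∀ d : F[X][X], BiDeg d m → 1 ≤ d.natDegree →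
      (∃ c : F, c ≠ 0 ∧ d.leadingCoeff = C c) →
      ∃ S : Finset F, S.card ≤ N₀ ∧ ∀ a ∉ S, ∃ T : Finset F, T.card ≤ N₀ ∧ ∀ b ∉ T,
        GoodTwist n f c (ev F u t d - algebraMap F k a * u - algebraMap F k b) := by
  classical
  obtain ⟨D₀, hD₀, hD₀'⟩ := exists_denominator (t0 F t u) (u0 F t u) (algInd0 htu) (top0 t u)
    (goodElts f c)
  obtain ⟨b₀, hb₀⟩ := exists_biDeg D₀
  obtain ⟨M, hM⟩ := exists_denominator_poly (F := F) (max b₀ m)
  obtain ⟨N₁, hN₁⟩ := exists_goodDisc_bdd (F := F) M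
  refine ⟨N₁ + 2 ^ (m * Module.finrank (k0 F t u) k), fun d hdm hd1 hlc => ?_⟩
  obtain ⟨D, hD0, hDM, hD⟩ := hM D₀ d hD₀ (hb₀.mono (le_max_left _ _))
    (hdm.mono (le_max_right _ _)) hd1 hlc
  obtain ⟨S₁, hS₁c, hS₁⟩ := hN₁ D hD0 hDM
  obtain ⟨htu', hfin', hrank⟩ := poly_coord htu hfin hd1 hlc
  obtain ⟨S₂, hS₂c, hS₂⟩ := regular_generic htu' hfin' hFk
  refine ⟨S₁ ∪ S₂, ?_, fun a ha => ?_⟩
  · refine (Finset.card_union_le _ _).trans (add_le_add hS₁c (hS₂c.trans ?_))
    refine Nat.pow_le_pow_right (by norm_num) (hrank.trans ?_)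
    exact Nat.mul_le_mul_right _ hdm.1
  rw [Finset.mem_union, not_or] at ha
  obtain ⟨T, hTc, hT⟩ := hS₁ a ha.1
  refine ⟨T, hTc.trans (Nat.le_add_right _ _), fun b hb => ?_⟩
  obtain ⟨Δ, N, hΔ, hdvd⟩ := hT b hb
  refine goodTwist_of_coord hF htu' hfin' hn hdeg hs hc hΔ hdvd (hS₂ a ha.2) ?_
  intro K _ _ W hFW hTW huW hunit
  obtain ⟨htW, hD₀u, hτt⟩ := hD k t u htu (kbar k K) W hFW hTW huW hunit
  have hunit0 : algebraMap (k0 F t u) (kbar k K) (ev F (t0 F t u) (u0 F t u) D₀) ∉ W.nonunits := by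
    have h3 : algebraMap (k0 F t u) (kbar k K) (ev F (t0 F t u) (u0 F t u) D₀) =
        algebraMap k (kbar k K) (ev F t u D₀) :=
      congrArg (algebraMap k (kbar k K)) (ev0 (F := F) t u D₀)
    rw [h3]
    exact hD₀u
  obtain ⟨h4, h5⟩ := hD₀' (kbar k K) W hFW htW huW hunit0
  refine ⟨h4, fun τ hτ0 hτ1 hτ2 => ?_⟩
  -- `τ` as an automorphism over `F(T, u)`
  let τ₁ : kbar k K ≃ₐ[IntermediateField.adjoin F {ev F u t d, u}] kbar k K :=
    { τ with commutes' := fun r => hτ0 (r : k) r.2 }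
  have hτ₁ : τ (algebraMap k (kbar k K) t) = algebraMap k (kbar k K) t :=
    hτt τ₁ ⟨fun z => hτ1 z, fun z hz => hτ2 z hz⟩
  -- `τ` is trivial on `F(t, u)`
  have hfix : ∀ r ∈ k0 F t u, τ (algebraMap k (kbar k K) r) = algebraMap k (kbar k K) r := by
    let L : IntermediateField F k :=
      { carrier := {r | τ (algebraMap k (kbar k K) r) = algebraMap k (kbar k K) r}
        mul_mem' := fun {a b} ha hb => by
          change τ (algebraMap k (kbar k K) (a * b)) = _
          rw [map_mul, map_mul, ha, hb]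
        add_mem' := fun {a b} ha hb => by
          change τ (algebraMap k (kbar k K) (a + b)) = _
          rw [map_add, map_add, ha, hb]
        algebraMap_mem' := fun a => hτ0 _ (IntermediateField.algebraMap_mem _ a)
        inv_mem' := fun a ha => by
          change τ (algebraMap k (kbar k K) a⁻¹) = _
          rw [map_inv₀, map_inv₀, ha] }
    have hL : k0 F t u ≤ L := by
      refine IntermediateField.adjoin_le_iff.2 ?_
      rintro z (hz | hz)
      · rw [hz]; exact hτ₁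
      · rw [Set.mem_singleton_iff.1 hz]
        exact hτ0 _ (IntermediateField.subset_adjoin _ _ (Or.inr rfl))
    exact fun r hr => hL hr
  let τ₂ : kbar k K ≃ₐ[k0 F t u] kbar k K :=
    { τ with commutes' := fun r => hfix (r : k) r.2 }
  exact h5 τ₂ ⟨fun z => hτ1 z, fun z hz => hτ2 z hz⟩

end Pool.Agent.LT
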