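import Mathlib

/-!
# Block H4: counting

Proof.  For `a` let `a⁰` be `a` with the coordinates `i₀, i₁` replaced by `0`.  For every `a` with
`a i₂ ≠ 0` choose `S(a⁰)` and, for `α ∉ S(a⁰)`, `T(a⁰, α)`.  An element `a` of `Bad` in the box satisfies
one of: `a i₂ = 0`; `a i₀ ∈ S(a⁰)`; `a i₀ ∉ S(a⁰)` and `a i₁ ∈ T(a⁰, a i₀)` (because
`a = update (update a⁰ i₀ (a i₀)) i₁ (a i₁)`).  Each of the three sets has at most
`max(1, N₀) (2H+1)^(card ι - 1)` elements in the box: forget the coordinate `i₂`, resp. `i₀`, resp. `i₁`; the fibres have at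
most `1`, resp. `N₀`, resp. `N₀` elements.
-/

namespace Pool.Agent.LT

theorem count_coord {ι : Type} [Fintype ι] [DecidableEq ι] (i : ι) (N : ℕ)
    (S : (ι → ℤ) → Finset ℤ) (hS : ∀ a, (S a).card ≤ N) (H : ℕ) :
    ((Fintype.piFinset fun _ : ι => Finset.Icc (-(H : ℤ)) H).filter
      fun a => a i ∈ S (Function.update a i 0)).card ≤
      N * (2 * H + 1) ^ (Fintype.card ι - 1) := by
  classical
  set s := (Fintype.piFinset fun _ : ι => Finset.Icc (-(H : ℤ)) H).filter
      fun a => a i ∈ S (Function.update a i 0) with hs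
  have h1 : s.card ≤ N * (s.image fun a => Function.update a i 0).card := by
    refine Finset.card_le_mul_card_image s N fun b _ => ?_
    refine le_trans (Finset.card_le_card_of_injOn (fun x => x i) ?_ ?_) (hS b)
    · intro x hx
      simp only [Finset.coe_filter, Set.mem_ofPred_eq] at hx
      have h2 := (Finset.mem_filter.1 hx.1).2
      rw [hx.2] at h2
      exact h2
    · intro x hx y hy hxy
      simp only [Finset.coe_filter, Set.mem_ofPred_eq] at hx hy
      have h2 : Function.update x i 0 = Function.update y i 0 := by rw [hx.2, hy.2]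
      funext j
      by_cases hj : j = i
      · rw [hj]; exact hxy
      · have h3 := congrFun h2 j
        rwa [Function.update_of_ne hj, Function.update_of_ne hj] at h3
  have h2 : (s.image fun a => Function.update a i 0).card ≤ (2 * H + 1) ^ (Fintype.card ι - 1) := by
    have h3 : (s.image fun a => Function.update a i 0) ⊆
        Fintype.piFinset (Function.update (fun _ : ι => Finset.Icc (-(H : ℤ)) H) i {0}) := by
      intro b hb
      obtain ⟨a, ha, rfl⟩ := Finset.mem_image.1 hb
      rw [Fintype.mem_piFinset]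
      intro j
      by_cases hj : j = i
      · subst hj
        rw [Function.update_self, Function.update_self]
        exact Finset.mem_singleton_self _
      · rw [Function.update_of_ne hj, Function.update_of_ne hj]
        exact Fintype.mem_piFinset.1 (Finset.mem_filter.1 ha).1 j
    refine (Finset.card_le_card h3).trans ?_
    rw [Fintype.card_piFinset, ← Finset.mul_prod_erase _ _ (Finset.mem_univ i),
      Function.update_self, Finset.card_singleton, one_mul]
    have h4 : ∀ j ∈ Finset.univ.erase i, (Function.update (fun _ : ι => Finset.Icc (-(H : ℤ)) H)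
        i {0} j).card = 2 * H + 1 := by
      intro j hj
      rw [Function.update_of_ne (Finset.ne_of_mem_erase hj), Int.card_Icc]
      omega
    rw [Finset.prod_congr rfl h4, Finset.prod_const, Finset.card_erase_of_mem (Finset.mem_univ i),
      Finset.card_univ]
  exact h1.trans (Nat.mul_le_mul_left _ h2)

theorem count_bad {ι : Type} [Fintype ι] [DecidableEq ι] {i₀ i₁ i₂ : ι} (h01 : i₀ ≠ i₁)
    (h02 : i₀ ≠ i₂) (h12 : i₁ ≠ i₂) (Bad : Set (ι → ℤ)) (N₀ : ℕ)
    (h : ∀ a : ι → ℤ, a i₂ ≠ 0 → ∃ S : Finset ℤ, S.card ≤ N₀ ∧ ∀ α ∉ S,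
      ∃ T : Finset ℤ, T.card ≤ N₀ ∧ ∀ β ∉ T,
        Function.update (Function.update a i₀ α) i₁ β ∉ Bad) (H : ℕ) :
    {a : ι → ℤ | (∀ i, |a i| ≤ H) ∧ a ∈ Bad}.ncard ≤
      (2 * N₀ + 1) * (2 * H + 1) ^ (Fintype.card ι - 1) := by
  classical
  have hS : ∀ a : ι → ℤ, ∃ S : Finset ℤ, S.card ≤ N₀ ∧ (a i₂ ≠ 0 → ∀ α ∉ S,
      ∃ T : Finset ℤ, T.card ≤ N₀ ∧ ∀ β ∉ T,
        Function.update (Function.update a i₀ α) i₁ β ∉ Bad) := by
    intro a
    by_cases ha : a i₂ = 0
    · exact ⟨∅, by simp, fun h => absurd ha h⟩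
    · obtain ⟨S, hS1, hS2⟩ := h a ha
      exact ⟨S, hS1, fun _ => hS2⟩
  choose S hS1 hS2 using hS
  have hT : ∀ (a : ι → ℤ) (α : ℤ), ∃ T : Finset ℤ, T.card ≤ N₀ ∧ (a i₂ ≠ 0 → α ∉ S a → ∀ β ∉ T,
        Function.update (Function.update a i₀ α) i₁ β ∉ Bad) := by
    intro a α
    by_cases ha : a i₂ ≠ 0 ∧ α ∉ S a
    · obtain ⟨T, hT1, hT2⟩ := hS2 a ha.1 α ha.2
      exact ⟨T, hT1, fun _ _ => hT2⟩
    · exact ⟨∅, by simp, fun h1 h2 => absurd ⟨h1, h2⟩ ha⟩
  choose T hT1 hT2 using hT
  set B := Fintype.piFinset fun _ : ι => Finset.Icc (-(H : ℤ)) H with hB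
  have key : {a : ι → ℤ | (∀ i, |a i| ≤ H) ∧ a ∈ Bad} ⊆
      (((B.filter fun a => a i₂ ∈ ({0} : Finset ℤ)) ∪
        (B.filter fun a => a i₀ ∈ S (Function.update (Function.update (Function.update a i₀ 0) i₀ 0)
          i₁ 0))) ∪
        (B.filter fun a => a i₁ ∈ T (Function.update (Function.update (Function.update a i₁ 0) i₀ 0)
          i₁ 0) (Function.update a i₁ 0 i₀)) : Finset (ι → ℤ)) := by
    rintro a ⟨ha1, ha2⟩
    have haB : a ∈ B := by
      rw [hB, Fintype.mem_piFinset]
      intro i
      rw [Finset.mem_Icc]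
      exact abs_le.1 (ha1 i)
    have e1 : Function.update (Function.update (Function.update a i₀ 0) i₀ 0) i₁ 0 =
        Function.update (Function.update a i₀ 0) i₁ 0 := by
      rw [Function.update_idem]
    have e2 : Function.update (Function.update (Function.update a i₁ 0) i₀ 0) i₁ 0 =
        Function.update (Function.update a i₀ 0) i₁ 0 := by
      rw [Function.update_comm h01.symm, Function.update_idem]
    have e3 : Function.update a i₁ 0 i₀ = a i₀ := Function.update_of_ne h01 _ _
    have e4 : Function.update (Function.update (Function.update (Function.update a i₀ 0) i₁ 0) i₀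
        (a i₀)) i₁ (a i₁) = a := by
      funext j
      by_cases hj1 : j = i₁
      · subst hj1; rw [Function.update_self]
      · rw [Function.update_of_ne hj1]
        by_cases hj0 : j = i₀
        · subst hj0; rw [Function.update_self]
        · rw [Function.update_of_ne hj0, Function.update_of_ne hj1, Function.update_of_ne hj0]
    have e5 : Function.update (Function.update a i₀ 0) i₁ 0 i₂ = a i₂ := by
      rw [Function.update_of_ne h12.symm, Function.update_of_ne h02.symm]
    rw [Finset.coe_union, Finset.coe_union]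
    by_cases h2 : a i₂ = 0
    · refine Or.inl (Or.inl ?_)
      rw [Finset.mem_coe, Finset.mem_filter]
      exact ⟨haB, by rw [h2]; exact Finset.mem_singleton_self _⟩
    by_cases h3 : a i₀ ∈ S (Function.update (Function.update a i₀ 0) i₁ 0)
    · refine Or.inl (Or.inr ?_)
      rw [Finset.mem_coe, Finset.mem_filter, e1]
      exact ⟨haB, h3⟩
    · refine Or.inr ?_
      rw [Finset.mem_coe, Finset.mem_filter, e2, e3]
      refine ⟨haB, ?_⟩
      by_contra h4
      exact hT2 _ _ (by rw [e5]; exact h2) h3 _ h4 (by rw [e4]; exact ha2)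
  refine (Set.ncard_le_ncard key (Finset.finite_toSet _)).trans ?_
  rw [Set.ncard_coe_finset]
  refine (Finset.card_union_le _ _).trans ?_
  refine (Nat.add_le_add_right (Finset.card_union_le _ _) _).trans ?_
  have k1 := count_coord i₂ 1 (fun _ => ({0} : Finset ℤ)) (fun _ => by simp) H
  have k2 := count_coord i₀ N₀ (fun a => S (Function.update (Function.update a i₀ 0) i₁ 0))
    (fun _ => hS1 _) H
  have k3 := count_coord i₁ N₀ (fun a => T (Function.update (Function.update a i₀ 0) i₁ 0) (a i₀))
    (fun _ => hT1 _ _) H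
  have k4 : (2 * N₀ + 1) * (2 * H + 1) ^ (Fintype.card ι - 1) =
      1 * (2 * H + 1) ^ (Fintype.card ι - 1) + N₀ * (2 * H + 1) ^ (Fintype.card ι - 1) +
      N₀ * (2 * H + 1) ^ (Fintype.card ι - 1) := by ring
  rw [k4]
  exact Nat.add_le_add (Nat.add_le_add k1 k2) k3

end Pool.Agent.LT
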