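import Pool.Agent.Helper13.LT.L0b
import Pool.Agent.Helper13.LT.A1
import Pool.Agent.Helper13.LT.A12
import Pool.Agent.SC.H1
import Pool.Agent.SC.Cov

/-!
# Block G0: uniqueness of the valuation ring on the good elements

`k = F(t, u)`, `C` its algebraic closure, `Ω` the algebraic closure of `F(t)` in `C`.  Let `z` be an
element of `C` which is fixed by the inertia groups of all good horizontal places.  Two places of
`C` above `t = 0` (`AtZero`) with the same trace on `Ω` contain `z` simultaneously.

Proof (same as the first part of the proof of block L1, `Helper13/LT/L1.lean`).  Let `E` =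
`algebraicClosure F C`, `O = W ∩ Ω = W' ∩ Ω`: `Base E O t`.  `B` = the set of the roots of `Δ(t, U)` in
`Ω`: it is contained in `O` (the leading coefficient is a nonzero constant), with different residues
(`Δ(0, U)` is separable of the same degree).  `N` = the Galois closure in `C` of `Ω(u)(z)` over
`Ω(u)`.  `Setup E O t B u` for `N` holds: if `P` is a place of `N / Ω` with `u - a ∈ 𝔪_P`, `a ∉ B`,
extend `P` to a valuation ring `W₁` of `C`: it is `Horizontal`, an automorphism of `N` over `Ω(u)` which
fixes `P` lifts to an element of the inertia group of `W₁`, which fixes `z` and (conjugate places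
are `Horizontal` too) all conjugates of `z`; so it is trivial and `ord_P (u - a) = 1` by
`ord_eq_one_local` (`LT/Ord1.lean`).  `W ∩ N` and `W' ∩ N` are Gauss extensions (`u` has a
transcendental residue since `F(u) ⊆ W`, so `E(u) ⊆ W`), so they have the same trace on `Ω(u)`
(`Gauss.val_poly`, A1), hence are conjugate (`SC.exists_conj_val`) and equal by `stable` (A12).
-/

universe u

namespace Pool.Agent.LT

open VC Polynomial Pool.Agent.SC

section GaussUnique

variable {E K N : Type u} [Field E] [IsAlgClosed E] [CharZero E] [Field K] [IsAlgClosed K]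
  [Algebra E K] [Field N] [Algebra K N] [Algebra E N] [IsScalarTower E K N]
  {O : ValuationSubring K} {t : K} {x : N} {V V' : ValuationSubring N}

omit [IsAlgClosed K] in
/-- Two Gauss extensions agree on `K(x)`. -/
theorem g0_gauss (h : Base E O t) (hV : Gauss E O x V) (hV' : Gauss E O x V') {m : N}
    (hm : m ∈ IntermediateField.adjoin K {x}) : m ∈ V ↔ m ∈ V' := by
  obtain ⟨p, q, rfl⟩ := (IntermediateField.mem_adjoin_simple_iff K m).1 hm
  rcases eq_or_ne (aeval x q) 0 with hq | hq
  · rw [hq, div_zero]
    exact ⟨fun _ => V'.zero_mem, fun _ => V.zero_mem⟩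
  have hq0 : q ≠ 0 := by
    rintro rfl
    exact hq (map_zero _)
  rcases eq_or_ne p 0 with rfl | hp
  · rw [map_zero, zero_div]
    exact ⟨fun _ => V'.zero_mem, fun _ => V.zero_mem⟩
  have key : ∀ {V : ValuationSubring N}, Gauss E O x V →
      (aeval x p / aeval x q ∈ V ↔ V.valuation (aeval x p) ≤ V.valuation (aeval x q)) := by
    intro V _
    rw [← V.valuation_le_one_iff, map_div₀, div_le_one₀]
    exact zero_lt_iff.2 ((Valuation.ne_zero_iff _).2 hq)
  obtain ⟨i, -, hi, hvi⟩ := A1.val_key h hV p hp
  obtain ⟨j, -, hj, hvj⟩ := A1.val_key h hV q hq0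
  obtain ⟨i', -, hi', hvi'⟩ := A1.val_key h hV' p hp
  obtain ⟨j', -, hj', hvj'⟩ := A1.val_key h hV' q hq0
  rw [key hV, key hV', hvi, hvj, hvi', hvj', hV.val_eq_iff, hV'.val_eq_iff,
    le_antisymm (hi i') (hi' i), le_antisymm (hj j') (hj' j)]

end GaussUnique

section Parts

open Module Pool.Agent.Helper91.Sect Pool.Agent.SC.H1

section Core0

variable {F k E Ω M C : Type u} [Field F] [Field k] [Field E] [Field Ω] [Field M] [Field C]
  [Algebra F k] [Algebra k C] [Algebra F C] [IsScalarTower F k C] [IsGalois k C] [IsAlgClosed C]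
  [IsAlgClosed E] [CharZero E] [IsAlgClosed Ω] [CharZero Ω]
  [Algebra Ω M] [Algebra M C] [Algebra Ω C] [IsScalarTower Ω M C]
  [Algebra k M] [IsScalarTower k M C]
  [Algebra E Ω] [Algebra E M] [Algebra E C] [IsScalarTower E Ω M] [IsScalarTower E Ω C]
  [IsScalarTower E M C]

theorem g0_core (hEF : ∀ z : C, IsAlgebraic F z ↔ ∃ e : Ω, algebraMap Ω C e = z) (u : k)
    (hk : IntermediateField.adjoin F {u} = ⊤) (uM : M) (huM : algebraMap M C uM = algebraMap k C u)
    (hM : IntermediateField.adjoin Ω {uM} = ⊤) (hMt : Transcendental Ω uM)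
    (W W' : ValuationSubring C) (t' : Ω) (B : Finset Ω)
    (hWW : ∀ c : Ω, algebraMap Ω C c ∈ W ↔ algebraMap Ω C c ∈ W')
    (hbase : Base E (W.comap (algebraMap Ω C)) t')
    (hB1 : ∀ b ∈ B, b ∈ W.comap (algebraMap Ω C))
    (hB2 : ∀ b ∈ B, ∀ b' ∈ B, b ≠ b' → b - b' ∉ (W.comap (algebraMap Ω C)).nonunits)
    (huW : algebraMap k C u ∈ W) (huW' : algebraMap k C u ∈ W')
    (hutr : ∀ p : E[X], p ≠ 0 → aeval (algebraMap k C u) p ∉ W.nonunits)
    (hutr' : ∀ p : E[X], p ≠ 0 → aeval (algebraMap k C u) p ∉ W'.nonunits)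
    {z : C} (hhor : ∀ (W₁ : Place Ω C) (a : Ω), a ∉ B →
      algebraMap M C uM - algebraMap Ω C a ∈ W₁.ring.nonunits →
      ∀ τ : C ≃ₐ[k] C, InInert W₁.ring τ → τ z = z) :
    z ∈ W ↔ z ∈ W' := by
  classical
  have hgal : IsGalois M C := IsGalois.tower_top_of_isGalois k M C
  have hzint : IsIntegral M z := Algebra.IsIntegral.isIntegral (R := M) z
  set p := minpoly M z with hp
  set N := IntermediateField.adjoin M (p.rootSet C) with hN
  have hsplit : (p.map (algebraMap M C)).Splits := IsAlgClosed.splits _
  have hfinN : FiniteDimensional M N := by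
    refine IntermediateField.finiteDimensional_adjoin fun x _ => ?_
    exact Algebra.IsIntegral.isIntegral (R := M) x
  have hMsplit : IsSplittingField M N p := IntermediateField.adjoin_rootSet_isSplittingField hsplit
  have hnorm : Normal M N := Normal.of_isSplittingField p
  have hM0 : CharZero M := charZero_of_injective_algebraMap (algebraMap Ω M).injective
  have hgalN : IsGalois M N := ⟨⟩
  have hroot : ∀ w ∈ p.rootSet C, ∃ θ : C ≃ₐ[M] C, θ z = w := by
    intro w hw
    have h1 := (mem_rootSet.1 hw).2
    exact minpoly.exists_algEquiv_of_root' hzint.isAlgebraic h1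
  have hzN : z ∈ N := by
    refine IntermediateField.subset_adjoin _ _ ?_
    rw [mem_rootSet]
    exact ⟨minpoly.ne_zero hzint, minpoly.aeval M z⟩
  have sΩMN : IsScalarTower Ω M N := inferInstance
  have sΩN : IsScalarTower Ω N C := IsScalarTower.of_algebraMap_eq fun x => by
    rw [IsScalarTower.algebraMap_apply Ω M C, IsScalarTower.algebraMap_apply Ω M N]
    rfl
  have sEN : IsScalarTower E N C := IsScalarTower.of_algebraMap_eq fun x => rfl
  have sEΩN : IsScalarTower E Ω N := IsScalarTower.of_algebraMap_eq fun x => by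
    apply (algebraMap N C).injective
    rw [← IsScalarTower.algebraMap_apply E N C, ← IsScalarTower.algebraMap_apply Ω N C,
      ← IsScalarTower.algebraMap_apply E Ω C]
  have hff : IsFunctionField Ω N := by
    refine ⟨algebraMap M N uM, transc_of hMt, ?_⟩
    apply FiniteDimensional.of_finrank_pos
    rw [finrank_adjoin hM]
    exact finrank_pos
  set x : N := algebraMap M N uM with hx
  have hxC : (x : C) = algebraMap k C u := huM
  -- places
  have hfree : ∀ (P : Place Ω N) (a : Ω), a ∉ B → x - algebraMap Ω N a ∈ P.ring.nonunits →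
      ∀ σ : N ≃ₐ[M] N, (∀ y, σ y ∈ P.ring ↔ y ∈ P.ring) → σ = 1 := by
    intro P a ha hPa σ hσ
    obtain ⟨W₂, hW₂, τ, hτ, hτσ⟩ := l1_lift_inertia hEF u hk N P σ hσ
    have hPa' : algebraMap M C uM - algebraMap Ω C a ∈ W₂.ring.nonunits := by
      have h1 : algebraMap M C uM - algebraMap Ω C a = ((x - algebraMap Ω N a : N) : C) := by
        rw [IsScalarTower.algebraMap_apply Ω N C]
        rfl
      rw [h1, ValuationSubring.mem_nonunits_iff_or]
      rw [ValuationSubring.mem_nonunits_iff_or] at hPa
      rcases hPa with h2 | h2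
      · left
        rw [h2]
        rfl
      · right
        intro h3
        apply h2
        rw [← hW₂]
        exact h3
    have hτM : ∀ y : M, τ (algebraMap M C y) = algebraMap M C y := by
      intro y
      have h1 := hτσ (algebraMap M N y)
      rw [σ.commutes] at h1
      exact h1
    have hτroot : ∀ w ∈ p.rootSet C, τ w = w := by
      intro w hw
      obtain ⟨θ, rfl⟩ := hroot w hw
      let θk : C ≃ₐ[k] C := θ.restrictScalars k
      have hθΩ : ∀ c : Ω, θ (algebraMap Ω C c) = algebraMap Ω C c := fun c => by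
        rw [IsScalarTower.algebraMap_apply Ω M C, θ.commutes]
      let W2 : Place Ω C :=
        { ring := W₂.ring.comap ((θ : C ≃+* C) : C →+* C)
          algebraMap_mem := fun c => by
            rw [ValuationSubring.mem_comap]
            change θ (algebraMap Ω C c) ∈ W₂.ring
            rw [hθΩ]
            exact W₂.algebraMap_mem c
          ne_top := by
            intro h
            apply W₂.ne_top
            rw [eq_top_iff]
            intro y _
            have h1 : θ.symm y ∈ W₂.ring.comap ((θ : C ≃+* C) : C →+* C) := by rw [h]; trivial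
            rw [ValuationSubring.mem_comap] at h1
            have h2 : ((θ : C ≃+* C) : C →+* C) (θ.symm y) = y := θ.apply_symm_apply y
            rwa [h2] at h1 }
      have hW2 : ∀ y, y ∈ W2.ring ↔ θ y ∈ W₂.ring := fun y => Iff.rfl
      have hW2n : ∀ y, y ∈ W2.ring.nonunits ↔ θ y ∈ W₂.ring.nonunits := fun y =>
        mem_nonunits_comap ((θ : C ≃+* C) : C →+* C) W₂.ring y
      have hinv : ∀ y, θk⁻¹ y = θ.symm y := fun y => rfl
      have hmul : ∀ y, (θk⁻¹ * τ * θk) y = θ.symm (τ (θ y)) := fun y => rfl
      have h2 : (θk⁻¹ * τ * θk) z = z := by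
        refine hhor W2 a ha ?_ _ ⟨fun y => ?_, fun y hy => ?_⟩
        · rw [hW2n, map_sub, θ.commutes, hθΩ]
          exact hPa'
        · rw [hmul, hW2, hW2, θ.apply_symm_apply]
          exact hτ.1 _
        · rw [hmul, hW2n, map_sub, θ.apply_symm_apply]
          exact hτ.2 _ ((hW2 y).1 hy)
      rw [hmul] at h2
      have h3 := congrArg θ h2
      rwa [θ.apply_symm_apply] at h3
    let T : IntermediateField M C :=
      { carrier := {x | τ x = x}
        mul_mem' := fun {a b} ha hb => by
          change τ (a * b) = a * b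
          rw [map_mul, ha, hb]
        add_mem' := fun {a b} ha hb => by
          change τ (a + b) = a + b
          rw [map_add, ha, hb]
        algebraMap_mem' := hτM
        inv_mem' := fun a ha => by
          change τ a⁻¹ = a⁻¹
          rw [map_inv₀, ha] }
    have hNT : N ≤ T := IntermediateField.adjoin_le_iff.2 hτroot
    ext y
    have h1 : τ (y : C) = y := hNT y.2
    rw [← hτσ, h1]
    rfl
  have hgal2 : IsGalois (IntermediateField.adjoin Ω {x}) N := by
    have h1 : IntermediateField.adjoin Ω {x} =
        (⊤ : IntermediateField Ω M).map (IsScalarTower.toAlgHom Ω M N) := by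
      rw [← hM, IntermediateField.adjoin_map, Set.image_singleton]
      rfl
    let e : M ≃ₐ[Ω] (⊤ : IntermediateField Ω M).map (IsScalarTower.toAlgHom Ω M N) :=
      IntermediateField.topEquiv.symm.trans
        (IntermediateField.equivMap ⊤ (IsScalarTower.toAlgHom Ω M N))
    rw [h1]
    exact IsGalois.of_equiv_equiv (f := (e : M ≃+* _)) (g := RingEquiv.refl N) (by
      ext y
      rfl)
  have hs : Setup E (W.comap (algebraMap Ω C)) t' B x := by
    refine ⟨hbase, hff, transc_of hMt, hgal2, hB1, hB2, fun P a ha hPa => ?_⟩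
    have h1 : x - algebraMap Ω N a = algebraMap M N (uM - algebraMap Ω M a) := by
      rw [map_sub, ← IsScalarTower.algebraMap_apply]
    rw [h1]
    rw [h1] at hPa
    refine ord_eq_one_local hff ?_ ?_ P (fun σ hσ => ?_) hPa
    · rw [eq_top_iff, ← hM, IntermediateField.adjoin_simple_le_iff]
      have h2 := IntermediateField.mem_adjoin_simple_self Ω (uM - algebraMap Ω M a)
      have h3 := add_mem h2 (IntermediateField.algebraMap_mem
        (IntermediateField.adjoin Ω {uM - algebraMap Ω M a}) a)
      rwa [sub_add_cancel] at h3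
    · intro h
      apply hMt
      have h2 := h.add (isAlgebraic_algebraMap a)
      rwa [sub_add_cancel] at h2
    · rw [← h1] at hPa
      exact hfree P a ha hPa σ hσ
  have hV : Gauss E (W.comap (algebraMap Ω C)) x (W.comap (algebraMap N C)) := by
    refine ⟨fun c => ?_, ?_, fun q hq => ?_⟩
    · rw [ValuationSubring.mem_comap, ValuationSubring.mem_comap, ← IsScalarTower.algebraMap_apply]
    · rw [ValuationSubring.mem_comap]
      change (x : C) ∈ W
      rw [hxC]
      exact huW
    · rw [mem_nonunits_comap (algebraMap N C) W, ← aeval_algebraMap_apply]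
      have h1 : algebraMap N C x = algebraMap k C u := hxC
      rw [h1]
      exact hutr q hq
  have hV' : Gauss E (W.comap (algebraMap Ω C)) x (W'.comap (algebraMap N C)) := by
    refine ⟨fun c => ?_, ?_, fun q hq => ?_⟩
    · rw [ValuationSubring.mem_comap, ValuationSubring.mem_comap, ← IsScalarTower.algebraMap_apply]
      exact (hWW c).symm
    · rw [ValuationSubring.mem_comap]
      change (x : C) ∈ W'
      rw [hxC]
      exact huW'
    · rw [mem_nonunits_comap (algebraMap N C) W', ← aeval_algebraMap_apply]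
      have h1 : algebraMap N C x = algebraMap k C u := hxC
      rw [h1]
      exact hutr' q hq
  have hxM : ∀ m : M, algebraMap M N m ∈ IntermediateField.adjoin Ω {x} := by
    intro m
    have h1 : (⊤ : IntermediateField Ω M).map (IsScalarTower.toAlgHom Ω M N) =
        IntermediateField.adjoin Ω {x} := by
      rw [← hM, IntermediateField.adjoin_map, Set.image_singleton]
      rfl
    rw [← h1]
    exact ⟨m, IntermediateField.mem_top, rfl⟩
  obtain ⟨σ, hσ⟩ := exists_conj_val (L := M) (W.comap (algebraMap N C)) (W'.comap (algebraMap N C))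
    (fun c => g0_gauss hbase hV hV' (hxM c))
  have h1 := hσ (⟨z, hzN⟩ : N)
  have h2 := stable hs hV' (σ.restrictScalars Ω) (σ.commutes uM) (⟨z, hzN⟩ : N)
  exact h1.symm.trans h2

end Core0

section Mid0

variable {F k C K₁ Ω E : Type u} [Field F] [CharZero F] [Field k] [Field C] [Field K₁] [Field Ω]
  [Field E] [Algebra F k] [Algebra k C] [Algebra F C] [IsScalarTower F k C]
  [Algebra F K₁] [Algebra K₁ k] [IsScalarTower F K₁ k] [Algebra K₁ C] [IsScalarTower K₁ k C]
  [Algebra F Ω] [Algebra Ω C] [IsScalarTower F Ω C]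
  [Algebra E Ω] [Algebra E C] [IsScalarTower E Ω C] [Algebra F E] [IsScalarTower F E Ω]
  [IsAlgClosed C] [IsGalois k C] [IsAlgClosed Ω] [IsAlgClosed E]

theorem g0_mid (t1 : K₁) (u : k) (hk1 : IntermediateField.adjoin F {t1} = ⊤)
    (hk : IntermediateField.adjoin K₁ {u} = ⊤) (hut : Transcendental K₁ u)
    (hΩ : ∀ z : C, IsAlgebraic K₁ z ↔ ∃ e : Ω, algebraMap Ω C e = z)
    (hE : ∀ z : Ω, IsAlgebraic F z ↔ ∃ e : E, algebraMap E Ω e = z)
    {Δ : F[X][X]} (hΔ : GoodDisc Δ)
    (hcon : ∀ c ∈ IntermediateField.adjoin F {algebraMap K₁ k t1}, ∃ c' : K₁, algebraMap K₁ k c' = c)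
    {W W' : ValuationSubring C} (hW : AtZero F (algebraMap K₁ k t1) u W)
    (hW' : AtZero F (algebraMap K₁ k t1) u W') (ht10 : t1 ≠ 0)
    (hWW : ∀ c : Ω, algebraMap Ω C c ∈ W ↔ algebraMap Ω C c ∈ W') {z : C}
    (hhor : ∀ W₁ : ValuationSubring C, Horizontal F (algebraMap K₁ k t1) u
      (ev F (algebraMap K₁ k t1) u Δ) W₁ → ∀ τ : C ≃ₐ[k] C, InInert W₁ τ → τ z = z) :
    z ∈ W ↔ z ∈ W' := by
  have hΩ0 : CharZero Ω := charZero_of_injective_algebraMap (algebraMap F Ω).injective
  have hE0 : CharZero E := charZero_of_injective_algebraMap (algebraMap F E).injective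
  -- `t` in `Ω`
  obtain ⟨t', ht'⟩ := (hΩ (algebraMap K₁ C t1)).1 (isAlgebraic_algebraMap t1)
  have ht'k : algebraMap Ω C t' = algebraMap k C (algebraMap K₁ k t1) := by
    rw [ht', ← IsScalarTower.algebraMap_apply]
  -- transcendence
  have huC : Transcendental K₁ (algebraMap k C u) := by
    rwa [transcendental_algebraMap_iff (algebraMap k C).injective]
  have huΩ : Transcendental Ω (algebraMap k C u) := by
    intro h
    apply huC
    have h1 : ∃ P : IntermediateField K₁ C, ∀ z : C, z ∈ P ↔ ∃ e : Ω, algebraMap Ω C e = z :=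
      ⟨algebraicClosure K₁ C, fun z => by rw [mem_algebraicClosure_iff, hΩ]⟩
    have h2 : IsAlgebraic (algebraicClosure K₁ C) (algebraMap k C u) :=
      l1_alg_range (fun e => ⟨⟨algebraMap Ω C e, mem_algebraicClosure_iff.2 ((hΩ _).2 ⟨e, rfl⟩)⟩,
        rfl⟩) h
    exact h2.restrictScalars K₁
  -- `M`
  let M : IntermediateField Ω C := IntermediateField.adjoin Ω {algebraMap k C u}
  have hkM : ∀ c : k, algebraMap k C c ∈ M := by
    let T : IntermediateField K₁ k :=
      { (M.toSubfield).comap (algebraMap k C) with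
        algebraMap_mem' := fun c => by
          change algebraMap k C (algebraMap K₁ k c) ∈ M
          obtain ⟨e, he⟩ := (hΩ (algebraMap K₁ C c)).1 (isAlgebraic_algebraMap c)
          rw [← IsScalarTower.algebraMap_apply, ← he]
          exact M.algebraMap_mem e }
    have h1 : (⊤ : IntermediateField K₁ k) ≤ T := by
      rw [← hk, IntermediateField.adjoin_simple_le_iff]
      exact IntermediateField.mem_adjoin_simple_self Ω (algebraMap k C u)
    intro c
    exact h1 (IntermediateField.mem_top (x := c))
  let ikM : Algebra k M := ((algebraMap k C).codRestrict M.toSubring hkM).toAlgebra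
  have skM : IsScalarTower k M C := IsScalarTower.of_algebraMap_eq fun c => rfl
  let uM : M := IntermediateField.AdjoinSimple.gen Ω (algebraMap k C u)
  have huMt : Transcendental Ω uM := fun h => huΩ (h.algebraMap (A := C))
  have htop : IntermediateField.adjoin Ω {uM} = ⊤ := by
    apply IntermediateField.lift_injective M
    rw [IntermediateField.lift_adjoin_simple, IntermediateField.lift_top]
    rfl
  have sEM : IsScalarTower E M C := IsScalarTower.of_algebraMap_eq fun c => rfl
  have sEΩM : IsScalarTower E Ω M := IsScalarTower.of_algebraMap_eq fun c => by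
    apply (algebraMap M C).injective
    rw [← IsScalarTower.algebraMap_apply E M C, ← IsScalarTower.algebraMap_apply Ω M C,
      ← IsScalarTower.algebraMap_apply E Ω C]
  -- algebraic elements over `F(u)`
  have hWc : ∀ c : IntermediateField.adjoin F {u}, algebraMap (IntermediateField.adjoin F {u}) C c ∈ W :=
    fun c => hW.const c c.2
  have hWc' : ∀ c : IntermediateField.adjoin F {u}, algebraMap (IntermediateField.adjoin F {u}) C c ∈ W' :=
    fun c => hW'.const c c.2
  have hFu : ∀ z : C, IsAlgebraic F z → IsAlgebraic (IntermediateField.adjoin F {u}) z := fun z hz =>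
    l1_alg_range (A' := IntermediateField.adjoin F {u}) (fun a => ⟨algebraMap F _ a, by
      rw [← IsScalarTower.algebraMap_apply]⟩) hz
  have hEalg : ∀ e : E, IsAlgebraic F (algebraMap E C e) := fun e => by
    have h1 : IsAlgebraic F (algebraMap E Ω e) := (hE _).2 ⟨e, rfl⟩
    have h2 := h1.algebraMap (A := C)
    rwa [← IsScalarTower.algebraMap_apply] at h2
  have hbase : Base E (W.comap (algebraMap Ω C)) t' := by
    refine ⟨fun c => ?_, ?_, ?_, fun z => ?_⟩
    · rw [ValuationSubring.mem_comap, ← IsScalarTower.algebraMap_apply]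
      exact l1_alg_mem hWc (hFu _ (hEalg c))
    · intro h
      apply ht10
      rw [h, map_zero] at ht'
      exact (map_eq_zero _).1 ht'.symm
    · rw [mem_nonunits_comap (algebraMap Ω C) W, ht'k]
      exact hW.t_mem
    · have h1 : IsAlgebraic K₁ (algebraMap Ω C z) := (hΩ _).2 ⟨z, rfl⟩
      have h2 : IsAlgebraic (IntermediateField.adjoin E {t'}) (algebraMap Ω C z) := by
        refine l1_alg_range (fun a => ?_) h1
        let T : IntermediateField F K₁ :=
          { carrier := {a | ∃ a' : IntermediateField.adjoin E {t'},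
              algebraMap (IntermediateField.adjoin E {t'}) C a' = algebraMap K₁ C a}
            mul_mem' := by
              rintro a b ⟨a', ha⟩ ⟨b', hb⟩
              exact ⟨a' * b', by rw [map_mul, map_mul, ha, hb]⟩
            add_mem' := by
              rintro a b ⟨a', ha⟩ ⟨b', hb⟩
              exact ⟨a' + b', by rw [map_add, map_add, ha, hb]⟩
            algebraMap_mem' := fun c => by
              refine ⟨algebraMap E _ (algebraMap F E c), ?_⟩
              have h3 : algebraMap (IntermediateField.adjoin E {t'}) C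
                  (algebraMap E _ (algebraMap F E c)) = algebraMap Ω C (algebraMap E Ω (algebraMap F E c)) := rfl
              rw [h3, ← IsScalarTower.algebraMap_apply F E Ω, ← IsScalarTower.algebraMap_apply F Ω C,
                IsScalarTower.algebraMap_apply K₁ k C, ← IsScalarTower.algebraMap_apply F K₁ k,
                ← IsScalarTower.algebraMap_apply F k C]
            inv_mem' := by
              rintro a ⟨a', ha⟩
              exact ⟨a'⁻¹, by rw [map_inv₀, map_inv₀, ha]⟩ }
        have h4 : (⊤ : IntermediateField F K₁) ≤ T := by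
          rw [← hk1, IntermediateField.adjoin_simple_le_iff]
          exact ⟨⟨t', IntermediateField.mem_adjoin_simple_self E t'⟩, ht'⟩
        exact h4 (IntermediateField.mem_top (x := a))
      exact (isAlgebraic_algebraMap_iff (algebraMap Ω C).injective).1 h2
  have hFO : ∀ a : F, algebraMap F Ω a ∈ W.comap (algebraMap Ω C) := fun a => by
    rw [ValuationSubring.mem_comap, ← IsScalarTower.algebraMap_apply]
    exact l1_alg_mem hWc (hFu _ (isAlgebraic_algebraMap a))
  obtain ⟨B, hB1, hB2, hB3⟩ := l1_exists_roots hFO hbase.t_mem hΔ.lead hΔ.sep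
  have huF : u ∈ IntermediateField.adjoin F {u} := IntermediateField.mem_adjoin_simple_self F u
  have hnon : ∀ W₀ : ValuationSubring C, (∀ c : IntermediateField.adjoin F {u},
      algebraMap (IntermediateField.adjoin F {u}) C c ∈ W₀) → ∀ p : E[X], p ≠ 0 →
      aeval (algebraMap k C u) p ∉ W₀.nonunits := by
    intro W₀ hW₀ p hp
    refine l1_alg_not_nonunits hW₀ (l1_aeval_alg (fun e => hFu _ (hEalg e)) ?_ p) ?_
    · exact isAlgebraic_algebraMap (⟨u, huF⟩ : IntermediateField.adjoin F {u})
    · intro h0
      apply huΩ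
      refine ⟨p.map (algebraMap E Ω), ?_, ?_⟩
      · rwa [Ne, Polynomial.map_eq_zero]
      · rwa [Polynomial.aeval_map_algebraMap]
  refine g0_core (E := E) (M := M) hΩ u hk uM rfl htop huMt W W' t' B hWW hbase hB1 hB2
    (hW.const u huF) (hW'.const u huF) (hnon W hWc) (hnon W' hWc') ?_
  intro W₁ a ha hua τ hτ
  have hu : algebraMap k C u ∈ W₁.ring := by
    have h1 := W₁.ring.add_mem _ _ (W₁.ring.nonunits_subset hua) (W₁.algebraMap_mem a)
    have h2 : algebraMap M C uM - algebraMap Ω C a + algebraMap Ω C a = algebraMap k C u :=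
      sub_add_cancel _ _
    rwa [h2] at h1
  refine hhor W₁.ring ⟨W₁.ne_top, fun c hc => ?_, hu, l1_unit ht'k Δ W₁ hu hua (hB3 a ha)⟩ τ hτ
  obtain ⟨c', rfl⟩ := hcon c hc
  rw [← IsScalarTower.algebraMap_apply]
  obtain ⟨e, he⟩ := (hΩ (algebraMap K₁ C c')).1 (isAlgebraic_algebraMap c')
  rw [← he]
  exact W₁.algebraMap_mem e

end Mid0

end Parts

variable {F k C : Type u} [Field F] [CharZero F] [Field k] [Field C] [Algebra F k] [Algebra k C]
  [Algebra F C] [IsScalarTower F k C]

theorem level_unique [IsAlgClosed C] [IsGalois k C] (t u : k)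
    (htu : AlgebraicIndependent F ![t, u]) (htop : IntermediateField.adjoin F {t, u} = ⊤)
    {Δ : F[X][X]} (hΔ : GoodDisc Δ) {W W' : ValuationSubring C} (hW : AtZero F t u W)
    (hW' : AtZero F t u W')
    (hO : ∀ c ∈ algebraicClosure (IntermediateField.adjoin F {t}) C, c ∈ W ↔ c ∈ W') {z : C}
    (hz : ∀ W₁ : ValuationSubring C, Horizontal F t u (ev F t u Δ) W₁ → ∀ τ : C ≃ₐ[k] C,
      InInert W₁ τ → τ z = z) : z ∈ W ↔ z ∈ W' := by
  let kt := IntermediateField.adjoin F {t}
  let t1 : kt := ⟨t, IntermediateField.mem_adjoin_simple_self F t⟩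
  let Ω := algebraicClosure kt C
  let j1 : Algebra F Ω := inferInstance
  have i3 : IsScalarTower F Ω C := IsScalarTower.of_algebraMap_eq fun x => rfl
  have iΩ : IsAlgClosed Ω := (inferInstance : IsAlgClosure kt Ω).isAlgClosed
  let E := algebraicClosure F Ω
  have iE : IsAlgClosed E := (inferInstance : IsAlgClosure F E).isAlgClosed
  have hk1 : IntermediateField.adjoin F {t1} = ⊤ := by
    apply IntermediateField.lift_injective kt
    rw [IntermediateField.lift_adjoin_simple, IntermediateField.lift_top]
  have ht10 : t1 ≠ 0 := by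
    intro h
    apply transc_F_t htu
    have h1 : t = 0 := congrArg Subtype.val h
    rw [h1]
    exact isAlgebraic_zero
  exact g0_mid (E := E) (Ω := Ω) (K₁ := kt) t1 u hk1 (adjoin_u_top htop) (transc_u htu)
    (fun z => ⟨fun h => ⟨⟨z, mem_algebraicClosure_iff.2 h⟩, rfl⟩, by
      rintro ⟨e, rfl⟩
      exact mem_algebraicClosure_iff.1 e.2⟩)
    (fun z => ⟨fun h => ⟨⟨z, mem_algebraicClosure_iff.2 h⟩, rfl⟩, by
      rintro ⟨e, rfl⟩
      exact mem_algebraicClosure_iff.1 e.2⟩)
    hΔ (fun c hc => ⟨⟨c, hc⟩, rfl⟩) hW hW' ht10 (fun c => hO c c.2) hz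

end Pool.Agent.LT
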