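import Pool.Agent.Helper13.LG.G0
import Pool.Agent.Helper91.Section.Decomp
import Pool.Agent.SC.H1

/-!
# Block G1: the decomposition group of `W` and the finite extension `M` of `k = F(t, u)`

Let `N∞ = {z | z is fixed by the inertia groups of all good horizontal places}`.  It is an
intermediate field of `C / k`, normal over `k` (for `τ ∈ Gal(C/k)` and `W₁` horizontal, the conjugate of
`W₁` is horizontal, and its inertia group is the conjugate), it contains `Ω` (algebraic closure of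
`F(t)`: `Ω ⊆ W₁` is trivially valued, so `τ c - c ∈ Ω ∩ 𝔪 = 0`) and `M` (`hhor`, `hHM`).

Common step: let `τ : C ≃ₐ[k] C` and suppose that `W'' = {z | τ z ∈ W}` has the same trace on `Ω` as
`W`.  `W''` is `AtZero`.  By `level_unique` (G0) `W` and `W''` have the same trace on `N∞`, so there is
`σ ∈ Gal(C/N∞)` with `τ σ ∈ D_W` (`Helper91.Sect.exists_conj` for the closed subgroup
`N∞.fixingSubgroup`, or see the proof of `SC.H1.exists_inertia`; `SC.exists_conj_val` over the base field `N∞`).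

`compositum_part`: let `τ ∈ Gal(C/Ω(M))`.  It is trivial on `Ω`, so the common step gives `σ` with
`τ σ ∈ D_W`, and `τ σ` fixes `M` (`M ⊆ N∞`), so `τ σ ∈ H`, `z = τ σ z = τ z` (`z ∈ N∞`).  So `z` is
fixed by `Gal(C/Ω(M))`, `z ∈ Ω(M)`.

`decomp_part`: let `τ ∈ D_W` and `τ' ∈ Gal(C/M)` equal to `τ` on `Ω(u)` (`hreg`).  `W'' = {z | τ' z ∈ W}` has
the same trace on `Ω` as `W` (`τ' c = τ c ∈ W ↔ c ∈ W`).  So `τ' σ ∈ D_W ∩ Gal(C/M) ⊆ H` for
some `σ ∈ Gal(C/N∞)`, and `w = τ' σ w = τ' w = τ w`.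
-/

universe u

namespace Pool.Agent.LT

open VC Polynomial Pool.Agent.SC

variable {F k C : Type u} [Field F] [CharZero F] [Field k] [Field C] [Algebra F k] [Algebra k C]
  [Algebra F C] [IsScalarTower F k C]

section G1aux56

open Pool.Agent.Helper91.Sect Pool.Agent.SC.H1

omit [CharZero F] in
private theorem mem_nonunits_comap56 (θ : C ≃ₐ[k] C) (W : ValuationSubring C) (y : C) :
    y ∈ (W.comap ((θ : C ≃+* C) : C →+* C)).nonunits ↔ θ y ∈ W.nonunits :=
  mem_nonunits_comap ((θ : C ≃+* C) : C →+* C) W y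

/-- the elements fixed by the inertia groups of all good horizontal places -/
private noncomputable def Ninf56 (F : Type u) {k C : Type u} [Field F] [Field k] [Field C]
    [Algebra F k] [Algebra k C] (t u d : k) : IntermediateField k C where
  carrier := {z | ∀ W₁ : ValuationSubring C, Horizontal F t u d W₁ → ∀ τ : C ≃ₐ[k] C,
    InInert W₁ τ → τ z = z}
  mul_mem' := fun {a b} ha hb W₁ h τ hτ => by
    rw [map_mul, ha W₁ h τ hτ, hb W₁ h τ hτ]
  add_mem' := fun {a b} ha hb W₁ h τ hτ => by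
    rw [map_add, ha W₁ h τ hτ, hb W₁ h τ hτ]
  algebraMap_mem' := fun c W₁ _ τ _ => τ.commutes c
  inv_mem' := fun a ha W₁ h τ hτ => by
    rw [map_inv₀, ha W₁ h τ hτ]

omit [CharZero F] [Algebra F C] [IsScalarTower F k C] in
private theorem mem_Ninf56 {t u d : k} {z : C} : z ∈ Ninf56 (C := C) F t u d ↔
    ∀ W₁ : ValuationSubring C, Horizontal F t u d W₁ → ∀ τ : C ≃ₐ[k] C,
      InInert W₁ τ → τ z = z := Iff.rfl

omit [CharZero F] in
private theorem atZero_comap56 {t u : k} {W : ValuationSubring C} (hW : AtZero F t u W)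
    (θ : C ≃ₐ[k] C) : AtZero F t u (W.comap ((θ : C ≃+* C) : C →+* C)) := by
  refine ⟨fun c hc => ?_, ?_⟩
  · change θ (algebraMap k C c) ∈ W
    rw [θ.commutes]
    exact hW.const c hc
  · rw [mem_nonunits_comap56, θ.commutes]
    exact hW.t_mem

private theorem common56 [IsAlgClosed C] [IsGalois k C] (t u : k)
    (htu : AlgebraicIndependent F ![t, u]) (htop : IntermediateField.adjoin F {t, u} = ⊤)
    {Δ : F[X][X]} (hΔ : GoodDisc Δ) {W : ValuationSubring C} (hW : AtZero F t u W)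
    (τ : C ≃ₐ[k] C)
    (hτ : ∀ c ∈ algebraicClosure (IntermediateField.adjoin F {t}) C, c ∈ W ↔ τ c ∈ W) :
    ∃ σ : C ≃ₐ[k] C, InDecomp W (τ * σ) ∧
      ∀ z ∈ Ninf56 (C := C) F t u (ev F t u Δ), σ z = z := by
  have h1 := exists_conj_val (L := Ninf56 (C := C) F t u (ev F t u Δ)) W
    (W.comap ((τ : C ≃+* C) : C →+* C)) (fun c => by
      exact level_unique t u htu htop hΔ hW (atZero_comap56 hW τ) (fun c hc => hτ c hc)
        (z := (c : C)) c.2)
  obtain ⟨σ, hσ⟩ := h1
  refine ⟨σ.restrictScalars k, fun z => ?_, fun z hz => ?_⟩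
  · exact hσ z
  · exact σ.commutes ⟨z, hz⟩

end G1aux56

theorem compositum_part [IsAlgClosed C] [IsGalois k C] (t u : k)
    (htu : AlgebraicIndependent F ![t, u]) (htop : IntermediateField.adjoin F {t, u} = ⊤)
    {Δ : F[X][X]} (hΔ : GoodDisc Δ) (M : IntermediateField k C)
    (H : Subgroup (C ≃ₐ[k] C)) (hHM : H ≤ M.fixingSubgroup)
    (hhor : ∀ W : ValuationSubring C, Horizontal F t u (ev F t u Δ) W → ∀ τ : C ≃ₐ[k] C,
      InInert W τ → τ ∈ H)
    {W : ValuationSubring C} (hW : AtZero F t u W)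
    (hdec : ∀ τ ∈ M.fixingSubgroup, InDecomp W τ → τ ∈ H)
    {z : C} (hz : ∀ τ ∈ H, τ z = z) :
    z ∈ IntermediateField.adjoin (algebraicClosure (IntermediateField.adjoin F {t}) C)
      (M : Set C) := by
  have hM : ∀ m ∈ M, m ∈ Ninf56 (C := C) F t u (ev F t u Δ) := fun m hm W₁ h τ hτ =>
    (IntermediateField.mem_fixingSubgroup_iff M τ).1 (hHM (hhor W₁ h τ hτ)) m hm
  have hzN : z ∈ Ninf56 (C := C) F t u (ev F t u Δ) := fun W₁ h τ hτ => hz τ (hhor W₁ h τ hτ)
  set Ω := algebraicClosure (IntermediateField.adjoin F {t}) C with hΩ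
  set L := IntermediateField.adjoin Ω (M : Set C) with hL
  have hkL : ∀ c : k, algebraMap k C c ∈ L := fun c =>
    IntermediateField.subset_adjoin Ω (M : Set C) (M.algebraMap_mem c)
  let ikL : Algebra k L := ((algebraMap k C).codRestrict L.toSubring hkL).toAlgebra
  have skL : IsScalarTower k L C := IsScalarTower.of_algebraMap_eq fun c => rfl
  have hgal : IsGalois L C := IsGalois.tower_top_of_isGalois k L C
  have h2 : z ∈ Set.range (algebraMap L C) := by
    rw [InfiniteGalois.mem_range_algebraMap_iff_fixed]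
    intro τ
    let τk : C ≃ₐ[k] C := τ.restrictScalars k
    have hτΩ : ∀ c ∈ Ω, τk c = c := fun c hc => by
      have h3 := τ.commutes (algebraMap Ω L ⟨c, hc⟩)
      exact h3
    have hτM : ∀ m ∈ M, τk m = m := fun m hm =>
      τ.commutes ⟨m, IntermediateField.subset_adjoin Ω (M : Set C) hm⟩
    obtain ⟨σ, hσ, hσN⟩ := common56 t u htu htop hΔ hW τk (fun c hc => by rw [hτΩ c hc])
    have h4 : τk * σ ∈ H := by
      refine hdec _ ((IntermediateField.mem_fixingSubgroup_iff M _).2 fun m hm => ?_) hσ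
      change τk (σ m) = m
      rw [hσN m (hM m hm), hτM m hm]
    have h5 := hz _ h4
    change τk (σ z) = z at h5
    rwa [hσN z hzN] at h5
  obtain ⟨y, hy⟩ := h2
  rw [← hy]
  exact y.2

theorem decomp_part [IsAlgClosed C] [IsGalois k C] (t u : k)
    (htu : AlgebraicIndependent F ![t, u]) (htop : IntermediateField.adjoin F {t, u} = ⊤)
    {Δ : F[X][X]} (hΔ : GoodDisc Δ) (M : IntermediateField k C)
    (H : Subgroup (C ≃ₐ[k] C)) (hHM : H ≤ M.fixingSubgroup)
    (hhor : ∀ W : ValuationSubring C, Horizontal F t u (ev F t u Δ) W → ∀ τ : C ≃ₐ[k] C,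
      InInert W τ → τ ∈ H)
    {W : ValuationSubring C} (hW : AtZero F t u W)
    (hdec : ∀ τ ∈ M.fixingSubgroup, InDecomp W τ → τ ∈ H)
    (hreg : ∀ τ : C ≃ₐ[k] C, ∃ τ' ∈ M.fixingSubgroup,
      ∀ w ∈ algebraicClosure (IntermediateField.adjoin F {t}) C, τ' w = τ w)
    {w : C} (hw : w ∈ IntermediateField.adjoin
      (algebraicClosure (IntermediateField.adjoin F {t}) C) {algebraMap k C u})
    (hwH : ∀ τ ∈ H, τ w = w) (τ : C ≃ₐ[k] C) (hτ : InDecomp W τ) : τ w = w := by
  obtain ⟨τ', hτ'M, hτ'⟩ := hreg τ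
  have hM : ∀ m ∈ M, m ∈ Ninf56 (C := C) F t u (ev F t u Δ) := fun m hm W₁ h τ hτ =>
    (IntermediateField.mem_fixingSubgroup_iff M τ).1 (hHM (hhor W₁ h τ hτ)) m hm
  have hwN : w ∈ Ninf56 (C := C) F t u (ev F t u Δ) := fun W₁ h τ hτ => hwH τ (hhor W₁ h τ hτ)
  obtain ⟨σ, hσ, hσN⟩ := common56 t u htu htop hΔ hW τ' (fun c hc => by
    rw [hτ' c hc]; exact (hτ c).symm)
  have h4 : τ' * σ ∈ H := by
    refine hdec _ ((IntermediateField.mem_fixingSubgroup_iff M _).2 fun m hm => ?_) hσ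
    change τ' (σ m) = m
    rw [hσN m (hM m hm)]
    exact (IntermediateField.mem_fixingSubgroup_iff M τ').1 hτ'M m hm
  have h5 := hwH _ h4
  change τ' (σ w) = w at h5
  rw [hσN w hwN] at h5
  set Ω := algebraicClosure (IntermediateField.adjoin F {t}) C with hΩ
  let T : IntermediateField Ω C :=
    { carrier := {x | τ' x = τ x}
      mul_mem' := fun {a b} ha hb => by
        change τ' (a * b) = τ (a * b)
        rw [map_mul, map_mul, show τ' a = τ a from ha, show τ' b = τ b from hb]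
      add_mem' := fun {a b} ha hb => by
        change τ' (a + b) = τ (a + b)
        rw [map_add, map_add, show τ' a = τ a from ha, show τ' b = τ b from hb]
      algebraMap_mem' := fun c => hτ' c c.2
      inv_mem' := fun a ha => by
        change τ' a⁻¹ = τ a⁻¹
        rw [map_inv₀, map_inv₀, show τ' a = τ a from ha] }
  have h6 : IntermediateField.adjoin Ω {algebraMap k C u} ≤ T := by
    rw [IntermediateField.adjoin_simple_le_iff]
    change τ' (algebraMap k C u) = τ (algebraMap k C u)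
    rw [τ'.commutes, τ.commutes]
  have h7 : τ' w = τ w := h6 hw
  rw [← h7, h5]

end Pool.Agent.LT
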