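import Pool.Agent.Helper13.LG.G1
import Pool.Agent.Helper13.LT.L2
import Pool.Agent.Helper13.LT.L3

/-!
# Block G2: the Lefschetz theorem for finite extensions `M` of `k = F(t, u)`

Proof.  Let `z` be fixed by `H`.  By `compositum_part` `z ∈ Ω(M)`, `Ω` the algebraic closure of
`F(t)` in `C`.  Every `w ∈ Ω(u)` which is fixed by `H` is in `k`: by L2 (`vertical_part`) it is in
`E_u(θ)`, by `decomp_part` (G1) it is fixed by the decomposition group of `W` in `Gal(C/k)`, and L3
(`zero_part`) applies.  Let `L = Ω(u)` (as an intermediate field of `C / k`; it is Galois over `k`).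
The subgroup `H · Gal(C/L)` of `Gal(C/k)` is closed (product of a compact subgroup and a closed normal
subgroup) and its fixed field is `{w ∈ L | w fixed by H} = k`, so it is everything.  Let
`τ ∈ Gal(C/M)`: there is `h ∈ H` with `h = τ` on `L`; both are trivial on `M`, so `h = τ` on `Ω(M)`, and
`τ z = h z = z`.  So the fixed field of `H` is contained in `M`, and `M.fixingSubgroup ≤ H` as `H` is
closed.
-/

universe u

namespace Pool.Agent.LT

open VC Polynomial Pool.Agent.SC

variable {F k C : Type u} [Field F] [CharZero F] [Field k] [Field C] [Algebra F k] [Algebra k C]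
  [Algebra F C] [IsScalarTower F k C]

/-- `k(Ω) = Ω(u)`, as sets -/
private theorem adjoin_sub11 (t u : k) (htop : IntermediateField.adjoin F {t, u} = ⊤) {w : C}
    (hw : w ∈ IntermediateField.adjoin k
      (algebraicClosure (IntermediateField.adjoin F {t}) C : Set C)) :
    w ∈ IntermediateField.adjoin (algebraicClosure (IntermediateField.adjoin F {t}) C)
      {algebraMap k C u} := by
  let Ω := algebraicClosure (IntermediateField.adjoin F {t}) C
  let L0 : IntermediateField Ω C := IntermediateField.adjoin Ω {algebraMap k C u}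
  have hΩ : ∀ x : C, x ∈ Ω → x ∈ L0 := fun x hx => L0.algebraMap_mem (⟨x, hx⟩ : Ω)
  have hk : ∀ c : k, algebraMap k C c ∈ L0 := by
    let S : IntermediateField F k :=
      { (L0.toSubfield.comap (algebraMap k C)) with
        algebraMap_mem' := by
          intro c
          change algebraMap k C (algebraMap F k c) ∈ L0
          refine hΩ _ ?_
          have h1 : algebraMap k C (algebraMap F k c) =
              algebraMap (IntermediateField.adjoin F {t}) C (algebraMap F _ c) := rfl
          rw [h1]
          exact (algebraicClosure (IntermediateField.adjoin F {t}) C).algebraMap_mem _ }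
    have h2 : IntermediateField.adjoin F {t, u} ≤ S := by
      rw [IntermediateField.adjoin_le_iff]
      rintro x (rfl | rfl)
      · change algebraMap k C x ∈ L0
        refine hΩ _ ?_
        have h1 : algebraMap k C x = algebraMap (IntermediateField.adjoin F {x}) C
            ⟨x, IntermediateField.mem_adjoin_simple_self F x⟩ := rfl
        rw [h1]
        exact (algebraicClosure (IntermediateField.adjoin F {x}) C).algebraMap_mem _
      · change algebraMap k C x ∈ L0
        exact IntermediateField.mem_adjoin_simple_self Ω _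
    rw [htop] at h2
    exact fun c => h2 (IntermediateField.mem_top (x := c))
  let L1 : IntermediateField k C :=
    { L0.toSubfield with
      algebraMap_mem' := hk }
  have h3 : IntermediateField.adjoin k (Ω : Set C) ≤ L1 := by
    rw [IntermediateField.adjoin_le_iff]
    exact fun x hx => hΩ x hx
  exact h3 hw

/-- automorphisms over `k` preserve `Ω` -/
private theorem map_omega11 (t : k) (τ : C ≃ₐ[k] C) {w : C}
    (hw : w ∈ algebraicClosure (IntermediateField.adjoin F {t}) C) :
    τ w ∈ algebraicClosure (IntermediateField.adjoin F {t}) C := by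
  rw [mem_algebraicClosure_iff] at hw ⊢
  exact hw.algHom ((τ.restrictScalars (IntermediateField.adjoin F {t})) : C →ₐ[IntermediateField.adjoin F {t}] C)

open scoped Pointwise in
theorem lefschetz_gen [IsAlgClosed C] [IsGalois k C]
    (hF : ∃ S : Finset F, Subfield.closure (S : Set F) = ⊤) (t u : k)
    (htu : AlgebraicIndependent F ![t, u]) (htop : IntermediateField.adjoin F {t, u} = ⊤)
    {Δ : F[X][X]} (hΔ : GoodDisc Δ) (M : IntermediateField k C)
    (H : Subgroup (C ≃ₐ[k] C)) (hcl : IsClosed (H : Set (C ≃ₐ[k] C)))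
    (hHM : H ≤ M.fixingSubgroup)
    (hreg : ∀ τ : C ≃ₐ[k] C, ∃ τ' ∈ M.fixingSubgroup,
      ∀ w ∈ algebraicClosure (IntermediateField.adjoin F {t}) C, τ' w = τ w)
    (hhor : ∀ W : ValuationSubring C, Horizontal F t u (ev F t u Δ) W → ∀ τ : C ≃ₐ[k] C,
      InInert W τ → τ ∈ H)
    (hver : ∀ W : ValuationSubring C, Vertical F t u (ev F t u Δ) W → ∀ τ : C ≃ₐ[k] C,
      InInert W τ → τ ∈ H)
    {W : ValuationSubring C} (hW : AtZero F t u W)
    (hdec : ∀ τ ∈ M.fixingSubgroup, InDecomp W τ → τ ∈ H) : H = M.fixingSubgroup := by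
  classical
  let kt := IntermediateField.adjoin F {t}
  let Ω := algebraicClosure kt C
  let L : IntermediateField k C := IntermediateField.adjoin k (Ω : Set C)
  have hτL : ∀ (τ : C ≃ₐ[k] C) {w : C}, w ∈ L → τ w ∈ L := by
    intro τ w hw
    have h1 : τ w ∈ L.map (τ : C →ₐ[k] C) := ⟨w, hw, rfl⟩
    have h2 : L.map (τ : C →ₐ[k] C) ≤ L := by
      change (IntermediateField.adjoin k (Ω : Set C)).map (τ : C →ₐ[k] C) ≤ _
      rw [IntermediateField.adjoin_map, IntermediateField.adjoin_le_iff]
      rintro _ ⟨x, hx, rfl⟩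
      exact IntermediateField.subset_adjoin _ _ (map_omega11 t τ hx)
    exact h2 h1
  let N : Subgroup (C ≃ₐ[k] C) := L.fixingSubgroup
  have hNn : N.Normal := by
    refine ⟨fun n hn g => ?_⟩
    rw [IntermediateField.mem_fixingSubgroup_iff] at hn ⊢
    intro x hx
    have h1 : g⁻¹ x ∈ L := hτL g⁻¹ hx
    have h2 := hn _ h1
    change g (n (g⁻¹ x)) = x
    rw [h2]
    exact g.apply_symm_apply x
  have hclosed : IsClosed ((H ⊔ N : Subgroup (C ≃ₐ[k] C)) : Set (C ≃ₐ[k] C)) := by
    rw [Subgroup.mul_normal]
    have h1 : IsCompact (H : Set (C ≃ₐ[k] C)) := hcl.isCompact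
    have h2 : IsCompact (N : Set (C ≃ₐ[k] C)) := (InfiniteGalois.fixingSubgroup_isClosed L).isCompact
    exact (h1.mul h2).isClosed
  have hfix : IntermediateField.fixedField (H ⊔ N : Subgroup (C ≃ₐ[k] C)) = ⊥ := by
    rw [eq_bot_iff]
    intro w hw
    have hwH : ∀ τ ∈ H, τ w = w := fun τ hτ => hw ⟨τ, (le_sup_left : H ≤ H ⊔ N) hτ⟩
    have hwN : w ∈ IntermediateField.fixedField N := by
      rw [IntermediateField.mem_fixedField_iff]
      exact fun τ hτ => hw ⟨τ, (le_sup_right : N ≤ H ⊔ N) hτ⟩
    have hwL : w ∈ L := by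
      have h1 := InfiniteGalois.fixedField_fixingSubgroup L
      rw [h1] at hwN
      exact hwN
    have hw1 := adjoin_sub11 t u htop hwL
    obtain ⟨m, θ, hm, hθ, h2⟩ := vertical_part hF t u htu htop hΔ H hver hwH hw1
    obtain ⟨c, hc⟩ := zero_part t u htu htop hW
      (fun τ hτ => decomp_part t u htu htop hΔ M H hHM hhor hW hdec hreg hw1 hwH τ hτ) hm hθ h2
    rw [← hc]
    exact IntermediateField.algebraMap_mem _ _
  have htopG : (H ⊔ N : Subgroup (C ≃ₐ[k] C)) = ⊤ := by
    have h2 := InfiniteGalois.fixingSubgroup_fixedField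
      (⟨H ⊔ N, hclosed⟩ : ClosedSubgroup (C ≃ₐ[k] C))
    change (IntermediateField.fixedField (H ⊔ N : Subgroup (C ≃ₐ[k] C))).fixingSubgroup = H ⊔ N at h2
    rw [hfix, IntermediateField.fixingSubgroup_bot] at h2
    exact h2.symm
  refine le_antisymm hHM fun τ hτM => ?_
  have hHfix := InfiniteGalois.fixingSubgroup_fixedField (⟨H, hcl⟩ : ClosedSubgroup (C ≃ₐ[k] C))
  change (IntermediateField.fixedField H).fixingSubgroup = H at hHfix
  rw [← hHfix, IntermediateField.mem_fixingSubgroup_iff]
  intro z hz
  have hz' : ∀ τ ∈ H, τ z = z := fun τ hτ => hz ⟨τ, hτ⟩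
  have hzc := compositum_part t u htu htop hΔ M H hHM hhor hW hdec hz'
  have hτ : τ ∈ (H : Set (C ≃ₐ[k] C)) * (N : Set (C ≃ₐ[k] C)) := by
    rw [← Subgroup.mul_normal, htopG]
    exact Subgroup.mem_top τ
  obtain ⟨h, hh, n, hn, hhn⟩ := hτ
  have hnL := (IntermediateField.mem_fixingSubgroup_iff _ _).1 hn
  have hΩeq : ∀ x ∈ Ω, h x = τ x := by
    intro x hx
    have h1 : n x = x := hnL x (IntermediateField.subset_adjoin _ _ hx)
    rw [← hhn]
    change h x = h (n x)
    rw [h1]
  have hMeq : ∀ x ∈ M, h x = τ x := by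
    intro x hx
    rw [(IntermediateField.mem_fixingSubgroup_iff _ _).1 (hHM hh) x hx,
      (IntermediateField.mem_fixingSubgroup_iff _ _).1 hτM x hx]
  let E : IntermediateField Ω C :=
    { (RingHom.eqLocusField (h : C →+* C) (τ : C →+* C)) with
      algebraMap_mem' := fun x => hΩeq x.1 x.2 }
  have hE : IntermediateField.adjoin Ω (M : Set C) ≤ E := by
    rw [IntermediateField.adjoin_le_iff]
    exact fun x hx => hMeq x hx
  have h3 : h z = τ z := hE hzc
  rw [← h3]
  exact hz' h hh

end Pool.Agent.LT
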