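import Pool.Agent.Helper13.LG.BiDeg
import Pool.Agent.Helper13.LT.L0b

/-!
# Block H5: polynomials of total degree at most `m`

`Idx m` is the set of the pairs `(i, j)` with `i + j ≤ m`; `polOf F a = ∑ a_{ij} u^j t^i` as a
polynomial in the outer variable `t` with coefficients in `F[u]`.  All statements are direct
computations with coefficients.  (`(polOf F a).coeff m = C (a (m, 0))` because `i = m` forces `j = 0`, and the
coefficients of `t^i`, `i > m`, vanish.)
-/

universe u

namespace Pool.Agent.LT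

open Polynomial

/-- The exponents `(i, j)` with `i + j ≤ m`. -/
abbrev Idx (m : ℕ) : Type := {p : Fin (m + 1) × Fin (m + 1) // (p.1 : ℕ) + p.2 ≤ m}

/-- The polynomial `∑ a_{ij} t^i u^j` (outer variable `t`). -/
noncomputable def polOf (F : Type u) [Field F] {m : ℕ} (a : Idx m → ℤ) : F[X][X] :=
  ∑ p : Idx m, C (C (a p : F) * X ^ (p.1.2 : ℕ)) * X ^ (p.1.1 : ℕ)

/-- The value `∑ a_{ij} t^i u^j`. -/
noncomputable def valOf {k : Type u} [Field k] {m : ℕ} (t u : k) (a : Idx m → ℤ) : k :=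
  ∑ p : Idx m, (a p : k) * t ^ (p.1.1 : ℕ) * u ^ (p.1.2 : ℕ)

/-- `(0, 1)` -/
def i01 {m : ℕ} (hm : 1 ≤ m) : Idx m := ⟨(0, ⟨1, by omega⟩), by simpa using hm⟩

/-- `(0, 0)` -/
def i00 (m : ℕ) : Idx m := ⟨(0, 0), by simp⟩

/-- `(m, 0)` -/
def im0 (m : ℕ) : Idx m := ⟨(Fin.last m, 0), by simp⟩

theorem ev_polOf {F k : Type u} [Field F] [Field k] [Algebra F k] {m : ℕ} (t u : k)
    (a : Idx m → ℤ) : ev F u t (polOf F a) = valOf t u a := by
  unfold polOf valOf ev
  rw [map_sum]
  refine Finset.sum_congr rfl fun p _ => ?_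
  rw [map_mul, map_pow, coe_eval₂RingHom, eval₂_C, eval₂_X]
  have h1 : (aeval u : F[X] →ₐ[F] k).toRingHom (C (a p : F) * X ^ (p.1.2 : ℕ)) =
      (a p : k) * u ^ (p.1.2 : ℕ) := by
    change aeval u (C (a p : F) * X ^ (p.1.2 : ℕ)) = _
    rw [map_mul, map_pow, aeval_C, aeval_X, map_intCast]
  rw [h1]
  ring

theorem coeff_polOf6 {F : Type u} [Field F] {m : ℕ} (a : Idx m → ℤ) (i : ℕ) :
    (polOf F a).coeff i = ∑ p : Idx m, if i = (p.1.1 : ℕ) then C (a p : F) * X ^ (p.1.2 : ℕ)
      else 0 := by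
  unfold polOf
  rw [finsetSum_coeff]
  refine Finset.sum_congr rfl fun p _ => ?_
  rw [coeff_C_mul, coeff_X_pow]
  split_ifs
  · rw [mul_one]
  · rw [mul_zero]

theorem biDeg_polOf {F : Type u} [Field F] {m : ℕ} (a : Idx m → ℤ) : BiDeg (polOf F a) m := by
  refine ⟨?_, fun i => ?_⟩
  · rw [natDegree_le_iff_coeff_eq_zero]
    intro i hi
    rw [coeff_polOf6]
    refine Finset.sum_eq_zero fun p _ => ?_
    have := p.1.1.2
    rw [if_neg (by omega)]
  · rw [coeff_polOf6]
    refine natDegree_sum_le_of_forall_le _ _ fun p _ => ?_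
    have hp := p.1.2.2
    split_ifs
    · exact (natDegree_C_mul_X_pow_le _ _).trans (by omega)
    · rw [natDegree_zero]
      exact Nat.zero_le _

theorem coeff_top6 {F : Type u} [Field F] {m : ℕ} (a : Idx m → ℤ) :
    (polOf F a).coeff m = C (a (im0 m) : F) := by
  rw [coeff_polOf6, Finset.sum_eq_single (im0 m)]
  · have h1 : m = ((im0 m).1.1 : ℕ) := rfl
    rw [if_pos h1]
    change C (a (im0 m) : F) * X ^ 0 = _
    rw [pow_zero, mul_one]
  · intro p _ hp
    rw [if_neg]
    intro h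
    apply hp
    apply Subtype.ext
    have h2 := p.2
    apply Prod.ext
    · apply Fin.ext
      exact h.symm
    · apply Fin.ext
      change (p.1.2 : ℕ) = 0
      omega
  · intro h
    exact absurd (Finset.mem_univ _) h

theorem lead_polOf {F : Type u} [Field F] [CharZero F] {m : ℕ} {a : Idx m → ℤ}
    (ha : a (im0 m) ≠ 0) :
    (polOf F a).natDegree = m ∧ ∃ c : F, c ≠ 0 ∧ (polOf F a).leadingCoeff = C c := by
  have h0 : (a (im0 m) : F) ≠ 0 := by exact_mod_cast ha
  have h1 : (polOf F a).natDegree = m := by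
    refine natDegree_eq_of_le_of_coeff_ne_zero (biDeg_polOf a).1 ?_
    rw [coeff_top6]
    exact C_ne_zero.2 h0
  refine ⟨h1, _, h0, ?_⟩
  rw [← coeff_top6, leadingCoeff, h1]

theorem valOf_update6 {k : Type u} [Field k] {m : ℕ} (t u : k) (a : Idx m → ℤ) (q : Idx m)
    (c : ℤ) : valOf t u (Function.update a q c) =
      valOf t u (Function.update a q 0) + c * t ^ (q.1.1 : ℕ) * u ^ (q.1.2 : ℕ) := by
  rw [← sub_eq_iff_eq_add']
  unfold valOf
  rw [← Finset.sum_sub_distrib, Finset.sum_eq_single q]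
  · rw [Function.update_self, Function.update_self]
    push_cast
    ring
  · intro p _ hp
    rw [Function.update_of_ne hp, Function.update_of_ne hp, sub_self]
  · intro h
    exact absurd (Finset.mem_univ _) h

theorem valOf_update {k : Type u} [Field k] {m : ℕ} (hm : 1 ≤ m) (t u : k) (a : Idx m → ℤ)
    (α β : ℤ) :
    valOf t u (Function.update (Function.update a (i01 hm) α) (i00 m) β) =
      valOf t u (Function.update (Function.update a (i01 hm) 0) (i00 m) 0) + α * u + β := by
  have hne : i01 hm ≠ i00 m := by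
    intro h
    have h1 := congrArg (fun p : Idx m => (p.1.2 : ℕ)) h
    exact absurd h1 one_ne_zero
  rw [valOf_update6 t u _ (i00 m) β, Function.update_comm hne, valOf_update6 t u _ (i01 hm) α,
    Function.update_comm hne]
  change _ + (α : k) * t ^ 0 * u ^ 1 + (β : k) * t ^ 0 * u ^ 0 = _
  rw [pow_zero, pow_zero, pow_one, mul_one, mul_one, mul_one]

end Pool.Agent.LT
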