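import Pool.Agent.Helper13.LG.Step
import Pool.Agent.Helper13.LG.G7
import Pool.Agent.Helper13.LG.G9
import Pool.Agent.Helper13.LG.G10

/-!
# The general theorem
-/

universe u

namespace Pool.Agent.LT

open VC Polynomial Pool.Agent.SC Pool.Agent.Helper91.Sect

/-- **The relative theorem.** -/
theorem goodTwist_rel {F k : Type u} [Field F] [CharZero F] [Field k] [Algebra F k]
    (hF : ∃ S : Finset F, Subfield.closure (S : Set F) = ⊤)
    {t u : k} (htu : AlgebraicIndependent F ![t, u]) (hfin : FiniteDimensional (k0 F t u) k)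
    (hFk : ∀ z : k, IsAlgebraic F z → ∃ c : F, algebraMap F k c = z)
    {n : ℕ} {f : k[X]} {c : k}
    (hn : 2 ≤ n) (hdeg : 3 ≤ f.natDegree) (hs : f.Separable) (hc : c ≠ 0) :
    ∃ S : Finset F, ∀ a ∉ S, ∃ T : Finset F, ∀ b ∉ T,
      GoodTwist n f c (t - algebraMap F k a * u - algebraMap F k b) := by
  classical
  obtain ⟨D, hD0, hD⟩ := exists_denominator (t0 F t u) (u0 F t u) (algInd0 htu) (top0 t u)
    (goodElts f c)
  obtain ⟨S₁, hS₁⟩ := exists_goodDisc hD0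
  obtain ⟨S₂, -, hS₂⟩ := regular_generic htu hfin hFk
  refine ⟨S₁ ∪ S₂, fun a ha => ?_⟩
  rw [Finset.mem_union, not_or] at ha
  obtain ⟨T, hT⟩ := hS₁ a ha.1
  refine ⟨T, fun b hb => ?_⟩
  obtain ⟨Δ, N, hΔ, hdvd⟩ := hT b hb
  refine goodTwist_of_coord hF htu hfin hn hdeg hs hc hΔ hdvd (hS₂ a ha.2) ?_
  intro K _ _ W hFW htW huW hunit
  have hunit0 : algebraMap (k0 F t u) (kbar k K) (ev F (t0 F t u) (u0 F t u) D) ∉ W.nonunits := by
    have h3 : algebraMap (k0 F t u) (kbar k K) (ev F (t0 F t u) (u0 F t u) D) =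
        algebraMap k (kbar k K) (ev F t u D) :=
      congrArg (algebraMap k (kbar k K)) (ev0 (F := F) t u D)
    rw [h3]
    exact hunit
  obtain ⟨h4, h5⟩ := hD (kbar k K) W hFW htW huW hunit0
  refine ⟨h4, fun τ hτ0 hτ1 hτ2 => ?_⟩
  let τ₂ : kbar k K ≃ₐ[k0 F t u] kbar k K :=
    { τ with commutes' := fun r => hτ0 (r : k) r.2 }
  exact h5 τ₂ ⟨fun z => hτ1 z, fun z hz => hτ2 z hz⟩

/-- **The general theorem.** -/
theorem goodTwist_general {k : Type u} [Field k] [CharZero k]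
    (hk : ∃ S : Finset k, Subfield.closure (S : Set k) = ⊤) {t u : k}
    (htu : AlgebraicIndependent ℚ ![t, u]) {n : ℕ} {f : k[X]} {c : k}
    (hn : 2 ≤ n) (hdeg : 3 ≤ f.natDegree) (hs : f.Separable) (hc : c ≠ 0) :
    ∃ S : Finset ℚ, ∀ a ∉ S, ∃ T : Finset ℚ, ∀ b ∉ T, GoodTwist n f c (t - a * u - b) := by
  classical
  obtain ⟨F, hFfg, hFalg, htuF, hfin⟩ := exists_base_field hk htu
  have hF0 : CharZero F := (algebraMap F k).charZero
  obtain ⟨S, hS⟩ := goodTwist_rel hFfg htuF hfin (fun z hz => ⟨⟨z, hFalg z hz⟩, rfl⟩)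
    hn hdeg hs hc
  let i : ℚ ↪ F := ⟨fun a => (a : F), Rat.cast_injective⟩
  refine ⟨S.preimage i i.injective.injOn, fun a ha => ?_⟩
  rw [Finset.mem_preimage] at ha
  obtain ⟨T, hT⟩ := hS (i a) ha
  refine ⟨T.preimage i i.injective.injOn, fun b hb => ?_⟩
  rw [Finset.mem_preimage] at hb
  have h3 := hT (i b) hb
  have h1 : algebraMap F k (i a) = (a : k) := map_ratCast (algebraMap F k) a
  have h2 : algebraMap F k (i b) = (b : k) := map_ratCast (algebraMap F k) b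
  rwa [h1, h2] at h3

end Pool.Agent.LT
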