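import Pool.Agent.Helper6.LG.Defs

/-!
# From the elementary transvections to all transvections; matrices
-/

set_option autoImplicit false

open scoped BigOperators Matrix
open Pool.Agent.Helper81.OT Pool.Agent.Helper6.LG

namespace Pool.Agent.Helper13.LG

section mod

variable {F V : Type} [Field F] [AddCommGroup V] [Module F V] [FiniteDimensional F V]

/-- the transvection `w ↦ w + f w • v` -/
noncomputable def tv (f : Module.Dual F V) (v : V) (h : f v = 0) : SpecialLinearGroup F V :=
  ⟨LinearEquiv.transvection h, LinearEquiv.transvection.det_eq_one h⟩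

theorem tv_apply (f : Module.Dual F V) (v : V) (h : f v = 0) (w : V) :
    tv f v h w = w + f w • v := LinearEquiv.transvection.apply h w

theorem eq_tv {f : Module.Dual F V} {v : V} (h : f v = 0) {t : SpecialLinearGroup F V}
    (ht : ∀ w, t w = w + f w • v) : t = tv f v h :=
  SpecialLinearGroup.ext _ _ fun w => by rw [ht, tv_apply]

theorem tv_add (f : Module.Dual F V) (u v : V) (hu : f u = 0) (hv : f v = 0)
    (huv : f (u + v) = 0) : tv f (u + v) huv = tv f u hu * tv f v hv := by
  refine SpecialLinearGroup.ext _ _ fun w => ?_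
  rw [sl_mul_apply, tv_apply, tv_apply, tv_apply, map_add, map_smul, hv, smul_zero, add_zero,
    smul_add]
  abel

variable [Finite (SpecialLinearGroup F V)] {θ : SpecialLinearGroup F V → ℂ}

theorem tv_sum (h : MP θ) (f : Module.Dual F V) {ι : Type} (s : Finset ι) (v : ι → V)
    (hv : ∀ i ∈ s, f (v i) = 0) (hθ : ∀ i ∈ s, ∀ hi : f (v i) = 0, θ (tv f (v i) hi) = θ 1)
    (hs : f (∑ i ∈ s, v i) = 0) : θ (tv f (∑ i ∈ s, v i) hs) = θ 1 := by
  classical
  induction s using Finset.induction_on with
  | empty =>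
    congr 1
    refine SpecialLinearGroup.ext _ _ fun w => ?_
    rw [tv_apply, Finset.sum_empty, smul_zero, add_zero, sl_one_apply]
  | insert a s ha ih =>
    have h1 : f (v a) = 0 := hv a (Finset.mem_insert_self a s)
    have h2 : ∀ i ∈ s, f (v i) = 0 := fun i hi => hv i (Finset.mem_insert_of_mem hi)
    have h3 : f (∑ i ∈ s, v i) = 0 := by
      rw [map_sum]
      exact Finset.sum_eq_zero h2
    have h4 := ih h2 (fun i hi => hθ i (Finset.mem_insert_of_mem hi)) h3
    have h5 : tv f (∑ i ∈ insert a s, v i) hs = tv f (v a) h1 * tv f (∑ i ∈ s, v i) h3 := by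
      rw [← tv_add f _ _ h1 h3 (by rw [map_add, h1, h3, add_zero])]
      congr 1
      exact Finset.sum_insert ha
    have h6 : tv f (v a) h1 * tv f (∑ i ∈ s, v i) h3 =
        tv f (∑ i ∈ s, v i) h3 * tv f (v a) h1 := by
      rw [← tv_add f _ _ h1 h3 (by rw [map_add, h1, h3, add_zero]),
        ← tv_add f _ _ h3 h1 (by rw [map_add, h1, h3, add_zero])]
      congr 1
      exact add_comm _ _
    rw [h5, h6, h.mul_comm_eq h6 (hθ a (Finset.mem_insert_self a s) h1), h4]

end mod

section elem

variable {F n : Type} [Field F] [Finite F] [Fintype n] [DecidableEq n]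
  {θ : SpecialLinearGroup F (n → F) → ℂ}

/-- If `θ` has the value `θ 1` at all elementary transvections, then at all transvections. -/
theorem TC_of_elem (h : MP θ)
    (hT : ∀ (i j : n) (c : F), i ≠ j → ∀ t : SpecialLinearGroup F (n → F),
      (∀ w, t w = w + (c * w j) • (Pi.single i 1 : n → F)) → θ t = θ 1) : TC θ := by
  classical
  -- a multiple of a coordinate
  have h1 : ∀ (j : n) (c : F) (hc : c ≠ 0) (v : n → F)
      (hv : (c • (LinearMap.proj j : (n → F) →ₗ[F] F)) v = 0),
      θ (tv (c • LinearMap.proj j) v hv) = θ 1 := by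
    intro j c hc v hv
    have hvj : v j = 0 := by
      have h2 : c * v j = 0 := hv
      exact (mul_eq_zero.1 h2).resolve_left hc
    have h2 : ∑ k ∈ Finset.univ.erase j, (v k • (Pi.single k 1 : n → F)) = v := by
      have h3 := Finset.sum_erase_add Finset.univ (fun k => v k • (Pi.single k 1 : n → F))
        (Finset.mem_univ j)
      rw [hvj, zero_smul, add_zero] at h3
      rw [h3]
      exact (pi_eq_sum_univ' v).symm
    have h4 : ∀ k ∈ Finset.univ.erase j,
        (c • (LinearMap.proj j : (n → F) →ₗ[F] F)) (v k • (Pi.single k 1 : n → F)) = 0 := by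
      intro k hk
      have hkj : j ≠ k := fun h => (Finset.ne_of_mem_erase hk) h.symm
      simp [Pi.single_apply, hkj]
    have h5 := tv_sum h (c • (LinearMap.proj j : (n → F) →ₗ[F] F)) (Finset.univ.erase j)
      (fun k => v k • (Pi.single k 1 : n → F)) h4 (fun k hk hk0 => by
        refine hT k j (c * v k) (Finset.ne_of_mem_erase hk) _ fun w => ?_
        rw [tv_apply, smul_smul]
        congr 2
        simp only [LinearMap.smul_apply, LinearMap.proj_apply, smul_eq_mul]
        ring) (by rw [h2, hv])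
    rw [← h5]
    congr 2
    exact h2.symm
  intro f v hfv t ht
  by_cases hf : f = 0
  · congr 1
    refine SpecialLinearGroup.ext _ _ fun w => ?_
    rw [ht, hf, LinearMap.zero_apply, zero_smul, add_zero, sl_one_apply]
  obtain ⟨j, hj⟩ : ∃ j, f (Pi.single j 1) ≠ 0 := by
    by_contra hcon
    push Not at hcon
    apply hf
    refine LinearMap.pi_ext' fun i => LinearMap.ext_ring ?_
    simpa using hcon i
  obtain ⟨a, ha⟩ : ∃ a, a = f (Pi.single j 1) := ⟨_, rfl⟩
  have ha0 : a ≠ 0 := ha ▸ hj
  have hg0 : ((LinearMap.proj j : (n → F) →ₗ[F] F) - a⁻¹ • f) (Pi.single j 1) = 0 := by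
    rw [LinearMap.sub_apply, LinearMap.smul_apply, ← ha, LinearMap.proj_apply, Pi.single_eq_same,
      smul_eq_mul, inv_mul_cancel₀ ha0, sub_self]
  obtain ⟨g, hg⟩ : ∃ g : SpecialLinearGroup F (n → F), ∀ w,
      g w = w + (w j - a⁻¹ * f w) • (Pi.single j 1 : n → F) :=
    ⟨tv _ _ hg0, fun w => by rw [tv_apply]; rfl⟩
  have hfg : ∀ w, f (g w) = a * w j := by
    intro w
    rw [hg, map_add, map_smul, ← ha, smul_eq_mul]
    field_simp
    ring
  have hu : (a • (LinearMap.proj j : (n → F) →ₗ[F] F)) (g⁻¹ v) = 0 := by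
    have h2 := hfg (g⁻¹ v)
    rw [sl_apply_inv_self, hfv] at h2
    exact h2.symm
  have h2 := h1 j a ha0 (g⁻¹ v) hu
  rw [← h.conj _ g] at h2
  rw [← h2]
  congr 1
  refine SpecialLinearGroup.ext _ _ fun w => ?_
  rw [sl_mul_apply, sl_mul_apply, tv_apply, ht]
  have h3 : (a • (LinearMap.proj j : (n → F) →ₗ[F] F)) (g⁻¹ w) = f w := by
    have h4 := hfg (g⁻¹ w)
    rw [sl_apply_inv_self] at h4
    exact h4.symm
  have h5 : g (g⁻¹ w + f w • g⁻¹ v) = g (g⁻¹ w) + f w • g (g⁻¹ v) := by
    have h6 : ∀ (x y : n → F) (b : F), g (x + b • y) = g x + b • g y := by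
      intro x y b
      exact (map_add g.1 x (b • y)).trans (congrArg (g.1 x + ·) (map_smul g.1 b y))
    exact h6 _ _ _
  rw [h3, h5, sl_apply_inv_self, sl_apply_inv_self]

/-- **The matrix form** of a theorem on the special linear group of a space. -/
theorem const_lin_of {p : ℕ}
    (hsl : ∀ {θ : SpecialLinearGroup F (n → F) → ℂ}, MP θ → TC θ →
      p ≤ Module.finrank F (n → F) → ∀ x, θ x = θ 1)
    (hp : p ≤ Fintype.card n) {θ : Matrix.SpecialLinearGroup n F → ℂ} (h : MP θ)
    (hT : ∀ t : Matrix.SpecialLinearGroup n F,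
      (∃ i j c, i ≠ j ∧ t.1 = Matrix.transvection i j c) → θ t = θ 1)
    (x : Matrix.SpecialLinearGroup n F) : θ x = θ 1 := by
  classical
  let e := Matrix.SpecialLinearGroup.toLin'_equiv (n := n) (R := F)
  have he : ∀ (y : SpecialLinearGroup F (n → F)) (w : n → F), y w = (e.symm y).1 *ᵥ w := by
    intro y w
    conv_lhs => rw [← e.apply_symm_apply y]
    rfl
  have h1 := h.comp e.symm.toMonoidHom
  have h2 : TC (fun y => θ (e.symm.toMonoidHom y)) := by
    refine TC_of_elem h1 ?_
    intro i j c hij t ht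
    simp only [map_one]
    refine hT _ ⟨i, j, c, hij, ?_⟩
    refine Matrix.ext_of_mulVec_single fun k => ?_
    have h3 := he t (Pi.single k 1)
    rw [ht] at h3
    refine h3.symm.trans ?_
    rw [Matrix.transvection, Matrix.add_mulVec, Matrix.one_mulVec]
    congr 1
    ext l
    simp only [Pi.smul_apply, smul_eq_mul, Matrix.mulVec_single, Matrix.col_apply]
    simp [Matrix.single_apply, Pi.single_apply]
    by_cases h4 : l = i
    · by_cases h5 : j = k
      · simp [h4, h5]
      · simp [h4, h5]
    · have h6 : ¬ i = l := fun h => h4 h.symm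
      simp [h4, h6]
  have h3 := hsl h1 h2 (by rwa [Module.finrank_fintype_fun_eq_card]) (e x)
  simpa using h3

end elem

end Pool.Agent.Helper13.LG
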