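import Pool.Agent.Helper13.LG.Unif
import Pool.Agent.Helper13.LG.G10
import Pool.Agent.Helper13.LG.H4
import Pool.Agent.Helper13.LG.H5

/-!
# 100 percent of the twists
-/

universe u

namespace Pool.Agent.LT

open VC Polynomial Pool.Agent.SC Pool.Agent.Helper91.Sect

/-- **100 percent of the twists satisfy the section conjecture.** -/
theorem goodTwist_percent {k : Type u} [Field k] [CharZero k]
    (hk : ∃ S : Finset k, Subfield.closure (S : Set k) = ⊤) {t u : k}
    (htu : AlgebraicIndependent ℚ ![t, u]) {n : ℕ} {f : k[X]} {c : k}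
    (hn : 2 ≤ n) (hdeg : 3 ≤ f.natDegree) (hs : f.Separable) (hc : c ≠ 0) {m : ℕ} (hm : 1 ≤ m) :
    ∃ C : ℕ, ∀ H : ℕ,
      {a : Idx m → ℤ | (∀ i, |a i| ≤ H) ∧ ¬ GoodTwist n f c (valOf t u a)}.ncard ≤
        C * (2 * H + 1) ^ (Fintype.card (Idx m) - 1) := by
  classical
  obtain ⟨F, hFfg, hFalg, htuF, hfin⟩ := exists_base_field hk htu
  have hF0 : CharZero F := (algebraMap F k).charZero
  obtain ⟨N₀, hN₀⟩ := goodTwist_unif hFfg htuF hfin (fun z hz => ⟨⟨z, hFalg z hz⟩, rfl⟩)
    hn hdeg hs hc m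
  have h01 : i01 hm ≠ i00 m := by
    intro h
    have h1 := congrArg (fun p : Idx m => (p.1.2 : ℕ)) h
    exact absurd h1 one_ne_zero
  have h02 : i01 hm ≠ im0 m := by
    intro h
    have h1 := congrArg (fun p : Idx m => (p.1.2 : ℕ)) h
    exact absurd h1 one_ne_zero
  have h12 : i00 m ≠ im0 m := by
    intro h
    have h1 := congrArg (fun p : Idx m => (p.1.1 : ℕ)) h
    have h2 : (0 : ℕ) = m := h1
    omega
  refine ⟨2 * N₀ + 1, fun H => ?_⟩
  refine count_bad h01 h02 h12 {a | ¬ GoodTwist n f c (valOf t u a)} N₀ (fun a ha => ?_) H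
  set a₀ := Function.update (Function.update a (i01 hm) 0) (i00 m) 0 with ha₀
  have ha₀m : a₀ (im0 m) ≠ 0 := by
    rw [ha₀, Function.update_of_ne h12.symm, Function.update_of_ne h02.symm]
    exact ha
  obtain ⟨hd1, hlc⟩ := lead_polOf (F := F) ha₀m
  obtain ⟨S, hSc, hS⟩ := hN₀ (polOf F a₀) (biDeg_polOf a₀) (by rw [hd1]; exact hm) hlc
  let i : ℤ ↪ F := ⟨fun a => ((-a : ℤ) : F), fun a b hab => by
    have h1 : ((-a : ℤ) : F) = ((-b : ℤ) : F) := hab
    have h2 := Int.cast_injective h1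
    omega⟩
  refine ⟨S.preimage i i.injective.injOn, ?_, fun α hα => ?_⟩
  · exact (Finset.card_le_card_of_injOn i (fun z hz => Finset.mem_preimage.1 hz)
      i.injective.injOn).trans hSc
  rw [Finset.mem_preimage] at hα
  obtain ⟨T, hTc, hT⟩ := hS (i α) hα
  refine ⟨T.preimage i i.injective.injOn, ?_, fun β hβ => ?_⟩
  · exact (Finset.card_le_card_of_injOn i (fun z hz => Finset.mem_preimage.1 hz)
      i.injective.injOn).trans hTc
  rw [Finset.mem_preimage] at hβ
  have h3 := hT (i β) hβ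
  rw [Set.mem_ofPred_eq, not_not]
  rw [valOf_update, ← ha₀]
  have h4 : ev F u t (polOf F a₀) - algebraMap F k (i α) * u - algebraMap F k (i β) =
      valOf t u a₀ + α * u + β := by
    rw [ev_polOf]
    have h5 : algebraMap F k (i α) = -(α : k) := by
      change algebraMap F k ((-α : ℤ) : F) = _
      rw [map_intCast]
      push_cast
      rfl
    have h6 : algebraMap F k (i β) = -(β : k) := by
      change algebraMap F k ((-β : ℤ) : F) = _
      rw [map_intCast]
      push_cast
      rfl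
    rw [h5, h6]
    ring
  rwa [h4] at h3

end Pool.Agent.LT
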